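import Mathlib
import Pool.Agent.Hhelper79.LT.Assembly

set_option autoImplicit false

/-!
Removing turned intercalates from a tight configuration.
-/

namespace Pool.Agent.Hhelper81.LT

open Finset Pool.Agent.Hhelper79.LT

variable {n h : ℕ}

/-- `turned_latin` under the weakest hypothesis -/
theorem turned_latin' {B : ZMod n → ZMod n → ZMod n} {T : Finset (ZMod n)} (hn : n = 2 * h)
    (hB : IsLatin B) (hstd : ∀ i c, SpRow h i → TCol h T c → B i c = i + c) :
    IsLatin (turned h B T) := by
  classical
  have h2 := two_h hn
  constructor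
  · intro i
    by_cases hi : SpRow h i
    · have e : ∀ c, turned h B T i c = B i (if TCol h T c then c + h else c) := by
        intro c
        unfold turned
        by_cases hc : TCol h T c
        · rw [if_pos ⟨hi, hc⟩, if_pos hc, hstd i _ hi ((tCol_add_h hn).2 hc)]
          ring
        · rw [if_neg (fun h => hc h.2), if_neg hc]
      intro c c' hcc
      rw [e, e] at hcc
      have h3 := hB.1 i hcc
      by_cases hc : TCol h T c <;> by_cases hc' : TCol h T c'
      · rw [if_pos hc, if_pos hc'] at h3
        exact add_right_cancel h3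
      · rw [if_pos hc, if_neg hc'] at h3
        exact absurd (h3 ▸ (tCol_add_h hn).2 hc) hc'
      · rw [if_neg hc, if_pos hc'] at h3
        exact absurd (h3 ▸ (tCol_add_h hn).2 hc') hc
      · rwa [if_neg hc, if_neg hc'] at h3
    · have e : ∀ c, turned h B T i c = B i c := by
        intro c
        unfold turned
        rw [if_neg (fun h => hi h.1)]
      intro c c' hcc
      rw [e, e] at hcc
      exact hB.1 i hcc
  · intro c
    by_cases hc : TCol h T c
    · have e : ∀ i, turned h B T i c = B (if SpRow h i then i + h else i) c := by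
        intro i
        unfold turned
        by_cases hi : SpRow h i
        · rw [if_pos ⟨hi, hc⟩, if_pos hi, hstd _ c ((spRow_add_h hn).2 hi) hc]
          ring
        · rw [if_neg (fun h => hi h.1), if_neg hi]
      intro i i' hii
      simp only [e] at hii
      have h3 := hB.2 c hii
      by_cases hi : SpRow h i <;> by_cases hi' : SpRow h i'
      · rw [if_pos hi, if_pos hi'] at h3
        exact add_right_cancel h3
      · rw [if_pos hi, if_neg hi'] at h3
        exact absurd (h3 ▸ (spRow_add_h hn).2 hi) hi'
      · rw [if_neg hi, if_pos hi'] at h3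
        exact absurd (h3 ▸ (spRow_add_h hn).2 hi') hi
      · rwa [if_neg hi, if_neg hi'] at h3
    · have e : ∀ i, turned h B T i c = B i c := by
        intro i
        unfold turned
        rw [if_neg (fun h => hc h.2)]
      intro i i' hii
      simp only [e] at hii
      exact hB.2 c hii

open Classical in
/-- the turned cells -/
noncomputable def cells (n h : ℕ) (S : Finset (ZMod n)) : Finset (ZMod n × ZMod n) :=
  (S ×ˢ (Finset.univ : Finset (Bool × Bool))).image (fun x => tCell n h x.2.1 x.2.2 x.1)

theorem card_cells_le (n h : ℕ) (S : Finset (ZMod n)) : (cells n h S).card ≤ 4 * S.card := by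
  classical
  unfold cells
  refine Finset.card_image_le.trans ?_
  rw [Finset.card_product, Finset.card_univ, Fintype.card_prod, Fintype.card_bool]
  omega

theorem mem_cells {n h : ℕ} {S : Finset (ZMod n)} {i c : ZMod n} (hi : SpRow h i)
    (hc : TCol h S c) : (i, c) ∈ cells n h S := by
  classical
  unfold cells
  rw [Finset.mem_image]
  have hc' : ∃ t ∈ S, ∃ b', c = tOf n h b' t := by
    rcases hc with hc | hc
    · exact ⟨_, hc, false, by simp [tOf]⟩
    · exact ⟨_, hc, true, by simp [tOf]⟩
  have hi' : ∃ b : Bool, i = if b then (h : ZMod n) - 1 else -1 := by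
    rcases hi with hi | hi
    · exact ⟨false, by simp [hi]⟩
    · exact ⟨true, by simp [hi]⟩
  obtain ⟨t, ht, b', hb'⟩ := hc'
  obtain ⟨b, hb⟩ := hi'
  refine ⟨(t, b, b'), by simp [ht], ?_⟩
  unfold tCell
  exact Prod.ext hb.symm hb'.symm

open Classical in
/-- REMOVAL: a tight configuration for `S` gives all smaller values -/
theorem attains_of_top [NeZero n] (hn : n = 2 * h)
    {B : ZMod n → ZMod n → ZMod n} (hB : IsLatin B) {S : Finset (ZMod n)}
    (hstd : ∀ i c, SpRow h i → TCol h S c → B i c = i + c)
    {r : ℕ} (H0 : Finset (ZMod n × ZMod n)) (hH0 : H0.card ≤ r) (hits : Hits B H0)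
    {κ : Type} [Fintype κ] (hκ : Fintype.card κ = 4 * S.card + r) (F : κ → ZMod n → ZMod n)
    (hF : ∀ k, IsTrans (turned h B S) (F k)) (hdis : ∀ k l, k ≠ l → ∀ i, F k i ≠ F l i)
    {j : ℕ} (hj : j ≤ S.card) : Attains n (4 * j + r) := by
  obtain ⟨S', hS', hcard⟩ := Finset.exists_subset_card_eq hj
  -- the bad members
  let bad : Finset κ := Finset.univ.filter (fun k => ∃ i, SpRow h i ∧ TCol h (S \ S') (F k i))
  have hbad : bad.card ≤ 4 * (S \ S').card := by
    refine le_trans ?_ (card_cells_le n h (S \ S'))
    have hch : ∀ k ∈ bad, ∃ i, SpRow h i ∧ TCol h (S \ S') (F k i) := by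
      intro k hk
      exact (Finset.mem_filter.1 hk).2
    choose! g hg using hch
    refine Finset.card_le_card_of_injOn (fun k => (g k, F k (g k))) ?_ ?_
    · intro k hk
      exact mem_cells (hg k hk).1 (hg k hk).2
    · intro k hk l hl e
      simp only [Prod.mk.injEq] at e
      by_contra hne
      refine hdis k l hne (g k) ?_
      rw [e.2, e.1]
  have hgood : 4 * j + r ≤ (Finset.univ \ bad).card := by
    have h1 : (S \ S').card = S.card - S'.card := Finset.card_sdiff_of_subset hS'
    have h2 : (Finset.univ \ bad).card = Fintype.card κ - bad.card := by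
      rw [Finset.card_sdiff_of_subset (Finset.subset_univ _), Finset.card_univ]
    omega
  obtain ⟨K, hK, hKc⟩ := Finset.exists_subset_card_eq hgood
  have hT : ∀ c, TCol h S' c → TCol h S c := by
    rintro c (hc | hc)
    · exact Or.inl (hS' hc)
    · exact Or.inr (hS' hc)
  refine ⟨turned h B S', turned_latin' hn hB (fun i c hi hc => hstd i c hi (hT c hc)),
    ⟨H0 ∪ cells n h S', ?_, ?_⟩, {k // k ∈ K}, inferInstance, fun k => F k.1, ?_, ?_, ?_⟩
  · refine (Finset.card_union_le _ _).trans ?_
    have := card_cells_le n h S'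
    omega
  · intro f hf
    by_cases hex : ∃ i, SpRow h i ∧ TCol h S' (f i)
    · obtain ⟨i, hi, hc⟩ := hex
      exact ⟨i, Finset.mem_union_right _ (mem_cells hi hc)⟩
    · push Not at hex
      have e : ∀ i, turned h B S' i (f i) = B i (f i) := by
        intro i
        unfold turned
        rw [if_neg (fun h => hex i h.1 h.2)]
      obtain ⟨i, hi⟩ := hits f ⟨hf.1, by
        have := hf.2
        simp only [e] at this
        exact this⟩
      exact ⟨i, Finset.mem_union_left _ hi⟩
  · rw [Fintype.card_coe, hKc]
  · intro k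
    have hk := hK k.2
    rw [Finset.mem_sdiff, Finset.mem_filter] at hk
    have hk2 : ∀ i, SpRow h i → ¬ TCol h (S \ S') (F k.1 i) := by
      intro i hi hc
      exact hk.2 ⟨Finset.mem_univ _, i, hi, hc⟩
    have e : ∀ i, turned h B S' i (F k.1 i) = turned h B S i (F k.1 i) := by
      intro i
      unfold turned
      by_cases hi : SpRow h i
      · by_cases hc : TCol h S' (F k.1 i)
        · rw [if_pos ⟨hi, hc⟩, if_pos ⟨hi, hT _ hc⟩]
        · have hc2 : ¬ TCol h S (F k.1 i) := by
            intro hc3
            apply hk2 i hi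
            unfold TCol at hc hc3 ⊢
            rw [not_or] at hc
            rcases hc3 with hc3 | hc3
            · exact Or.inl (Finset.mem_sdiff.2 ⟨hc3, hc.1⟩)
            · exact Or.inr (Finset.mem_sdiff.2 ⟨hc3, hc.2⟩)
          rw [if_neg (fun h => hc h.2), if_neg (fun h => hc2 h.2)]
      · rw [if_neg (fun h => hi h.1), if_neg (fun h => hi h.1)]
    refine ⟨(hF k.1).1, ?_⟩
    simp only [e]
    exact (hF k.1).2
  · intro k l hkl i
    exact hdis k.1 l.1 (fun e => hkl (Subtype.ext e)) i

end Pool.Agent.Hhelper81.LT
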