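import Mathlib
import Pool.Agent.Hhelper81.LT.Top

set_option autoImplicit false

/-!
Block transversals of a square with crossed pairs of rows, and the second assembly theorem.
-/

namespace Pool.Agent.Hhelper81.LT

open Finset Pool.Agent.Hhelper79.LT

variable {n h : ℕ}

/-- the cyclic square -/
def cyc (n : ℕ) (i c : ZMod n) : ZMod n := i + c

theorem nz_aux (hn : n = 2 * h) (hh : 2 ≤ h) :
    (h : ZMod n) ≠ 0 ∧ (h : ZMod n) ≠ 1 ∧ (1 : ZMod n) ≠ 0 ∧ (h : ZMod n) + 1 ≠ 0 := by
  refine ⟨?_, ?_, ?_, ?_⟩
  · intro e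
    rw [ZMod.natCast_eq_zero_iff] at e
    have := Nat.le_of_dvd (by omega) e
    omega
  · intro e
    have : ((h : ℕ) : ZMod n) = ((1 : ℕ) : ZMod n) := by simpa using e
    have := natCast_inj_of_lt (by omega) (by omega) this
    omega
  · intro e
    have : ((1 : ℕ) : ZMod n) = ((0 : ℕ) : ZMod n) := by simpa using e
    have := natCast_inj_of_lt (by omega) (by omega) this
    omega
  · intro e
    have : ((h + 1 : ℕ) : ZMod n) = ((0 : ℕ) : ZMod n) := by simpa using e
    have := natCast_inj_of_lt (by omega) (by omega) this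
    omega

/-- block transversals in the turned cyclic square -/
theorem bt_trans' [NeZero n] (hn : n = 2 * h) (hh : 2 ≤ h) {S : Finset (ZMod n)}
    {t a : ZMod n} (ht : TCol h S t) (hnt : ¬ TCol h S (t - 1))
    (ha : a = 0 ∨ a = (h : ZMod n)) :
    IsTrans (turned h (cyc n) S) (bt n h a t) := by
  classical
  have h2 := two_h hn
  refine ⟨bt_injective hn hh a t, ?_⟩
  have hsym : ∀ i, turned h (cyc n) S i (bt n h a t i) =
      2 * i + t + ((if (i - a).val < h then 0 else 1 : ℕ) : ZMod n) := by
    intro i
    have hx : i = a + ((i - a).val : ZMod n) := by simp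
    have hlt := ZMod.val_lt (i - a)
    by_cases hlast : (i - a).val = n - 1
    · have hi : i = a - 1 := by
        have h3 : (((i - a).val : ℕ) : ZMod n) + 1 = 0 := by
          have : (((i - a).val + 1 : ℕ) : ZMod n) = 0 := by
            rw [show (i - a).val + 1 = n by omega]; exact ZMod.natCast_self n
          simpa using this
        linear_combination hx + h3
      have hsp : SpRow h i := by
        rcases ha with rfl | rfl
        · left; rw [hi]; ring
        · right; exact hi
      have hf : bt n h a t i = a + t + (h : ZMod n) := by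
        unfold bt off
        rw [hlast, if_neg (by omega), if_neg (by omega), hi]
        push_cast; ring
      have hcol : TCol h S (bt n h a t i) := by
        rw [hf]
        rcases ha with rfl | rfl
        · rw [zero_add]; exact (tCol_add_h hn).2 ht
        · rw [show (h : ZMod n) + t + h = t by linear_combination h2]; exact ht
      unfold turned
      rw [if_pos ⟨hsp, hcol⟩, hf, hlast, if_neg (by omega), hi]
      push_cast
      rcases ha with rfl | rfl
      · linear_combination h2
      · linear_combination h2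
    · have hnot : ¬ (SpRow h i ∧ TCol h S (bt n h a t i)) := by
        rintro ⟨hsp, hcol⟩
        have hia : i = a + h - 1 := by
          have hor : i = a - 1 ∨ i = a + h - 1 := by
            rcases ha with rfl | rfl <;> rcases hsp with e | e
            · left; rw [e]; ring
            · right; rw [e]; ring
            · right; rw [e]; linear_combination -h2
            · left; exact e
          rcases hor with e | e
          · exfalso
            apply hlast
            have e1 : i - a = ((n - 1 : ℕ) : ZMod n) := by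
              rw [Nat.cast_sub (by omega), ZMod.natCast_self, e]; push_cast; ring
            rw [e1, ZMod.val_natCast, Nat.mod_eq_of_lt (by omega)]
          · exact e
        have hval : (i - a).val = h - 1 := by
          have e1 : i - a = ((h - 1 : ℕ) : ZMod n) := by
            rw [Nat.cast_sub (by omega), hia]; push_cast; ring
          rw [e1, ZMod.val_natCast, Nat.mod_eq_of_lt (by omega)]
        have hf : bt n h a t i = a + h - 1 + t := by
          unfold bt off
          rw [hval, if_pos (by omega), hia]; push_cast; ring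
        rw [hf] at hcol
        apply hnt
        rcases ha with rfl | rfl
        · rw [show (0 : ZMod n) + h - 1 + t = (t - 1) + h by ring] at hcol
          exact (tCol_add_h hn).1 hcol
        · rw [show (h : ZMod n) + h - 1 + t = t - 1 by linear_combination h2] at hcol
          exact hcol
      have e1 : turned h (cyc n) S i (bt n h a t i) = i + bt n h a t i := by
        unfold turned; rw [if_neg hnot]; rfl
      rw [e1]
      unfold bt off
      split_ifs with h3 h4
      · push_cast; ring
      · push_cast; ring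
      · omega
  intro i j hij
  simp only [hsym] at hij
  exact sym_injective hn a t hij

/-- the two rows `p, p + 1` are straight or crossed on the diagonal `d` -/
def PairOK (B : ZMod n → ZMod n → ZMod n) (p d : ZMod n) : Prop :=
  (B p (p + d) = p + (p + d) ∧ B (p + 1) (p + 1 + d) = p + 1 + (p + 1 + d)) ∨
  (B p (p + 1 + d) = p + 1 + (p + 1 + d) ∧ B (p + 1) (p + d) = p + (p + d))

/-- for a diagonal function with equal values in rows `p, p + 1` one can exchange these rows -/
theorem exists_tau {B : ZMod n → ZMod n → ZMod n} {p : ZMod n} (F : ZMod n → ZMod n)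
    (d : ZMod n) (h1 : F p = p + d) (h2 : F (p + 1) = p + 1 + d)
    (hp : PairOK B p d) :
    ∃ τ : Equiv.Perm (ZMod n), (∀ i, i ≠ p → i ≠ p + 1 → τ i = i) ∧
      (τ p = p ∨ τ p = p + 1) ∧ (τ (p + 1) = p ∨ τ (p + 1) = p + 1) ∧
      ∀ i, i = p ∨ i = p + 1 → B i (F (τ i)) = τ i + F (τ i) := by
  classical
  rcases hp with ⟨ha, hb⟩ | ⟨ha, hb⟩
  · refine ⟨1, fun _ _ _ => rfl, Or.inl rfl, Or.inr rfl, ?_⟩
    rintro i (rfl | rfl)
    · simp only [Equiv.Perm.coe_one, id_eq]; rw [h1]; exact ha
    · simp only [Equiv.Perm.coe_one, id_eq]; rw [h2]; exact hb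
  · refine ⟨Equiv.swap p (p + 1), ?_, ?_, ?_, ?_⟩
    · intro i hi hi'; exact Equiv.swap_apply_of_ne_of_ne hi hi'
    · right; exact Equiv.swap_apply_left _ _
    · left; exact Equiv.swap_apply_right _ _
    · rintro i (rfl | rfl)
      · rw [Equiv.swap_apply_left, h2]; exact ha
      · rw [Equiv.swap_apply_right, h1]; exact hb

/-- the offset is the same in rows `p, p + 1` -/
theorem off_pair [NeZero n] (hn : n = 2 * h) (hh : 2 ≤ h) {a p : ZMod n}
    (ha : a = 0 ∨ a = (h : ZMod n)) (hp : ¬ SpRow h p) (hp1 : ¬ SpRow h (p + 1)) :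
    off n h (p + 1 - a).val = off n h (p - a).val := by
  have h2 := two_h hn
  have hlt := ZMod.val_lt (p - a)
  have hx : p = a + ((p - a).val : ZMod n) := by simp
  -- the value is neither `h - 1` nor `n - 1`, `n - 2`
  have key : ∀ y : ℕ, (p - a).val = y → (y + 1 = h ∨ y + 1 = n) → False := by
    intro y hy hyy
    rw [hy] at hx
    apply hp
    unfold SpRow
    have h1 : ((y + 1 : ℕ) : ZMod n) = (h : ZMod n) ∨ ((y + 1 : ℕ) : ZMod n) = 0 := by
      rcases hyy with e | e
      · left; rw [e]
      · right; rw [e]; exact ZMod.natCast_self n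
    push_cast at h1
    rcases ha with rfl | rfl <;> rcases h1 with e | e
    · right; linear_combination hx + e
    · left; linear_combination hx + e
    · left; linear_combination hx + e + h2
    · right; linear_combination hx + e
  have key1 : ∀ y : ℕ, (p - a).val = y → y + 2 = n → False := by
    intro y hy hyy
    rw [hy] at hx
    apply hp1
    unfold SpRow
    have h1 : ((y + 2 : ℕ) : ZMod n) = 0 := by rw [hyy]; exact ZMod.natCast_self n
    push_cast at h1
    rcases ha with rfl | rfl
    · left; linear_combination hx + h1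
    · right; linear_combination hx + h1
  have hval : (p + 1 - a).val = (p - a).val + 1 := by
    have e1 : p + 1 - a = (((p - a).val + 1 : ℕ) : ZMod n) := by
      push_cast; simp; ring
    have hne : (p - a).val + 1 < n := by
      by_contra hc
      exact key _ rfl (Or.inr (by omega))
    rw [e1, ZMod.val_natCast, Nat.mod_eq_of_lt hne]
  rw [hval]
  have k1 : ¬ ((p - a).val + 1 = h ∨ (p - a).val + 1 = n) := key _ rfl
  have k2 : ¬ ((p - a).val + 2 = n) := key1 _ rfl
  unfold off
  generalize (p - a).val = v at *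
  split_ifs <;> omega

/-- the crossed block transversal -/
theorem exists_block [NeZero n] (hn : n = 2 * h) (hh : 2 ≤ h) {B : ZMod n → ZMod n → ZMod n}
    {p q : ZMod n} (hpq : p ≠ q ∧ p ≠ q + 1 ∧ p + 1 ≠ q)
    (hsp : ¬ SpRow h p ∧ ¬ SpRow h (p + 1) ∧ ¬ SpRow h q ∧ ¬ SpRow h (q + 1))
    (hstd : ∀ i c, i ≠ p → i ≠ p + 1 → i ≠ q → i ≠ q + 1 → B i c = i + c)
    {S : Finset (ZMod n)} {t a : ZMod n} (ht : TCol h S t) (hnt : ¬ TCol h S (t - 1))
    (ha : a = 0 ∨ a = (h : ZMod n))
    (hpair : ∀ d, Blk (h : ZMod n) t d → PairOK B p d ∧ PairOK B q d) :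
    ∃ (τ : Equiv.Perm (ZMod n)), IsTrans (turned h B S) (fun i => bt n h a t (τ i)) ∧
      ∀ i, B i (bt n h a t (τ i)) = τ i + bt n h a t (τ i) := by
  classical
  have hne1 : ∀ x : ZMod n, x ≠ x + 1 := by
    intro x e
    exact (nz_aux hn hh).2.2.1 (by linear_combination -e)
  have hF := bt_trans' hn hh ht hnt ha
  have hbd : ∀ x : ZMod n, Blk (h : ZMod n) t (t + (off n h (x - a).val : ℕ)) := by
    intro x
    have := bt_blk (h := h) a t x
    unfold bt at this
    have e : x + t + (off n h (x - a).val : ℕ) - x = t + (off n h (x - a).val : ℕ) := by ring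
    rwa [e] at this
  obtain ⟨τ1, a1, a2, a3, a4⟩ := exists_tau (B := B) (p := p) (bt n h a t)
    (t + (off n h (p - a).val : ℕ)) (by unfold bt; ring)
    (by unfold bt; rw [off_pair hn hh ha hsp.1 hsp.2.1]; ring) (hpair _ (hbd p)).1
  obtain ⟨τ2, b1, b2, b3, b4⟩ := exists_tau (B := B) (p := q) (bt n h a t)
    (t + (off n h (q - a).val : ℕ)) (by unfold bt; ring)
    (by unfold bt; rw [off_pair hn hh ha hsp.2.2.1 hsp.2.2.2]; ring) (hpair _ (hbd q)).2
  have hpp : p + 1 ≠ q + 1 := fun e => hpq.1 (add_right_cancel e)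
  have hτ : ∀ i, (τ1 * τ2) i = if i = p ∨ i = p + 1 then τ1 i else τ2 i := by
    intro i
    rw [Equiv.Perm.mul_apply]
    by_cases hi : i = p ∨ i = p + 1
    · rw [if_pos hi]
      rcases hi with rfl | rfl
      · rw [b1 _ hpq.1 hpq.2.1]
      · rw [b1 _ hpq.2.2 hpp]
    · rw [if_neg hi]
      rw [not_or] at hi
      by_cases hi2 : i = q ∨ i = q + 1
      · have h3 : τ2 i = q ∨ τ2 i = q + 1 := by
          rcases hi2 with rfl | rfl
          · exact b2
          · exact b3
        rcases h3 with h3 | h3
        · rw [h3]; exact a1 _ (Ne.symm hpq.1) (Ne.symm hpq.2.2)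
        · rw [h3]; exact a1 _ (Ne.symm hpq.2.1) (Ne.symm hpp)
      · rw [not_or] at hi2
        rw [b1 _ hi2.1 hi2.2]
        exact a1 _ hi.1 hi.2
  have hsym : ∀ i, B i (bt n h a t ((τ1 * τ2) i)) =
      (τ1 * τ2) i + bt n h a t ((τ1 * τ2) i) := by
    intro i
    rw [hτ]
    by_cases hi : i = p ∨ i = p + 1
    · rw [if_pos hi]; exact a4 i hi
    · rw [if_neg hi]
      by_cases hi2 : i = q ∨ i = q + 1
      · exact b4 i hi2
      · rw [not_or] at hi hi2
        rw [b1 _ hi2.1 hi2.2]
        exact hstd i _ hi.1 hi.2 hi2.1 hi2.2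
  -- special rows are fixed
  have hfix : ∀ i, SpRow h i → (τ1 * τ2) i = i := by
    intro i hi
    have c1 : i ≠ p := fun e => hsp.1 (e ▸ hi)
    have c2 : i ≠ p + 1 := fun e => hsp.2.1 (e ▸ hi)
    have c3 : i ≠ q := fun e => hsp.2.2.1 (e ▸ hi)
    have c4 : i ≠ q + 1 := fun e => hsp.2.2.2 (e ▸ hi)
    rw [hτ, if_neg (by rw [not_or]; exact ⟨c1, c2⟩)]
    exact b1 _ c3 c4
  have hfix2 : ∀ i, ¬ SpRow h i → ¬ SpRow h ((τ1 * τ2) i) := by
    intro i hi hi2
    have := hfix _ hi2
    exact hi ((τ1 * τ2).injective this ▸ hi2)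
  refine ⟨τ1 * τ2, ⟨hF.1.comp (τ1 * τ2).injective, ?_⟩, hsym⟩
  have e : ∀ i, turned h B S i (bt n h a t ((τ1 * τ2) i)) =
      turned h (cyc n) S ((τ1 * τ2) i) (bt n h a t ((τ1 * τ2) i)) := by
    intro i
    unfold turned
    by_cases hi : SpRow h i
    · rw [hfix i hi]
      by_cases hc : TCol h S (bt n h a t i)
      · rw [if_pos ⟨hi, hc⟩, if_pos ⟨hi, hc⟩]
      · rw [if_neg (fun h => hc h.2), if_neg (fun h => hc h.2)]
        have := hsym i
        rw [hfix i hi] at this
        exact this
    · rw [if_neg (fun h => hi h.1), if_neg (fun h => hfix2 i hi h.1)]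
      exact hsym i
  simp only [e]
  exact hF.2.comp (τ1 * τ2).injective

open Classical in
/-- ASSEMBLY with crossed rows and a window -/
theorem assemble2 [NeZero n] (hn : n = 2 * h) (hh : 2 ≤ h) {B : ZMod n → ZMod n → ZMod n}
    (hB : IsLatin B) {p q : ZMod n} (hpq : p ≠ q ∧ p ≠ q + 1 ∧ p + 1 ≠ q)
    (hsp : ¬ SpRow h p ∧ ¬ SpRow h (p + 1) ∧ ¬ SpRow h q ∧ ¬ SpRow h (q + 1))
    (hstd : ∀ i c, i ≠ p → i ≠ p + 1 → i ≠ q → i ≠ q + 1 → B i c = i + c)
    {T U : Finset (ZMod n)} (hTU : Disjoint T U)
    (hdisj : ∀ t ∈ T, ∀ t' ∈ T, t ≠ t' → ∀ d, Blk (h : ZMod n) t d → ¬ Blk (h : ZMod n) t' d)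
    (hnt : ∀ t ∈ T, ¬ TCol h (T ∪ U) (t - 1))
    (hpair : ∀ t ∈ T, ∀ d, Blk (h : ZMod n) t d → PairOK B p d ∧ PairOK B q d)
    {r : ℕ} (H0 : Finset (ZMod n × ZMod n)) (hH0 : H0.card ≤ r) (hits : Hits B H0)
    {κ : Type} [Fintype κ] (hκ : Fintype.card κ = 4 * U.card + r) (F : κ → ZMod n → ZMod n)
    (hF : ∀ k, IsTrans (turned h B U) (F k)) (hdis : ∀ k l, k ≠ l → ∀ i, F k i ≠ F l i)
    (havoid : ∀ k i, ∀ t ∈ T, ¬ Blk (h : ZMod n) t (2 * F k i - B i (F k i)))
    {j : ℕ} (hj : j ≤ T.card + U.card) : Attains n (4 * j + r) := by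
  have h2 := two_h hn
  have hBsp : ∀ i c, SpRow h i → B i c = i + c := by
    intro i c hi
    refine hstd i c ?_ ?_ ?_ ?_ <;> intro e <;> rw [e] at hi
    · exact hsp.1 hi
    · exact hsp.2.1 hi
    · exact hsp.2.2.1 hi
    · exact hsp.2.2.2 hi
  have hTC : ∀ t ∈ T, ∀ b' : Bool, TCol h (T ∪ U) (tOf n h b' t) := by
    intro t ht b'
    unfold tOf TCol
    cases b'
    · left; exact Finset.mem_union_left _ ht
    · right
      have : t + (h : ZMod n) - h = t := by ring
      simp only [if_true, this]
      exact Finset.mem_union_left _ ht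
  have hnTC : ∀ t ∈ T, ∀ b' : Bool, ¬ TCol h (T ∪ U) (tOf n h b' t - 1) := by
    intro t ht b' hc
    unfold tOf at hc
    cases b'
    · exact hnt t ht hc
    · simp only [if_true] at hc
      rw [show t + (h : ZMod n) - 1 = (t - 1) + h by ring] at hc
      exact hnt t ht ((tCol_add_h hn).1 hc)
  have haO : ∀ b : Bool, aOf n h b = 0 ∨ aOf n h b = (h : ZMod n) := by
    intro b; unfold aOf; cases b <;> simp
  have hblk : ∀ (t : ZMod n) (b' : Bool) (d : ZMod n),
      Blk (h : ZMod n) (tOf n h b' t) d ↔ Blk (h : ZMod n) t d := by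
    intro t b' d
    unfold tOf
    cases b'
    · exact Iff.rfl
    · exact blk_add_h hn
  -- choose the block transversals
  have hex : ∀ x : {t // t ∈ T} × Bool × Bool, ∃ τ : Equiv.Perm (ZMod n),
      IsTrans (turned h B (T ∪ U)) (fun i => bt n h (aOf n h x.2.1) (tOf n h x.2.2 x.1.1) (τ i)) ∧
      ∀ i, B i (bt n h (aOf n h x.2.1) (tOf n h x.2.2 x.1.1) (τ i)) =
        τ i + bt n h (aOf n h x.2.1) (tOf n h x.2.2 x.1.1) (τ i) := by
    rintro ⟨⟨t, ht⟩, b, b'⟩
    exact exists_block hn hh hpq hsp hstd (hTC t ht b') (hnTC t ht b') (haO b)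
      (fun d hd => hpair t ht d ((hblk t b' d).1 hd))
  choose τ hτ1 hτ2 using hex
  let G : {t // t ∈ T} × Bool × Bool → ZMod n → ZMod n := fun x i =>
    bt n h (aOf n h x.2.1) (tOf n h x.2.2 x.1.1) (τ x i)
  -- virtual diagonals of the block transversals
  have hvd : ∀ x i, Blk (h : ZMod n) x.1.1 (2 * G x i - B i (G x i)) := by
    intro x i
    have h3 : 2 * G x i - B i (G x i) = G x i - τ x i := by
      show 2 * G x i - B i (bt n h (aOf n h x.2.1) (tOf n h x.2.2 x.1.1) (τ x i)) = _
      rw [hτ2 x i]
      show 2 * G x i - (τ x i + G x i) = _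
      ring
    rw [h3]
    exact (hblk x.1.1 x.2.2 _).1 (bt_blk (h := h) _ _ _)
  refine attains_of_top hn hB (S := T ∪ U) (fun i c hi _ => hBsp i c hi) H0 hH0 hits
    (κ := ({t // t ∈ T} × Bool × Bool) ⊕ κ) ?_
    (fun x => match x with
      | Sum.inl x => G x
      | Sum.inr k => F k) ?_ ?_ (by rw [Finset.card_union_of_disjoint hTU]; exact hj)
  · rw [Fintype.card_sum, Fintype.card_prod, Fintype.card_prod, Fintype.card_bool,
      Fintype.card_coe, hκ, Finset.card_union_of_disjoint hTU]
    ring
  · rintro (x | k)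
    · exact hτ1 x
    · have e : ∀ i, turned h B (T ∪ U) i (F k i) = turned h B U i (F k i) := by
        intro i
        unfold turned
        by_cases hi : SpRow h i
        · by_cases hc : TCol h U (F k i)
          · have hc2 : TCol h (T ∪ U) (F k i) := by
              rcases hc with hc | hc
              · exact Or.inl (Finset.mem_union_right _ hc)
              · exact Or.inr (Finset.mem_union_right _ hc)
            rw [if_pos ⟨hi, hc2⟩, if_pos ⟨hi, hc⟩]
          · have hc2 : ¬ TCol h (T ∪ U) (F k i) := by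
              intro hc3
              have hcT : TCol h T (F k i) := by
                unfold TCol at hc hc3 ⊢
                rw [not_or] at hc
                rcases hc3 with hc3 | hc3
                · rcases Finset.mem_union.1 hc3 with h4 | h4
                  · exact Or.inl h4
                  · exact absurd h4 hc.1
                · rcases Finset.mem_union.1 hc3 with h4 | h4
                  · exact Or.inr h4
                  · exact absurd h4 hc.2
              obtain ⟨t, ht, hb⟩ := turned_blk hn hi hcT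
              refine havoid k i t ht ?_
              rw [hBsp i _ hi]
              rw [show 2 * F k i - (i + F k i) = F k i - i by ring]
              exact hb
            rw [if_neg (fun h => hc2 h.2), if_neg (fun h => hc h.2)]
        · rw [if_neg (fun h => hi h.1), if_neg (fun h => hi h.1)]
      refine ⟨(hF k).1, ?_⟩
      show Function.Injective (fun i => turned h B (T ∪ U) i (F k i))
      simp only [e]
      exact (hF k).2
  · rintro (x | k) (y | l) hne i
    · show G x i ≠ G y i
      intro e
      have hx := hvd x i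
      have hy := hvd y i
      rw [← e] at hy
      by_cases hts : x.1 = y.1
      · have h3 : τ x i = τ y i := by
          have e1 := hτ2 x i
          have e2 := hτ2 y i
          change B i (G x i) = τ x i + G x i at e1
          change B i (G y i) = τ y i + G y i at e2
          rw [← e, e1] at e2
          exact add_right_cancel e2
        have h4 : bt n h (aOf n h x.2.1) (tOf n h x.2.2 x.1.1) (τ x i) =
            bt n h (aOf n h y.2.1) (tOf n h y.2.2 x.1.1) (τ x i) := by
          have : G y i = bt n h (aOf n h y.2.1) (tOf n h y.2.2 x.1.1) (τ x i) := by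
            rw [h3, hts]
          rw [← this]; exact e
        refine bt_ne hn hh (haO _) (haO _) ?_ ?_ (τ x i) h4
        · unfold tOf
          cases x.2.2 <;> cases y.2.2
          · left; rfl
          · right; rfl
          · right
            simp only [if_true]
            show x.1.1 = x.1.1 + (h : ZMod n) + h
            linear_combination -h2
          · left; rfl
        · rintro ⟨ha, ht⟩
          apply hne
          have hh0 := (nz_aux hn hh).1
          have hb : x.2.1 = y.2.1 := by
            unfold aOf at ha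
            revert ha
            cases x.2.1 <;> cases y.2.1 <;> intro ha <;> simp at ha ⊢ <;>
              first | exact hh0 ha | exact hh0 ha.symm
          have hb' : x.2.2 = y.2.2 := by
            unfold tOf at ht
            revert ht
            cases x.2.2 <;> cases y.2.2 <;> intro ht <;> simp at ht ⊢ <;> exact hh0 ht
          exact congrArg Sum.inl (Prod.ext hts (Prod.ext hb hb'))
      · exact hdisj x.1.1 x.1.2 y.1.1 y.1.2 (fun h => hts (Subtype.ext h)) _ hx hy
    · show G x i ≠ F l i
      intro e
      have hx := hvd x i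
      rw [e] at hx
      exact havoid l i x.1.1 x.1.2 hx
    · show F k i ≠ G y i
      intro e
      have hy := hvd y i
      rw [← e] at hy
      exact havoid k i y.1.1 y.1.2 hy
    · exact hdis k l (fun h => hne (by rw [h])) i

end Pool.Agent.Hhelper81.LT
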