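import Mathlib
import Pool.Agent.Hhelper81.LT.Cross
import Pool.Agent.Hhelper79.LT.Four

set_option autoImplicit false

/-!
Affine numbers `a + b q`, cyclic intervals, and piecewise functions given by lists.
-/

namespace Pool.Agent.Hhelper81.LT

open Finset Pool.Agent.Hhelper79.LT

/-- the affine number `a + b q` -/
structure Aff where
  a : ℕ
  b : ℕ

namespace Aff

/-- evaluation -/
def ev (x : Aff) (q : ℕ) : ℕ := x.a + x.b * q
/-- sum -/
def add (x y : Aff) : Aff := ⟨x.a + y.a, x.b + y.b⟩
/-- dominance -/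
def le (x y : Aff) : Bool := Nat.ble x.a y.a && Nat.ble x.b y.b
/-- strict dominance -/
def lt (x y : Aff) : Bool := Nat.ble (x.a + 1) y.a && Nat.ble x.b y.b
/-- equality -/
def eq (x y : Aff) : Bool := Nat.beq x.a y.a && Nat.beq x.b y.b
/-- different for all `q` -/
def ne (x y : Aff) : Bool := lt x y || lt y x
/-- one -/
def one : Aff := ⟨1, 0⟩

variable {x y : Aff} (q : ℕ)

@[simp] theorem ev_add : (add x y).ev q = x.ev q + y.ev q := by
  simp only [ev, add]; ring

@[simp] theorem ev_one : one.ev q = 1 := by simp [ev, one]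

theorem ev_mk (a : ℕ) : (⟨a, 0⟩ : Aff).ev q = a := by simp [ev]

theorem le_ev (h : le x y = true) : x.ev q ≤ y.ev q := by
  simp only [le, Bool.and_eq_true, Nat.ble_eq] at h
  unfold ev
  exact Nat.add_le_add h.1 (Nat.mul_le_mul_right q h.2)

theorem lt_ev (h : lt x y = true) : x.ev q < y.ev q := by
  simp only [lt, Bool.and_eq_true, Nat.ble_eq] at h
  unfold ev
  exact Nat.add_lt_add_of_lt_of_le h.1 (Nat.mul_le_mul_right q h.2)

theorem eq_ev (h : eq x y = true) : x.ev q = y.ev q := by
  simp only [eq, Bool.and_eq_true, Nat.beq_eq] at h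
  unfold ev
  rw [h.1, h.2]

theorem ne_ev (h : ne x y = true) : x.ev q ≠ y.ev q := by
  simp only [ne, Bool.or_eq_true] at h
  rcases h with h | h
  · exact (lt_ev q h).ne
  · exact (lt_ev q h).ne'

end Aff

open Aff

/-- the cyclic intervals `[c, c + l)` and `[c', c' + l')` are disjoint modulo `n` -/
def NC (n c l c' l' : ℕ) : Prop :=
  ∀ x x', x < l → x' < l' → ((c + x : ℕ) : ZMod n) ≠ ((c' + x' : ℕ) : ZMod n)

theorem NC.symm {n c l c' l' : ℕ} (h : NC n c l c' l') : NC n c' l' c l :=
  fun x x' hx hx' e => h x' x hx' hx e.symm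

theorem nc_aux {n c l c' l' : ℕ} (h1 : c + l ≤ c') (h2 : c' + l' ≤ c + n) :
    NC n c l c' l' := by
  intro x x' hx hx' e
  have h3 := (ZMod.natCast_eq_natCast_iff _ _ _).1 e
  have h4 := (Nat.modEq_iff_dvd' (by omega)).1 h3
  have h5 := Nat.le_of_dvd (by omega) h4
  omega

theorem NC.shift_left {n c l c' l' : ℕ} (h : NC n (c + n) l c' l') : NC n c l c' l' := by
  intro x x' hx hx' e
  refine h x x' hx hx' ?_
  rw [← e]; push_cast; simp

theorem NC.shift_right {n c l c' l' : ℕ} (h : NC n c l (c' + n) l') : NC n c l c' l' :=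
  (NC.shift_left h.symm).symm

/-- check for `NC` -/
def cd (n c l c' l' : Aff) : Bool :=
  (le (add c l) c' && le (add c' l') (add c n)) || (le (add c' l') c && le (add c l) (add c' n))

theorem cd_nc {n c l c' l' : Aff} (q : ℕ) (h : cd n c l c' l' = true) :
    NC (n.ev q) (c.ev q) (l.ev q) (c'.ev q) (l'.ev q) := by
  simp only [cd, Bool.or_eq_true, Bool.and_eq_true] at h
  rcases h with ⟨h1, h2⟩ | ⟨h1, h2⟩
  · have h1 := le_ev q h1
    have h2 := le_ev q h2
    simp only [ev_add] at h1 h2
    exact nc_aux h1 h2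
  · have h1 := le_ev q h1
    have h2 := le_ev q h2
    simp only [ev_add] at h1 h2
    exact (nc_aux h1 h2).symm

/-- check for `NC`, with one wrap -/
def cdz (n c l c' l' : Aff) : Bool :=
  cd n c l c' l' || cd n (add c n) l c' l' || cd n c l (add c' n) l'

theorem cdz_nc {n c l c' l' : Aff} (q : ℕ) (h : cdz n c l c' l' = true) :
    NC (n.ev q) (c.ev q) (l.ev q) (c'.ev q) (l'.ev q) := by
  simp only [cdz, Bool.or_eq_true] at h
  rcases h with (h | h) | h
  · exact cd_nc q h
  · have := cd_nc q h
    simp only [ev_add] at this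
    exact this.shift_left
  · have := cd_nc q h
    simp only [ev_add] at this
    exact this.shift_right

section Find

variable {α : Type} (r l : α → ℕ) (d : α)

/-- the entry of the list whose interval contains `x` -/
def fnd : List α → ℕ → α
  | [], _ => d
  | s :: t, x => if x < r s + l s then s else fnd t x

/-- the intervals tile `[a, e)` -/
def Ch : ℕ → List α → ℕ → Prop
  | a, [], e => a = e
  | a, s :: t, e => r s = a ∧ Ch (a + l s) t e

variable {r l d}

theorem Ch.le {a : ℕ} {L : List α} {e : ℕ} (h : Ch r l a L e) : a ≤ e := by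
  induction L generalizing a with
  | nil => exact le_of_eq h
  | cons s t ih => exact le_trans (Nat.le_add_right _ _) (ih h.2)

theorem Ch.mem {a : ℕ} {L : List α} {e : ℕ} (h : Ch r l a L e) {z : α} (hz : z ∈ L) :
    a ≤ r z ∧ r z + l z ≤ e := by
  induction L generalizing a with
  | nil => exact absurd hz (by simp)
  | cons s t ih =>
    rcases List.mem_cons.1 hz with rfl | hz
    · have := h.2.le
      have := h.1
      omega
    · have := ih h.2 hz
      omega

theorem fnd_spec {a : ℕ} {L : List α} {e x : ℕ} (h : Ch r l a L e) (hx : a ≤ x) (hx' : x < e) :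
    fnd r l d L x ∈ L ∧ r (fnd r l d L x) ≤ x ∧ x < r (fnd r l d L x) + l (fnd r l d L x) := by
  induction L generalizing a with
  | nil =>
    have : a = e := h
    omega
  | cons s t ih =>
    have h1 := h.1
    unfold fnd
    split_ifs with hc
    · exact ⟨List.mem_cons_self, by omega, hc⟩
    · obtain ⟨i1, i2, i3⟩ := ih h.2 (by omega)
      exact ⟨List.mem_cons_of_mem _ i1, i2, i3⟩

theorem fnd_eq {a : ℕ} {L : List α} {e x : ℕ} (h : Ch r l a L e) {z : α} (hz : z ∈ L)
    (h1 : r z ≤ x) (h2 : x < r z + l z) : fnd r l d L x = z := by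
  induction L generalizing a with
  | nil => exact absurd hz (by simp)
  | cons s t ih =>
    unfold fnd
    have h3 := h.1
    rcases List.mem_cons.1 hz with rfl | hz
    · rw [if_pos h2]
    · have h4 := (h.2.mem hz).1
      rw [if_neg (by omega)]
      exact ih h.2 hz

theorem fnd_inj {c : α → ℕ} {L : List α} {n : ℕ} (hch : Ch r l 0 L n)
    (hp : L.Pairwise (fun s s' => NC n (c s) (l s) (c s') (l s'))) {x y : ℕ} (hx : x < n)
    (hy : y < n)
    (e : ((c (fnd r l d L x) + (x - r (fnd r l d L x)) : ℕ) : ZMod n) =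
      ((c (fnd r l d L y) + (y - r (fnd r l d L y)) : ℕ) : ZMod n)) : x = y := by
  obtain ⟨a1, a2, a3⟩ := fnd_spec (d := d) hch (Nat.zero_le _) hx
  obtain ⟨b1, b2, b3⟩ := fnd_spec (d := d) hch (Nat.zero_le _) hy
  generalize fnd r l d L x = s at *
  generalize fnd r l d L y = s' at *
  by_cases hs : s = s'
  · subst hs
    push_cast at e
    have e2 := add_left_cancel e
    have e3 := natCast_inj_of_lt (by omega) (by omega) e2
    omega
  · exfalso
    have hsym : Std.Symm (fun s s' => NC n (c s) (l s) (c s') (l s')) :=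
      ⟨fun _ _ h => NC.symm h⟩
    exact (hp.forall a1 b1 hs) _ _ (by omega) (by omega) e

theorem fnd_inj2 {y e : α → ℕ} {L : List α} {n h : ℕ} (hn : n = 2 * h) (hch : Ch r l 0 L n)
    (he : ∀ s ∈ L, e s ≤ 1) (hl : ∀ s ∈ L, l s ≤ h)
    (hp : L.Pairwise (fun s s' => e s ≠ e s' ∨ NC h (y s) (l s) (y s') (l s'))) {x x' : ℕ}
    (hx : x < n) (hx' : x' < n)
    (E : ((e (fnd r l d L x) + 2 * (y (fnd r l d L x) + (x - r (fnd r l d L x))) : ℕ) : ZMod n) =
      ((e (fnd r l d L x') + 2 * (y (fnd r l d L x') + (x' - r (fnd r l d L x'))) : ℕ) :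
        ZMod n)) : x = x' := by
  obtain ⟨a1, a2, a3⟩ := fnd_spec (d := d) hch (Nat.zero_le _) hx
  obtain ⟨b1, b2, b3⟩ := fnd_spec (d := d) hch (Nat.zero_le _) hx'
  generalize fnd r l d L x = s at *
  generalize fnd r l d L x' = s' at *
  have h1 := (ZMod.natCast_eq_natCast_iff _ _ _).1 E
  have h2 : (e s + 2 * (y s + (x - r s))) % 2 = (e s' + 2 * (y s' + (x' - r s'))) % 2 :=
    Nat.ModEq.of_dvd ⟨h, hn⟩ h1
  have e1 := he s a1
  have e2 := he s' b1
  have h3 : e s = e s' := by omega
  rw [h3] at h1
  have h4 := Nat.ModEq.add_left_cancel' _ h1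
  rw [hn] at h4
  have h5 := Nat.ModEq.mul_left_cancel' (by norm_num) h4
  by_cases hs : s = s'
  · subst hs
    have h6 := Nat.ModEq.add_left_cancel' _ h5
    have h7 := hl s a1
    have h8 : x - r s = x' - r s := Nat.ModEq.eq_of_lt_of_lt h6 (by omega) (by omega)
    omega
  · exfalso
    have hsym : Std.Symm (fun s s' => e s ≠ e s' ∨ NC h (y s) (l s) (y s') (l s')) := by
      refine ⟨?_⟩
      rintro _ _ (h | h)
      · exact Or.inl (Ne.symm h)
      · exact Or.inr (NC.symm h)
    rcases hp.forall a1 b1 hs with h6 | h6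
    · exact h6 h3
    · exact h6 _ _ (by omega) (by omega) ((ZMod.natCast_eq_natCast_iff _ _ _).2 h5)

end Find

/-- chain check -/
def chA {α : Type} (r l : α → Aff) : Aff → List α → Aff → Bool
  | a, [], e => Aff.eq a e
  | a, s :: t, e => Aff.eq (r s) a && chA r l (add a (l s)) t e

theorem chA_ch {α : Type} {r l : α → Aff} (q : ℕ) {a e : Aff} {L : List α}
    (h : chA r l a L e = true) :
    Ch (fun s => (r s).ev q) (fun s => (l s).ev q) (a.ev q) L (e.ev q) := by
  induction L generalizing a with
  | nil => exact eq_ev q h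
  | cons s t ih =>
    simp only [chA, Bool.and_eq_true] at h
    refine ⟨eq_ev q h.1, ?_⟩
    have := ih h.2
    simpa only [ev_add] using this

/-- all pairs -/
def pairAll {α : Type} (R : α → α → Bool) : List α → Bool
  | [] => true
  | a :: t => t.all (R a) && pairAll R t

theorem pairAll_pairwise {α : Type} {R : α → α → Bool} {L : List α} (h : pairAll R L = true) :
    L.Pairwise (fun a b => R a b = true) := by
  induction L with
  | nil => exact List.Pairwise.nil
  | cons a t ih =>
    simp only [pairAll, Bool.and_eq_true, List.all_eq_true] at h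
    exact List.Pairwise.cons h.1 (ih h.2)

/-- all corresponding entries -/
def zipAll {α : Type} (R : α → α → Bool) : List α → List α → Bool
  | [], [] => true
  | a :: s, b :: t => R a b && zipAll R s t
  | _, _ => false

theorem zipAll_getD {α : Type} {R : α → α → Bool} {s t : List α} (h : zipAll R s t = true)
    (d : α) {k : ℕ} (hk : k < s.length) : R (s.getD k d) (t.getD k d) = true := by
  induction s generalizing t k with
  | nil => simp at hk
  | cons a s ih =>
    cases t with
    | nil => simp [zipAll] at h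
    | cons b t =>
      simp only [zipAll, Bool.and_eq_true] at h
      cases k with
      | zero => simpa using h.1
      | succ k =>
        simp only [List.getD_cons_succ]
        exact ih h.2 (by simpa using hk)

end Pool.Agent.Hhelper81.LT
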