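import Mathlib
import Pool.Agent.Hhelper81.LT.Aff

set_option autoImplicit false

/-!
Certificates: the square with four special rows given by zones of columns.
-/

namespace Pool.Agent.Hhelper81.LT

open Finset Pool.Agent.Hhelper79.LT Aff

/-- a zone of columns `[s, s + l)`, where special row number `j` carries the symbols of the
special row number `p j` of the cyclic square -/
structure Zone where
  s : Aff
  l : Aff
  p0 : ℕ
  p1 : ℕ
  p2 : ℕ
  p3 : ℕ

/-- the permutation of a zone -/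
def Zone.p (z : Zone) : ℕ → ℕ
  | 0 => z.p0
  | 1 => z.p1
  | 2 => z.p2
  | _ => z.p3

/-- a cell of a transversal on an interval of rows: first column `c`, and the symbols are
`e + 2 y, e + 2 y + 2, …` -/
structure Cell where
  c : Aff
  e : ℕ
  y : Aff

/-- an interval of rows `[r, r + l)` of kind `k`: `0` regular, `1, …, 4` special row,
`5, 6` rows `h - 1`, `n - 1` -/
structure Row where
  r : Aff
  l : Aff
  k : ℕ
  cs : List Cell

/-- the data of a family -/
structure Dat where
  N : Aff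
  H : Aff
  R0 : Aff
  R1 : Aff
  R2 : Aff
  R3 : Aff
  zs : List Zone
  h0 : List (ℕ × Aff)
  rr : ℕ
  lo1 : Aff
  m1 : Aff
  lo2 : Aff
  m2 : Aff
  W : List Aff
  U : List Aff
  rows : List Row

namespace Dat

variable (D : Dat) (q : ℕ)

/-- the special rows -/
def R : ℕ → Aff
  | 0 => D.R0
  | 1 => D.R1
  | 2 => D.R2
  | _ => D.R3

/-- default zone -/
def dz : Zone := ⟨⟨0, 0⟩, ⟨0, 0⟩, 0, 1, 2, 3⟩

/-- default cell -/
def dc : Cell := ⟨⟨0, 0⟩, 0, ⟨0, 0⟩⟩

/-- default row -/
def dr : Row := ⟨⟨0, 0⟩, ⟨0, 0⟩, 0, []⟩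

/-- the zone of a column -/
def zone (x : ℕ) : Zone := fnd (fun z : Zone => z.s.ev q) (fun z => z.l.ev q) dz D.zs x

/-- the virtual row of a cell: the symbol is the column plus the virtual row -/
def vr (i x : ℕ) : ℕ :=
  if i = (D.R 0).ev q then (D.R ((D.zone q x).p 0)).ev q else
  if i = (D.R 1).ev q then (D.R ((D.zone q x).p 1)).ev q else
  if i = (D.R 2).ev q then (D.R ((D.zone q x).p 2)).ev q else
  if i = (D.R 3).ev q then (D.R ((D.zone q x).p 3)).ev q else i

/-- the order -/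
abbrev n : ℕ := D.N.ev q
/-- half of the order -/
abbrev h : ℕ := D.H.ev q

/-- the base square -/
def B (i c : ZMod (D.n q)) : ZMod (D.n q) := c + (D.vr q i.val c.val : ℕ)

/-- number of window transversals -/
def M : ℕ := 4 * D.U.length + D.rr

/-- the zone permutation is a permutation -/
def permOK (z : Zone) : Bool :=
  Nat.ble z.p0 3 && Nat.ble z.p1 3 && Nat.ble z.p2 3 && Nat.ble z.p3 3 &&
  !(Nat.beq z.p0 z.p1) && !(Nat.beq z.p0 z.p2) && !(Nat.beq z.p0 z.p3) &&
  !(Nat.beq z.p1 z.p2) && !(Nat.beq z.p1 z.p3) && !(Nat.beq z.p2 z.p3)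

/-- check of the base square -/
def chkBase : Bool :=
  Aff.eq D.N (add D.H D.H) && le ⟨2, 0⟩ D.H && Aff.eq D.R1 (add D.R0 one) &&
  Aff.eq D.R3 (add D.R2 one) && lt D.R1 D.R2 && lt (add D.R3 one) D.H &&
  chA (fun z : Zone => z.s) (fun z => z.l) ⟨0, 0⟩ D.zs D.N &&
  D.zs.all permOK &&
  (List.range 4).all (fun j => pairAll (fun z z' : Zone =>
    cdz D.N (add z.s (D.R (z.p j))) z.l (add z'.s (D.R (z'.p j))) z'.l) D.zs)

/-- the meaning of `chkBase` -/
structure Basic : Prop where
  hn : D.n q = 2 * D.h q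
  hh : 2 ≤ D.h q
  r1 : (D.R 1).ev q = (D.R 0).ev q + 1
  r3 : (D.R 3).ev q = (D.R 2).ev q + 1
  r12 : (D.R 1).ev q < (D.R 2).ev q
  r3h : (D.R 3).ev q + 1 < D.h q
  zch : Ch (fun z : Zone => z.s.ev q) (fun z => z.l.ev q) 0 D.zs (D.n q)
  zp : ∀ z ∈ D.zs, permOK z = true
  zl : ∀ j < 4, D.zs.Pairwise (fun z z' : Zone =>
    NC (D.n q) (z.s.ev q + (D.R (z.p j)).ev q) (z.l.ev q)
      (z'.s.ev q + (D.R (z'.p j)).ev q) (z'.l.ev q))

variable {D q}

theorem basic_of_chk (hc : D.chkBase = true) : D.Basic q := by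
  simp only [chkBase, Bool.and_eq_true] at hc
  obtain ⟨⟨⟨⟨⟨⟨⟨⟨h1, h2⟩, h3⟩, h4⟩, h5⟩, h6⟩, h7⟩, h8⟩, h9⟩ := hc
  refine ⟨?_, ?_, ?_, ?_, ?_, ?_, ?_, ?_, ?_⟩
  · have := eq_ev q h1
    rw [ev_add] at this
    show D.N.ev q = 2 * D.H.ev q
    omega
  · have := le_ev q h2
    rw [ev_mk] at this
    exact this
  · have := eq_ev q h3
    rw [ev_add, ev_one] at this
    exact this
  · have := eq_ev q h4
    rw [ev_add, ev_one] at this
    exact this
  · exact lt_ev q h5
  · have := lt_ev q h6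
    rw [ev_add, ev_one] at this
    exact this
  · have := chA_ch q h7
    rw [ev_mk] at this
    exact this
  · exact fun z hz => List.all_eq_true.1 h8 z hz
  · intro j hj
    have h10 := List.all_eq_true.1 h9 j (List.mem_range.2 hj)
    refine (pairAll_pairwise h10).imp ?_
    intro z z' hz
    have := cdz_nc q hz
    simpa only [ev_add] using this

namespace Basic

variable (hb : D.Basic q)
include hb

theorem pos : 0 < D.n q := by have := hb.hn; have := hb.hh; omega

theorem neZero : NeZero (D.n q) := ⟨hb.pos.ne'⟩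

theorem zone_mem {x : ℕ} (hx : x < D.n q) : D.zone q x ∈ D.zs :=
  (fnd_spec (d := dz) hb.zch (Nat.zero_le _) hx).1

/-- values of `D.R` are among the four special rows, injectively -/
theorem R_inj {a b : ℕ} (ha : a ≤ 3) (hb' : b ≤ 3) (h : (D.R a).ev q = (D.R b).ev q) : a = b := by
  have h1 := hb.r1
  have h2 := hb.r3
  have h3 := hb.r12
  interval_cases a <;> interval_cases b <;> first | rfl | omega

theorem R_lt {a : ℕ} : (D.R a).ev q + 1 < D.h q := by
  have h1 := hb.r1
  have h2 := hb.r3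
  have h3 := hb.r12
  have h4 := hb.r3h
  match a with
  | 0 => omega
  | 1 => omega
  | 2 => omega
  | (a + 3) =>
    show (D.R 3).ev q + 1 < D.h q
    exact h4

omit hb in
theorem R_cases (a : ℕ) : (D.R a).ev q = (D.R 0).ev q ∨ (D.R a).ev q = (D.R 1).ev q ∨
    (D.R a).ev q = (D.R 2).ev q ∨ (D.R a).ev q = (D.R 3).ev q := by
  match a with
  | 0 => exact Or.inl rfl
  | 1 => exact Or.inr (Or.inl rfl)
  | 2 => exact Or.inr (Or.inr (Or.inl rfl))
  | (a + 3) => exact Or.inr (Or.inr (Or.inr rfl))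

theorem R_ne {a b : ℕ} (ha : a ≤ 3) (hb' : b ≤ 3) (h : a ≠ b) : (D.R a).ev q ≠ (D.R b).ev q :=
  fun e => h (hb.R_inj ha hb' e)

theorem vr_R {j x : ℕ} (hj : j ≤ 3) :
    D.vr q ((D.R j).ev q) x = (D.R ((D.zone q x).p j)).ev q := by
  unfold vr
  interval_cases j
  · rw [if_pos rfl]
  · rw [if_neg (hb.R_ne (by norm_num) (by norm_num) (by norm_num)), if_pos rfl]
  · rw [if_neg (hb.R_ne (by norm_num) (by norm_num) (by norm_num)),
      if_neg (hb.R_ne (by norm_num) (by norm_num) (by norm_num)), if_pos rfl]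
  · rw [if_neg (hb.R_ne (by norm_num) (by norm_num) (by norm_num)),
      if_neg (hb.R_ne (by norm_num) (by norm_num) (by norm_num)),
      if_neg (hb.R_ne (by norm_num) (by norm_num) (by norm_num)), if_pos rfl]

theorem vr_reg {i x : ℕ} (hi : ∀ j ≤ 3, i ≠ (D.R j).ev q) : D.vr q i x = i := by
  have _ := hb
  unfold vr
  rw [if_neg (hi 0 (by norm_num)), if_neg (hi 1 (by norm_num)), if_neg (hi 2 (by norm_num)),
    if_neg (hi 3 (by norm_num))]

theorem p_le {z : Zone} (hz : z ∈ D.zs) (j : ℕ) : z.p j ≤ 3 := by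
  have h1 := hb.zp z hz
  simp only [permOK, Bool.and_eq_true, Nat.ble_eq] at h1
  match j with
  | 0 => exact h1.1.1.1.1.1.1.1.1.1
  | 1 => exact h1.1.1.1.1.1.1.1.1.2
  | 2 => exact h1.1.1.1.1.1.1.1.2
  | (j + 3) => exact h1.1.1.1.1.1.1.2

theorem p_inj {z : Zone} (hz : z ∈ D.zs) {a b : ℕ} (ha : a ≤ 3) (hb' : b ≤ 3)
    (h : z.p a = z.p b) : a = b := by
  have h1 := hb.zp z hz
  simp only [permOK, Bool.and_eq_true, Bool.not_eq_true', Nat.ble_eq] at h1
  obtain ⟨⟨⟨⟨⟨⟨_, h01⟩, h02⟩, h03⟩, h12⟩, h13⟩, h23⟩ := h1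
  have k : ∀ {a b : ℕ}, Nat.beq a b = false → a ≠ b := by
    intro a b hab e
    subst e
    rw [Nat.beq_refl] at hab
    exact Bool.noConfusion hab
  have h01 := k h01
  have h02 := k h02
  have h03 := k h03
  have h12 := k h12
  have h13 := k h13
  have h23 := k h23
  interval_cases a <;> interval_cases b <;> simp only [Zone.p] at h <;> first | rfl | omega

theorem latin : IsLatin (D.B q) := by
  have hne := hb.neZero
  constructor
  · intro i c c' e
    have hc := ZMod.val_lt c
    have hc' := ZMod.val_lt c'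
    by_cases hi : ∃ j ≤ 3, i.val = (D.R j).ev q
    · obtain ⟨j, hj, hij⟩ := hi
      unfold B at e
      rw [hij, hb.vr_R hj, hb.vr_R hj] at e
      have key : ∀ c : ZMod (D.n q), c + (((D.R ((D.zone q c.val).p j)).ev q : ℕ) :
          ZMod (D.n q)) = ((((D.zone q c.val).s.ev q + (D.R ((D.zone q c.val).p j)).ev q) +
          (c.val - (D.zone q c.val).s.ev q) : ℕ) : ZMod (D.n q)) := by
        intro c
        have h1 := (fnd_spec (d := dz) hb.zch (Nat.zero_le _) (ZMod.val_lt c)).2.1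
        change (D.zone q c.val).s.ev q ≤ c.val at h1
        have h2 : c = ((c.val : ℕ) : ZMod (D.n q)) := by simp
        have h3 : (D.zone q c.val).s.ev q + (D.R ((D.zone q c.val).p j)).ev q +
          (c.val - (D.zone q c.val).s.ev q) = c.val + (D.R ((D.zone q c.val).p j)).ev q := by
          omega
        rw [h3]
        push_cast
        simp
      rw [key, key] at e
      have := fnd_inj (c := fun z : Zone => z.s.ev q + (D.R (z.p j)).ev q) (d := dz) hb.zch
        (hb.zl j (by omega)) hc hc' e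
      exact ZMod.val_injective _ this
    · push Not at hi
      unfold B at e
      rw [hb.vr_reg hi, hb.vr_reg hi] at e
      exact add_right_cancel e
  · intro c i i' e
    have hi := ZMod.val_lt i
    have hi' := ZMod.val_lt i'
    have hc := ZMod.val_lt c
    have e1 : ((D.vr q i.val c.val : ℕ) : ZMod (D.n q)) = (D.vr q i'.val c.val : ℕ) :=
      add_left_cancel e
    have hlt : ∀ i : ZMod (D.n q), D.vr q i.val c.val < D.n q := by
      intro i
      by_cases hi : ∃ j ≤ 3, i.val = (D.R j).ev q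
      · obtain ⟨j, hj, hij⟩ := hi
        rw [hij, hb.vr_R hj]
        have := hb.R_lt (a := (D.zone q c.val).p j)
        have := hb.hn
        omega
      · push Not at hi
        rw [hb.vr_reg hi]
        exact ZMod.val_lt i
    have e2 := natCast_inj_of_lt (hlt i) (hlt i') e1
    apply ZMod.val_injective
    have hz := hb.zone_mem hc
    by_cases hi : ∃ j ≤ 3, i.val = (D.R j).ev q
    · obtain ⟨j, hj, hij⟩ := hi
      by_cases hi' : ∃ j ≤ 3, i'.val = (D.R j).ev q
      · obtain ⟨j', hj', hij'⟩ := hi'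
        rw [hij, hij', hb.vr_R hj, hb.vr_R hj'] at e2
        have e3 := hb.R_inj (hb.p_le hz j) (hb.p_le hz j') e2
        have e4 := hb.p_inj hz hj hj' e3
        rw [hij, hij', e4]
      · push Not at hi'
        rw [hij, hb.vr_R hj, hb.vr_reg hi'] at e2
        exact absurd e2.symm (hi' _ (hb.p_le hz j))
    · push Not at hi
      by_cases hi' : ∃ j ≤ 3, i'.val = (D.R j).ev q
      · obtain ⟨j', hj', hij'⟩ := hi'
        rw [hij', hb.vr_R hj', hb.vr_reg hi] at e2
        exact absurd e2 (hi _ (hb.p_le hz j'))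
      · push Not at hi'
        rwa [hb.vr_reg hi, hb.vr_reg hi'] at e2

end Basic

end Dat

end Pool.Agent.Hhelper81.LT
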