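import Mathlib
import Pool.Agent.Hhelper81.LT.Dat

set_option autoImplicit false

/-!
Certificates: the hitting set of the base square.
-/

namespace Pool.Agent.Hhelper81.LT

open Finset Pool.Agent.Hhelper79.LT Aff

namespace Aff

/-- multiple -/
def sm (w : ℕ) (x : Aff) : Aff := ⟨w * x.a, w * x.b⟩

@[simp] theorem ev_sm (w : ℕ) (x : Aff) (q : ℕ) : (sm w x).ev q = w * x.ev q := by
  simp only [ev, sm]; ring

end Aff

namespace Dat

variable (D : Dat) (q : ℕ)

/-- the cell of row number `j` in a zone is in the hitting set -/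
def flag (z : Zone) (j : ℕ) : Bool :=
  Aff.eq z.l one && D.h0.any (fun x => Nat.beq x.1 j && Aff.eq x.2 z.s)

/-- the values of `p j` on unflagged zones -/
def vals (j : ℕ) : List ℕ :=
  [0, 1, 2, 3].filter (fun v => D.zs.any (fun z => !(D.flag z j) && Nat.beq (z.p j) v))

/-- no transversal avoids the hitting set -/
def chkHits : Bool :=
  Nat.ble D.h0.length D.rr && D.h0.all (fun x => Nat.ble x.1 3) &&
  (D.vals 0).all fun v0 => (D.vals 1).all fun v1 => (D.vals 2).all fun v2 =>
    (D.vals 3).all fun v3 => (List.range 3).all fun w =>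
      Aff.ne (add (add (D.R v0) (D.R v1)) (add (D.R v2) (D.R v3)))
        (add (add (add D.H (D.R 0)) (add (D.R 1) (add (D.R 2) (D.R 3)))) (sm w D.N)) &&
      Aff.ne (add (add (add (D.R v0) (D.R v1)) (add (D.R v2) (D.R v3))) (sm w D.N))
        (add (add D.H (D.R 0)) (add (D.R 1) (add (D.R 2) (D.R 3))))

open Classical in
/-- the hitting set of the base square -/
noncomputable def H0 : Finset (ZMod (D.n q) × ZMod (D.n q)) :=
  (D.h0.map (fun x => ((((D.R x.1).ev q : ℕ) : ZMod (D.n q)),
    ((x.2.ev q : ℕ) : ZMod (D.n q))))).toFinset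

variable {D q}

theorem H0_card (hc : D.chkHits = true) : (D.H0 q).card ≤ D.rr := by
  classical
  simp only [chkHits, Bool.and_eq_true, Nat.ble_eq] at hc
  refine le_trans ?_ hc.1.1
  unfold H0
  refine (List.toFinset_card_le _).trans ?_
  rw [List.length_map]

theorem mod_aux {n A C : ℕ} (hA : A < 3 * n) (hC : C < 3 * n)
    (h : (A : ZMod n) = (C : ZMod n)) :
    ∃ w < 3, A = C + w * n ∨ A + w * n = C := by
  have h1 := (ZMod.natCast_eq_natCast_iff _ _ _).1 h
  rcases Nat.le_total A C with hle | hle
  · obtain ⟨k, hk⟩ := (Nat.modEq_iff_dvd' hle).1 h1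
    refine ⟨k, ?_, Or.inr ?_⟩
    · by_contra hk3
      have : n * 3 ≤ n * k := Nat.mul_le_mul_left n (by omega)
      omega
    · rw [Nat.mul_comm k n]; omega
  · obtain ⟨k, hk⟩ := (Nat.modEq_iff_dvd' hle).1 h1.symm
    refine ⟨k, ?_, Or.inl ?_⟩
    · by_contra hk3
      have : n * 3 ≤ n * k := Nat.mul_le_mul_left n (by omega)
      omega
    · rw [Nat.mul_comm k n]; omega

theorem hits (hb : D.Basic q) (hc : D.chkHits = true) : Hits (D.B q) (D.H0 q) := by
  classical
  have hne := hb.neZero
  intro f hf
  by_contra hno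
  push Not at hno
  have hsum := delta_sum hb.hn hf
  -- the four special rows
  have hval : ∀ j, (((D.R j).ev q : ℕ) : ZMod (D.n q)).val = (D.R j).ev q := by
    intro j
    have h1 := hb.R_lt (a := j)
    have h2 := hb.hn
    rw [ZMod.val_natCast, Nat.mod_eq_of_lt (by omega)]
  set a : ℕ → ZMod (D.n q) := fun j => (((D.R j).ev q : ℕ) : ZMod (D.n q)) with ha
  have hane : ∀ i j, i ≤ 3 → j ≤ 3 → i ≠ j → a i ≠ a j := by
    intro i j hi hj hij e
    have h3 : (a i).val = (a j).val := by rw [e]
    rw [hval, hval] at h3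
    exact hij (hb.R_inj hi hj h3)
  -- the summands
  have hg : ∀ i, D.B q i (f i) - i - f i = ((D.vr q i.val (f i).val : ℕ) : ZMod (D.n q)) - i := by
    intro i
    unfold B
    ring
  simp only [hg] at hsum
  have h0 : ∀ i ∈ (Finset.univ : Finset (ZMod (D.n q))), i ∉ ({a 0, a 1, a 2, a 3} :
      Finset (ZMod (D.n q))) → ((D.vr q i.val (f i).val : ℕ) : ZMod (D.n q)) - i = 0 := by
    intro i _ hi
    have hi' : ∀ j ≤ 3, i.val ≠ (D.R j).ev q := by
      intro j hj e
      apply hi
      have e2 : i = a j := by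
        apply ZMod.val_injective
        rw [e, hval]
      rw [e2]
      interval_cases j <;> simp
    rw [hb.vr_reg hi']
    simp
  rw [← Finset.sum_subset (Finset.subset_univ _) h0] at hsum
  rw [Finset.sum_insert (by
      simp only [Finset.mem_insert, Finset.mem_singleton, not_or]
      exact ⟨hane 0 1 (by norm_num) (by norm_num) (by norm_num),
        hane 0 2 (by norm_num) (by norm_num) (by norm_num),
        hane 0 3 (by norm_num) (by norm_num) (by norm_num)⟩),
    Finset.sum_insert (by
      simp only [Finset.mem_insert, Finset.mem_singleton, not_or]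
      exact ⟨hane 1 2 (by norm_num) (by norm_num) (by norm_num),
        hane 1 3 (by norm_num) (by norm_num) (by norm_num)⟩),
    Finset.sum_insert (by
      simp only [Finset.mem_singleton]
      exact hane 2 3 (by norm_num) (by norm_num) (by norm_num)),
    Finset.sum_singleton] at hsum
  -- the values in the special rows
  have hv : ∀ j ≤ 3, D.vr q (a j).val (f (a j)).val =
      (D.R ((D.zone q (f (a j)).val).p j)).ev q := by
    intro j hj
    rw [hval, hb.vr_R hj]
  rw [hv 0 (by norm_num), hv 1 (by norm_num), hv 2 (by norm_num), hv 3 (by norm_num)] at hsum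
  have hmem : ∀ j ≤ 3, (D.zone q (f (a j)).val).p j ∈ D.vals j := by
    intro j hj
    have hlt := ZMod.val_lt (f (a j))
    have hz := hb.zone_mem hlt
    have hp := hb.p_le hz j
    unfold vals
    rw [List.mem_filter]
    constructor
    · generalize (D.zone q (f (a j)).val).p j = v at hp
      interval_cases v <;> simp
    · rw [List.any_eq_true]
      refine ⟨_, hz, ?_⟩
      rw [Nat.beq_refl, Bool.and_true, Bool.not_eq_true']
      by_contra hfl
      rw [Bool.not_eq_false] at hfl
      simp only [flag, Bool.and_eq_true, List.any_eq_true, Nat.beq_eq] at hfl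
      obtain ⟨hl, x, hx, hx1, hx2⟩ := hfl
      have hl := eq_ev q hl
      rw [ev_one] at hl
      have hx2 := eq_ev q hx2
      have hsp := fnd_spec (d := dz) hb.zch (Nat.zero_le _) hlt
      have h5 : (f (a j)).val = (D.zone q (f (a j)).val).s.ev q := by
        have h6 := hsp.2.1
        have h7 := hsp.2.2
        change (D.zone q (f (a j)).val).s.ev q ≤ (f (a j)).val at h6
        change (f (a j)).val < (D.zone q (f (a j)).val).s.ev q +
          (D.zone q (f (a j)).val).l.ev q at h7
        omega
      refine hno (a j) ?_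
      unfold H0
      rw [List.mem_toFinset, List.mem_map]
      refine ⟨x, hx, ?_⟩
      rw [hx1, hx2, ← h5]
      simp [ha]
  simp only [chkHits, Bool.and_eq_true, List.all_eq_true] at hc
  have key := hc.2 _ (hmem 0 (by norm_num)) _ (hmem 1 (by norm_num)) _ (hmem 2 (by norm_num)) _
    (hmem 3 (by norm_num))
  generalize (D.zone q (f (a 0)).val).p 0 = v0 at *
  generalize (D.zone q (f (a 1)).val).p 1 = v1 at *
  generalize (D.zone q (f (a 2)).val).p 2 = v2 at *
  generalize (D.zone q (f (a 3)).val).p 3 = v3 at *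
  have r0 := hb.R_lt (a := v0)
  have r1 := hb.R_lt (a := v1)
  have r2 := hb.R_lt (a := v2)
  have r3 := hb.R_lt (a := v3)
  have s0 := hb.R_lt (a := 0)
  have s1 := hb.R_lt (a := 1)
  have s2 := hb.R_lt (a := 2)
  have s3 := hb.R_lt (a := 3)
  have hn := hb.hn
  have e1 : ((((D.R v0).ev q + (D.R v1).ev q) + ((D.R v2).ev q + (D.R v3).ev q) : ℕ) :
      ZMod (D.n q)) = (((D.H.ev q + (D.R 0).ev q) + ((D.R 1).ev q + ((D.R 2).ev q +
      (D.R 3).ev q)) : ℕ) : ZMod (D.n q)) := by
    push_cast
    linear_combination hsum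
  obtain ⟨w, hw, hw2⟩ := mod_aux (by
    change _ < 3 * D.n q
    omega) (by
    have hH : D.H.ev q = D.h q := rfl
    rw [hH]
    omega) e1
  have k := key w (List.mem_range.2 hw)
  have k1 := ne_ev q k.1
  have k2 := ne_ev q k.2
  simp only [ev_add, ev_sm] at k1 k2
  rcases hw2 with hw2 | hw2
  · exact k1 hw2
  · exact k2 hw2

end Dat

end Pool.Agent.Hhelper81.LT
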