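import Mathlib
import Pool.Agent.Hhelper81.LT.DatHits

set_option autoImplicit false

/-!
Certificates: the regular blocks.
-/

namespace Pool.Agent.Hhelper81.LT

open Finset Pool.Agent.Hhelper79.LT Aff

theorem tcol_iff {n h : ℕ} [NeZero n] (hn : n = 2 * h) {S : Finset ℕ} (hS : ∀ u ∈ S, u < h)
    (x : ZMod n) : TCol h (castSet n S) x ↔ x.val % h ∈ S := by
  unfold TCol castSet
  simp only [Finset.mem_image]
  constructor
  · rintro (⟨u, hu, e⟩ | ⟨u, hu, e⟩)
    · have := (eq_or_add_h_iff hn u x).1 (Or.inl e.symm)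
      rw [this, Nat.mod_eq_of_lt (hS u hu)]
      exact hu
    · have := (eq_or_add_h_iff hn u x).1 (Or.inr (by rw [e]; ring))
      rw [this, Nat.mod_eq_of_lt (hS u hu)]
      exact hu
  · intro hx
    have h1 := (eq_or_add_h_iff hn (x.val % h) x).2 (by rw [Nat.mod_mod])
    rcases h1 with h1 | h1
    · exact Or.inl ⟨_, hx, h1.symm⟩
    · exact Or.inr ⟨_, hx, by rw [eq_sub_iff_add_eq]; exact h1.symm⟩

namespace Dat

variable (D : Dat) (q : ℕ)

/-- zero check -/
def isz (m : Aff) : Bool := Aff.eq m ⟨0, 0⟩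

/-- outside of the blocks -/
def outT (k : Aff) : Bool :=
  lt k D.lo1 || (le (add D.lo1 (sm 2 D.m1)) k && lt k D.lo2) || le (add D.lo2 (sm 2 D.m2)) k

/-- the pair of rows `k, k + 1` is straight on the diagonals `[x, x + l)` -/
def straight (k : ℕ) (x l : Aff) : Bool :=
  D.zs.all fun z =>
    (Nat.beq (z.p k) k || cdz D.N z.s z.l (add (D.R k) x) l) &&
    (Nat.beq (z.p (k + 1)) (k + 1) || cdz D.N z.s z.l (add (D.R (k + 1)) x) l)

/-- the pair of rows `k, k + 1` is crossed on the diagonals `[x, x + l)` -/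
def crossed (k : ℕ) (x l : Aff) : Bool :=
  D.zs.all fun z =>
    (Nat.beq (z.p k) (k + 1) || cdz D.N z.s z.l (add (D.R (k + 1)) x) l) &&
    (Nat.beq (z.p (k + 1)) k || cdz D.N z.s z.l (add (D.R k) x) l)

/-- check of one family of blocks -/
def chkPairs (lo m : Aff) : Bool :=
  isz m || ([lo, add lo D.H].all fun x => [0, 2].all fun k =>
    D.straight k x (sm 2 m) || D.crossed k x (sm 2 m))

/-- check of the blocks -/
def chkBlk : Bool :=
  le (add D.lo1 (sm 2 D.m1)) D.lo2 && le (add D.lo2 (sm 2 D.m2)) D.H &&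
  D.U.all (fun u => lt u D.H && D.outT u &&
    (isz D.m1 || (Aff.ne (add u one) D.lo1 && (lt (add u one) D.H || le one D.lo1))) &&
    (isz D.m2 || (Aff.ne (add u one) D.lo2 && (lt (add u one) D.H || le one D.lo2)))) &&
  pairAll Aff.ne D.U &&
  D.W.all (fun k => lt k D.H && D.outT k) &&
  D.chkPairs D.lo1 D.m1 && D.chkPairs D.lo2 D.m2

/-- starts of the blocks -/
def Tn : Finset ℕ := (Finset.range (D.m1.ev q)).image (fun s => D.lo1.ev q + 2 * s) ∪
  (Finset.range (D.m2.ev q)).image (fun s => D.lo2.ev q + 2 * s)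

/-- turned classes of the window -/
def Un : Finset ℕ := (D.U.map (fun u => u.ev q)).toFinset

/-- the meaning of `outT` -/
def Out (k : ℕ) : Prop := k < D.lo1.ev q ∨
  (D.lo1.ev q + 2 * D.m1.ev q ≤ k ∧ k < D.lo2.ev q) ∨ D.lo2.ev q + 2 * D.m2.ev q ≤ k

variable {D q}

theorem out_of {k : Aff} (h : D.outT k = true) : D.Out q (k.ev q) := by
  simp only [outT, Bool.or_eq_true, Bool.and_eq_true] at h
  unfold Out
  rcases h with (h | ⟨h, h'⟩) | h
  · exact Or.inl (lt_ev q h)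
  · have h1 := le_ev q h
    rw [ev_add, ev_sm] at h1
    exact Or.inr (Or.inl ⟨h1, lt_ev q h'⟩)
  · have h1 := le_ev q h
    rw [ev_add, ev_sm] at h1
    exact Or.inr (Or.inr h1)

variable (D q) in
/-- the meaning of `chkBlk` -/
structure Blocks : Prop where
  b1 : D.lo1.ev q + 2 * D.m1.ev q ≤ D.lo2.ev q
  b2 : D.lo2.ev q + 2 * D.m2.ev q ≤ D.h q
  u1 : ∀ u ∈ D.Un q, u < D.h q ∧ D.Out q u
  u2 : ∀ u ∈ D.Un q, D.m1.ev q = 0 ∨ (u + 1 ≠ D.lo1.ev q ∧ (u + 1 < D.h q ∨ 1 ≤ D.lo1.ev q))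
  u3 : ∀ u ∈ D.Un q, D.m2.ev q = 0 ∨ (u + 1 ≠ D.lo2.ev q ∧ (u + 1 < D.h q ∨ 1 ≤ D.lo2.ev q))
  uc : (D.Un q).card = D.U.length
  w1 : ∀ k ∈ D.W, k.ev q < D.h q ∧ D.Out q (k.ev q)
  p1 : D.chkPairs D.lo1 D.m1 = true
  p2 : D.chkPairs D.lo2 D.m2 = true

theorem isz_ev {m : Aff} (h : isz m = true) : m.ev q = 0 := by
  have := eq_ev q h
  rwa [ev_mk] at this

theorem blocks_of_chk (hc : D.chkBlk = true) : D.Blocks q := by
  simp only [chkBlk, Bool.and_eq_true] at hc
  obtain ⟨⟨⟨⟨⟨⟨h1, h2⟩, h3⟩, h4⟩, h5⟩, h6⟩, h7⟩ := hc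
  have hU : ∀ x ∈ D.Un q, ∃ u ∈ D.U, x = u.ev q := by
    intro x hx
    unfold Un at hx
    rw [List.mem_toFinset, List.mem_map] at hx
    obtain ⟨u, hu, e⟩ := hx
    exact ⟨u, hu, e.symm⟩
  have h3' : ∀ u ∈ D.U, (lt u D.H = true ∧ D.outT u = true) ∧
      (isz D.m1 = true ∨ (Aff.ne (add u one) D.lo1 = true ∧
        (lt (add u one) D.H = true ∨ le one D.lo1 = true))) ∧
      (isz D.m2 = true ∨ (Aff.ne (add u one) D.lo2 = true ∧
        (lt (add u one) D.H = true ∨ le one D.lo2 = true))) := by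
    intro u hu
    have := List.all_eq_true.1 h3 u hu
    simp only [Bool.and_eq_true, Bool.or_eq_true] at this
    exact ⟨this.1.1, this.1.2, this.2⟩
  refine ⟨?_, ?_, ?_, ?_, ?_, ?_, ?_, h6, h7⟩
  · have := le_ev q h1
    rwa [ev_add, ev_sm] at this
  · have := le_ev q h2
    rwa [ev_add, ev_sm] at this
  · intro x hx
    obtain ⟨u, hu, rfl⟩ := hU x hx
    exact ⟨lt_ev q (h3' u hu).1.1, out_of (h3' u hu).1.2⟩
  · intro x hx
    obtain ⟨u, hu, rfl⟩ := hU x hx
    rcases (h3' u hu).2.1 with h | ⟨h, h'⟩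
    · exact Or.inl (isz_ev h)
    · right
      have k1 := ne_ev q h
      rw [ev_add, ev_one] at k1
      refine ⟨k1, ?_⟩
      rcases h' with h' | h'
      · have k2 := lt_ev q h'
        rw [ev_add, ev_one] at k2
        exact Or.inl k2
      · have k2 := le_ev q h'
        rw [ev_one] at k2
        exact Or.inr k2
  · intro x hx
    obtain ⟨u, hu, rfl⟩ := hU x hx
    rcases (h3' u hu).2.2 with h | ⟨h, h'⟩
    · exact Or.inl (isz_ev h)
    · right
      have k1 := ne_ev q h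
      rw [ev_add, ev_one] at k1
      refine ⟨k1, ?_⟩
      rcases h' with h' | h'
      · have k2 := lt_ev q h'
        rw [ev_add, ev_one] at k2
        exact Or.inl k2
      · have k2 := le_ev q h'
        rw [ev_one] at k2
        exact Or.inr k2
  · unfold Un
    rw [List.toFinset_card_of_nodup, List.length_map]
    unfold List.Nodup
    rw [List.pairwise_map]
    exact (pairAll_pairwise h4).imp (fun h => ne_ev q h)
  · intro k hk
    have := List.all_eq_true.1 h5 k hk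
    simp only [Bool.and_eq_true] at this
    exact ⟨lt_ev q this.1, out_of this.2⟩

theorem zone_cond (hb : D.Basic q) {φ : Zone → Prop} {c l : ℕ}
    (h : ∀ z ∈ D.zs, φ z ∨ NC (D.n q) (z.s.ev q) (z.l.ev q) c l) {o : ℕ} (ho : o < l) :
    φ (D.zone q (((c + o : ℕ) : ZMod (D.n q))).val) := by
  have hne := hb.neZero
  have hlt := ZMod.val_lt ((c + o : ℕ) : ZMod (D.n q))
  have hz := hb.zone_mem hlt
  have hsp := fnd_spec (d := dz) hb.zch (Nat.zero_le _) hlt
  change D.zone q _ ∈ _ ∧ (D.zone q _).s.ev q ≤ _ ∧ _ < (D.zone q _).s.ev q +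
    (D.zone q _).l.ev q at hsp
  rcases h _ hz with h1 | h1
  · exact h1
  · exfalso
    refine h1 ((((c + o : ℕ) : ZMod (D.n q))).val - (D.zone q
      (((c + o : ℕ) : ZMod (D.n q))).val).s.ev q) o (by omega) ho ?_
    rw [Nat.add_sub_cancel' hsp.2.1]
    simp

theorem R_val (hb : D.Basic q) (j : ℕ) :
    (((D.R j).ev q : ℕ) : ZMod (D.n q)).val = (D.R j).ev q := by
  have hne := hb.neZero
  have h1 := hb.R_lt (a := j)
  have h2 := hb.hn
  rw [ZMod.val_natCast, Nat.mod_eq_of_lt (by omega)]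

theorem B_R (hb : D.Basic q) {j : ℕ} (hj : j ≤ 3) (c : ZMod (D.n q)) :
    D.B q ((D.R j).ev q : ℕ) c = c + ((D.R ((D.zone q c.val).p j)).ev q : ℕ) := by
  unfold B
  rw [R_val hb, hb.vr_R hj]

theorem pair_of (hb : D.Basic q) {k : ℕ} (hk : k = 0 ∨ k = 2) {x l : Aff}
    (h : D.straight k x l = true ∨ D.crossed k x l = true) {o : ℕ} (ho : o < l.ev q) :
    PairOK (D.B q) ((D.R k).ev q : ℕ) ((x.ev q + o : ℕ) : ZMod (D.n q)) := by
  have hk1 : (D.R (k + 1)).ev q = (D.R k).ev q + 1 := by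
    rcases hk with rfl | rfl
    · exact hb.r1
    · exact hb.r3
  have hk3 : k ≤ 3 ∧ k + 1 ≤ 3 := by omega
  have e0 : (((D.R k).ev q : ℕ) : ZMod (D.n q)) + 1 = ((D.R (k + 1)).ev q : ℕ) := by
    rw [hk1]; push_cast; rfl
  unfold PairOK
  rw [e0]
  have c0 : (((D.R k).ev q : ℕ) : ZMod (D.n q)) + ((x.ev q + o : ℕ) : ZMod (D.n q)) =
      ((((D.R k).ev q + x.ev q) + o : ℕ) : ZMod (D.n q)) := by push_cast; ring
  have c1 : (((D.R (k + 1)).ev q : ℕ) : ZMod (D.n q)) + ((x.ev q + o : ℕ) : ZMod (D.n q)) =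
      ((((D.R (k + 1)).ev q + x.ev q) + o : ℕ) : ZMod (D.n q)) := by push_cast; ring
  rcases h with h | h
  · left
    have h' : ∀ z ∈ D.zs, (z.p k = k ∨ NC (D.n q) (z.s.ev q) (z.l.ev q)
        ((D.R k).ev q + x.ev q) (l.ev q)) ∧ (z.p (k + 1) = k + 1 ∨ NC (D.n q) (z.s.ev q)
        (z.l.ev q) ((D.R (k + 1)).ev q + x.ev q) (l.ev q)) := by
      intro z hz
      have h1 := List.all_eq_true.1 h z hz
      simp only [Bool.and_eq_true, Bool.or_eq_true, Nat.beq_eq] at h1
      refine ⟨h1.1.imp_right fun h2 => ?_, h1.2.imp_right fun h2 => ?_⟩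
      · have := cdz_nc q h2
        rwa [ev_add] at this
      · have := cdz_nc q h2
        rwa [ev_add] at this
    constructor
    · rw [c0, B_R hb hk3.1, zone_cond hb (φ := fun z => z.p k = k) (fun z hz => (h' z hz).1) ho]
      ring
    · rw [c1, B_R hb hk3.2, zone_cond hb (φ := fun z => z.p (k + 1) = k + 1)
        (fun z hz => (h' z hz).2) ho]
      ring
  · right
    have h' : ∀ z ∈ D.zs, (z.p k = k + 1 ∨ NC (D.n q) (z.s.ev q) (z.l.ev q)
        ((D.R (k + 1)).ev q + x.ev q) (l.ev q)) ∧ (z.p (k + 1) = k ∨ NC (D.n q) (z.s.ev q)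
        (z.l.ev q) ((D.R k).ev q + x.ev q) (l.ev q)) := by
      intro z hz
      have h1 := List.all_eq_true.1 h z hz
      simp only [Bool.and_eq_true, Bool.or_eq_true, Nat.beq_eq] at h1
      refine ⟨h1.1.imp_right fun h2 => ?_, h1.2.imp_right fun h2 => ?_⟩
      · have := cdz_nc q h2
        rwa [ev_add] at this
      · have := cdz_nc q h2
        rwa [ev_add] at this
    constructor
    · rw [c1, B_R hb hk3.1, zone_cond hb (φ := fun z => z.p k = k + 1)
        (fun z hz => (h' z hz).1) ho]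
      ring
    · rw [c0, B_R hb hk3.2, zone_cond hb (φ := fun z => z.p (k + 1) = k)
        (fun z hz => (h' z hz).2) ho]
      ring

/-- elements of `Tn` -/
theorem mem_Tn {u : ℕ} (hu : u ∈ D.Tn q) :
    (∃ s < D.m1.ev q, u = D.lo1.ev q + 2 * s) ∨ (∃ s < D.m2.ev q, u = D.lo2.ev q + 2 * s) := by
  unfold Tn at hu
  rw [Finset.mem_union, Finset.mem_image, Finset.mem_image] at hu
  rcases hu with ⟨s, hs, e⟩ | ⟨s, hs, e⟩
  · exact Or.inl ⟨s, Finset.mem_range.1 hs, e.symm⟩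
  · exact Or.inr ⟨s, Finset.mem_range.1 hs, e.symm⟩

namespace Blocks

variable (hk : D.Blocks q)
include hk

theorem Tn_lt {u : ℕ} (hu : u ∈ D.Tn q) : u + 1 < D.h q := by
  have h1 := hk.b1
  have h2 := hk.b2
  rcases mem_Tn hu with ⟨s, hs, rfl⟩ | ⟨s, hs, rfl⟩ <;> omega

theorem Tn_sp {u v : ℕ} (hu : u ∈ D.Tn q) (hv : v ∈ D.Tn q) (h : u < v) : u + 1 < v := by
  have h1 := hk.b1
  have h2 := hk.b2
  rcases mem_Tn hu with ⟨s, hs, rfl⟩ | ⟨s, hs, rfl⟩ <;>
    rcases mem_Tn hv with ⟨s', hs', rfl⟩ | ⟨s', hs', rfl⟩ <;> omega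

theorem Tn_card : (D.Tn q).card = D.m1.ev q + D.m2.ev q := by
  have h1 := hk.b1
  unfold Tn
  rw [Finset.card_union_of_disjoint, Finset.card_image_of_injective, Finset.card_range,
    Finset.card_image_of_injective, Finset.card_range]
  · intro a b e
    simp only at e
    omega
  · intro a b e
    simp only at e
    omega
  · rw [Finset.disjoint_left]
    intro x hx hx'
    rw [Finset.mem_image] at hx hx'
    obtain ⟨s, hs, e⟩ := hx
    obtain ⟨s', hs', e'⟩ := hx'
    have := Finset.mem_range.1 hs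
    omega

theorem Tn_out {u k : ℕ} (hu : u ∈ D.Tn q) (ho : D.Out q k) : k ≠ u ∧ k ≠ u + 1 := by
  have h1 := hk.b1
  have h2 := hk.b2
  unfold Out at ho
  rcases mem_Tn hu with ⟨s, hs, rfl⟩ | ⟨s, hs, rfl⟩ <;> omega

theorem disj (hb : D.Basic q) : ∀ t ∈ castSet (D.n q) (D.Tn q), ∀ t' ∈ castSet (D.n q) (D.Tn q),
    t ≠ t' → ∀ d, Blk ((D.h q : ℕ) : ZMod (D.n q)) t d → ¬ Blk ((D.h q : ℕ) : ZMod (D.n q)) t' d := by
  have hne := hb.neZero
  exact (base_of_nat hb.hn (latin_add (D.n q)) (fun u hu => hk.Tn_lt hu)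
    (fun u hu v hv h => hk.Tn_sp hu hv h) (fun _ _ _ _ _ => rfl)).disj

theorem disjTU (hb : D.Basic q) :
    Disjoint (castSet (D.n q) (D.Tn q)) (castSet (D.n q) (D.Un q)) := by
  have hne := hb.neZero
  have hn := hb.hn
  rw [Finset.disjoint_left]
  intro x hx hx'
  obtain ⟨u, hu, rfl⟩ := Finset.mem_image.1 hx
  obtain ⟨v, hv, e⟩ := Finset.mem_image.1 hx'
  have h1 := hk.Tn_lt hu
  have h2 := hk.u1 v hv
  have h3 := natCast_inj_of_lt (by omega) (by omega) e
  exact (hk.Tn_out hu h2.2).1 h3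

theorem not_tcol (hb : D.Basic q) : ∀ t ∈ castSet (D.n q) (D.Tn q),
    ¬ TCol (D.h q) (castSet (D.n q) (D.Tn q) ∪ castSet (D.n q) (D.Un q)) (t - 1) := by
  have hne := hb.neZero
  have hn := hb.hn
  have hh := hb.hh
  intro t ht
  have e : castSet (D.n q) (D.Tn q) ∪ castSet (D.n q) (D.Un q) =
      castSet (D.n q) (D.Tn q ∪ D.Un q) := by
    unfold castSet
    rw [Finset.image_union]
  rw [e, tcol_iff hn]
  · obtain ⟨u, hu, rfl⟩ := Finset.mem_image.1 ht
    have h1 := hk.Tn_lt hu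
    have hval : (((u : ℕ) : ZMod (D.n q)) - 1).val % D.h q = if u = 0 then D.h q - 1 else u - 1 := by
      split_ifs with h0
      · have e1 : ((u : ℕ) : ZMod (D.n q)) - 1 = ((D.n q - 1 : ℕ) : ZMod (D.n q)) := by
          rw [h0, Nat.cast_sub (by omega), ZMod.natCast_self]; push_cast; ring
        have m1 : (D.n q - 1) % D.n q = D.n q - 1 := Nat.mod_eq_of_lt (by omega)
        rw [e1, ZMod.val_natCast, m1]
        rw [show D.n q - 1 = (D.h q - 1) + D.h q by omega, Nat.add_mod_right,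
          Nat.mod_eq_of_lt (by omega)]
      · have e1 : ((u : ℕ) : ZMod (D.n q)) - 1 = ((u - 1 : ℕ) : ZMod (D.n q)) := by
          rw [Nat.cast_sub (by omega)]; push_cast; ring
        have m1 : (u - 1) % D.n q = u - 1 := Nat.mod_eq_of_lt (by omega)
        rw [e1, ZMod.val_natCast, m1, Nat.mod_eq_of_lt (by omega)]
    rw [hval]
    intro hmem
    rcases Finset.mem_union.1 hmem with h2 | h2
    · split_ifs at h2 with h0
      · have := hk.Tn_lt h2
        omega
      · have := hk.Tn_sp h2 hu (by omega)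
        omega
    · have h3 := hk.u1 _ h2
      have h4 := hk.u2 _ h2
      have h5 := hk.u3 _ h2
      have h6 := hk.b1
      have h7 := hk.b2
      unfold Out at h3
      by_cases h0 : u = 0
      · rw [if_pos h0] at h3 h4 h5
        rcases mem_Tn hu with ⟨s, hs, e⟩ | ⟨s, hs, e⟩ <;> omega
      · rw [if_neg h0] at h3 h4 h5
        rcases mem_Tn hu with ⟨s, hs, e⟩ | ⟨s, hs, e⟩ <;> omega
  · intro u hu
    rcases Finset.mem_union.1 hu with h | h
    · have := hk.Tn_lt h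
      omega
    · exact (hk.u1 u h).1

theorem pairs (hb : D.Basic q) : ∀ t ∈ castSet (D.n q) (D.Tn q), ∀ d,
    Blk ((D.h q : ℕ) : ZMod (D.n q)) t d →
    PairOK (D.B q) ((D.R 0).ev q : ℕ) d ∧ PairOK (D.B q) ((D.R 2).ev q : ℕ) d := by
  have hne := hb.neZero
  have hn := hb.hn
  intro t ht d hd
  obtain ⟨u, hu, rfl⟩ := Finset.mem_image.1 ht
  have h1 := hk.Tn_lt hu
  rw [blk_iff hn, Nat.mod_eq_of_lt (show u < D.h q by omega), Nat.mod_eq_of_lt h1] at hd
  have hlt := ZMod.val_lt d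
  have hdv : d = ((d.val : ℕ) : ZMod (D.n q)) := by simp
  have hcase : d.val = d.val % D.h q ∨ d.val = d.val % D.h q + D.h q := by
    rcases Nat.lt_or_ge d.val (D.h q) with hc | hc
    · left; exact (Nat.mod_eq_of_lt hc).symm
    · right
      have : (d.val - D.h q) % D.h q = d.val % D.h q := by
        conv_rhs => rw [show d.val = (d.val - D.h q) + D.h q by omega, Nat.add_mod_right]
      rw [Nat.mod_eq_of_lt (by omega)] at this
      omega
  have main : ∀ lo m : Aff, D.chkPairs lo m = true → lo.ev q ≤ d.val % D.h q →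
      d.val % D.h q < lo.ev q + 2 * m.ev q →
      PairOK (D.B q) ((D.R 0).ev q : ℕ) d ∧ PairOK (D.B q) ((D.R 2).ev q : ℕ) d := by
    intro lo m hc hl hl'
    simp only [chkPairs, Bool.or_eq_true] at hc
    rcases hc with hc | hc
    · have := isz_ev (q := q) hc
      omega
    · rw [List.all_eq_true] at hc
      have hx : ∀ x : Aff, x ∈ [lo, add lo D.H] → (∃ o < 2 * m.ev q, d.val = x.ev q + o) →
          PairOK (D.B q) ((D.R 0).ev q : ℕ) d ∧ PairOK (D.B q) ((D.R 2).ev q : ℕ) d := by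
        rintro x hx ⟨o, ho, hdo⟩
        have h2 := List.all_eq_true.1 (hc x hx)
        have h3 := h2 0 (by simp)
        have h4 := h2 2 (by simp)
        rw [Bool.or_eq_true] at h3 h4
        rw [hdv, hdo]
        refine ⟨pair_of hb (Or.inl rfl) h3 ?_, pair_of hb (Or.inr rfl) h4 ?_⟩ <;>
          rwa [ev_sm]
      rcases hcase with hc2 | hc2
      · exact hx lo (by simp) ⟨d.val - lo.ev q, by omega, by omega⟩
      · refine hx (add lo D.H) (by simp) ⟨d.val - (lo.ev q + D.h q), by omega, ?_⟩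
        rw [ev_add]
        show d.val = lo.ev q + D.h q + _
        omega
  rcases mem_Tn hu with ⟨s, hs, e⟩ | ⟨s, hs, e⟩
  · exact main D.lo1 D.m1 hk.p1 (by omega) (by omega)
  · exact main D.lo2 D.m2 hk.p2 (by omega) (by omega)

end Blocks

end Dat

end Pool.Agent.Hhelper81.LT
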