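import Mathlib
import Pool.Agent.Hhelper81.LT.DatBlocks

set_option autoImplicit false

/-!
Certificates: the transversals of the window.
-/

namespace Pool.Agent.Hhelper81.LT

open Finset Pool.Agent.Hhelper79.LT Aff

theorem spRow_iff {n h : ℕ} [NeZero n] (hn : n = 2 * h) (hh : 2 ≤ h) (i : ZMod n) :
    SpRow h i ↔ i.val + 1 = h ∨ i.val + 1 = n := by
  have hlt := ZMod.val_lt i
  have hi : i = ((i.val : ℕ) : ZMod n) := by simp
  unfold SpRow
  constructor
  · rintro (e | e)
    · right
      have e1 : i = ((n - 1 : ℕ) : ZMod n) := by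
        rw [Nat.cast_sub (by omega), ZMod.natCast_self, e]; push_cast; ring
      have : i.val = n - 1 := by
        rw [e1, ZMod.val_natCast]; exact Nat.mod_eq_of_lt (by omega)
      omega
    · left
      have e1 : i = ((h - 1 : ℕ) : ZMod n) := by
        rw [Nat.cast_sub (by omega), e]; push_cast; ring
      have : i.val = h - 1 := by
        rw [e1, ZMod.val_natCast]; exact Nat.mod_eq_of_lt (by omega)
      omega
  · rintro (e | e)
    · right
      have e1 : ((i.val + 1 : ℕ) : ZMod n) = (h : ZMod n) := by rw [e]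
      push_cast at e1
      rw [← hi] at e1
      linear_combination e1
    · left
      have e1 : ((i.val + 1 : ℕ) : ZMod n) = 0 := by rw [e]; exact ZMod.natCast_self n
      push_cast at e1
      rw [← hi] at e1
      linear_combination e1

namespace Dat

variable (D : Dat) (q : ℕ)

/-- `s` is the symbol of the first cell -/
def symOK (s : Aff) (x : Cell) : Bool :=
  Aff.eq s (add ⟨x.e, 0⟩ (add x.y x.y)) || Aff.eq s (add (add ⟨x.e, 0⟩ (add x.y x.y)) D.N) ||
  Aff.eq s (add (add ⟨x.e, 0⟩ (add x.y x.y)) (sm 2 D.N))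

/-- `c - ρ` is in a class of the window -/
def vdOK (ρ c : Aff) : Bool :=
  D.W.any fun k => Aff.eq c (add ρ k) || Aff.eq c (add (add ρ k) D.H) ||
    Aff.eq (add c D.H) (add ρ k) || Aff.eq (add c D.N) (add ρ k)

/-- `c` is a turned column -/
def isT (c : Aff) : Bool := D.U.any fun u => Aff.eq c u || Aff.eq c (add u D.H)

/-- `c` is not a turned column -/
def notT (c : Aff) : Bool := D.U.all fun u => Aff.ne c u && Aff.ne c (add u D.H)

/-- check of the position of a row interval -/
def kindOK (s : Row) : Bool :=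
  if s.k = 0 then
    [add D.R0 one, add D.R1 one, add D.R2 one, add D.R3 one, D.H, D.N].all fun p =>
      le p s.r || le (add (add s.r s.l) one) p
  else if s.k = 5 then Aff.eq (add s.r one) D.H && Aff.eq s.l one
  else if s.k = 6 then Aff.eq (add s.r one) D.N && Aff.eq s.l one
  else Nat.ble s.k 4 && Aff.eq s.r (D.R (s.k - 1)) && Aff.eq s.l one

/-- check of one cell -/
def cellOK (s : Row) (x : Cell) : Bool :=
  Nat.ble x.e 1 && lt x.c D.N &&
  if s.k = 0 then D.symOK (add s.r x.c) x && D.vdOK s.r x.c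
  else if s.k = 5 ∨ s.k = 6 then
    ((D.isT x.c && D.symOK (add (add s.r x.c) D.H) x) ||
      (D.notT x.c && D.symOK (add s.r x.c) x)) && D.vdOK s.r x.c
  else D.zs.any fun z => le z.s x.c && lt x.c (add z.s z.l) &&
    D.symOK (add x.c (D.R (z.p (s.k - 1)))) x && D.vdOK (D.R (z.p (s.k - 1))) x.c

/-- check of a row interval -/
def rowOK (s : Row) : Bool :=
  le s.l D.H && D.kindOK s && Nat.beq s.cs.length D.M && s.cs.all (D.cellOK s) &&
  pairAll (fun x x' : Cell => cd D.N x.c one x'.c one) s.cs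

/-- check of two row intervals -/
def rowPair (s s' : Row) : Bool :=
  zipAll (fun x x' : Cell => cd D.N x.c s.l x'.c s'.l &&
    (!(Nat.beq x.e x'.e) || cd D.H x.y s.l x'.y s'.l)) s.cs s'.cs

/-- check of the window -/
def chkWin : Bool :=
  chA (fun s : Row => s.r) (fun s => s.l) ⟨0, 0⟩ D.rows D.N && D.rows.all D.rowOK &&
  pairAll D.rowPair D.rows

/-- the complete check -/
def check : Bool := D.chkBase && D.chkHits && D.chkBlk && D.chkWin

/-- the row interval of a row -/
def row (x : ℕ) : Row := fnd (fun s : Row => s.r.ev q) (fun s => s.l.ev q) dr D.rows x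

/-- the window transversals -/
def F (k : ℕ) (i : ZMod (D.n q)) : ZMod (D.n q) :=
  ((((D.row q i.val).cs.getD k dc).c.ev q + (i.val - (D.row q i.val).r.ev q) : ℕ) :
    ZMod (D.n q))

/-- the turned set of the window -/
def U' : Finset (ZMod (D.n q)) := castSet (D.n q) (D.Un q)

variable {D q}

theorem sym_of {s : Aff} {x : Cell} (h : D.symOK s x = true) :
    ((s.ev q : ℕ) : ZMod (D.n q)) = ((x.e + 2 * x.y.ev q : ℕ) : ZMod (D.n q)) := by
  have hN : ((D.N.ev q : ℕ) : ZMod (D.n q)) = 0 := ZMod.natCast_self _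
  simp only [symOK, Bool.or_eq_true] at h
  rcases h with (h | h) | h
  · have := eq_ev q h
    simp only [ev_add, ev_mk] at this
    rw [this]; push_cast; ring
  · have := eq_ev q h
    simp only [ev_add, ev_mk] at this
    rw [this]; push_cast; rw [hN]; ring
  · have := eq_ev q h
    simp only [ev_add, ev_mk, ev_sm] at this
    rw [this]; push_cast; rw [hN]; ring

theorem vd_of (hn : D.n q = 2 * D.h q) {ρ c : Aff} (h : D.vdOK ρ c = true) :
    ∃ k ∈ D.W, ((c.ev q : ℕ) : ZMod (D.n q)) - (ρ.ev q : ℕ) = (k.ev q : ℕ) ∨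
      ((c.ev q : ℕ) : ZMod (D.n q)) - (ρ.ev q : ℕ) = (k.ev q : ℕ) + (D.h q : ℕ) := by
  have h2 := two_h hn
  have hN : ((D.N.ev q : ℕ) : ZMod (D.n q)) = 0 := ZMod.natCast_self _
  simp only [vdOK, List.any_eq_true, Bool.or_eq_true] at h
  obtain ⟨k, hk, h⟩ := h
  refine ⟨k, hk, ?_⟩
  rcases h with ((h | h) | h) | h
  · left
    have := eq_ev q h
    simp only [ev_add] at this
    rw [this]; push_cast; ring
  · right
    have := eq_ev q h
    simp only [ev_add] at this
    rw [this]; push_cast; ring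
  · right
    have := eq_ev q h
    simp only [ev_add] at this
    have e := congrArg (Nat.cast (R := ZMod (D.n q))) this
    push_cast at e
    linear_combination e - h2
  · left
    have := eq_ev q h
    simp only [ev_add] at this
    have e := congrArg (Nat.cast (R := ZMod (D.n q))) this
    push_cast at e
    rw [hN] at e
    linear_combination e

theorem mem_Un {u : Aff} (hu : u ∈ D.U) : u.ev q ∈ D.Un q := by
  unfold Un
  rw [List.mem_toFinset, List.mem_map]
  exact ⟨u, hu, rfl⟩

/-- the window cells -/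
theorem cell_spec (hb : D.Basic q) (hk : D.Blocks q) {s : Row} (hr : s.r.ev q + s.l.ev q ≤ D.n q)
    (hkind : D.kindOK s = true) {x : Cell} (hx : D.cellOK s x = true) {o : ℕ}
    (ho : o < s.l.ev q) :
    turned (D.h q) (D.B q) (D.U' q) ((s.r.ev q + o : ℕ) : ZMod (D.n q))
      ((x.c.ev q + o : ℕ) : ZMod (D.n q)) = ((x.e + 2 * (x.y.ev q + o) : ℕ) : ZMod (D.n q)) ∧
    ∃ k ∈ D.W, 2 * ((x.c.ev q + o : ℕ) : ZMod (D.n q)) -
      D.B q ((s.r.ev q + o : ℕ) : ZMod (D.n q)) ((x.c.ev q + o : ℕ) : ZMod (D.n q)) =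
        (k.ev q : ℕ) ∨
      2 * ((x.c.ev q + o : ℕ) : ZMod (D.n q)) -
      D.B q ((s.r.ev q + o : ℕ) : ZMod (D.n q)) ((x.c.ev q + o : ℕ) : ZMod (D.n q)) =
        (k.ev q : ℕ) + (D.h q : ℕ) := by
  classical
  have hne := hb.neZero
  have hn := hb.hn
  have hh := hb.hh
  have hival : (((s.r.ev q + o : ℕ) : ZMod (D.n q))).val = s.r.ev q + o := by
    rw [ZMod.val_natCast]; exact Nat.mod_eq_of_lt (by omega)
  simp only [cellOK, Bool.and_eq_true, Nat.ble_eq] at hx
  obtain ⟨⟨-, hcN⟩, hx⟩ := hx
  have hcN := lt_ev q hcN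
  by_cases h0 : s.k = 0
  · -- regular rows
    rw [if_pos h0, Bool.and_eq_true] at hx
    unfold kindOK at hkind
    rw [if_pos h0, List.all_eq_true] at hkind
    have hav : ∀ p : Aff, p ∈ [add D.R0 one, add D.R1 one, add D.R2 one, add D.R3 one, D.H, D.N] →
        s.r.ev q + o + 1 ≠ p.ev q := by
      intro p hp e
      have h1 := hkind p hp
      rw [Bool.or_eq_true] at h1
      rcases h1 with h1 | h1
      · have := le_ev q h1
        omega
      · have := le_ev q h1
        simp only [ev_add, ev_one] at this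
        omega
    have hsp : ¬ SpRow (D.h q) ((s.r.ev q + o : ℕ) : ZMod (D.n q)) := by
      rw [spRow_iff hn hh, hival]
      rintro (e | e)
      · exact hav D.H (by simp) e
      · exact hav D.N (by simp) e
    have hR : ∀ j ≤ 3, s.r.ev q + o ≠ (D.R j).ev q := by
      intro j hj e
      have h1 : ∀ p : Aff, p.ev q = s.r.ev q + o →
          add p one ∈ [add D.R0 one, add D.R1 one, add D.R2 one, add D.R3 one, D.H, D.N] →
          False := by
        intro p hp hm
        refine hav _ hm ?_
        rw [ev_add, ev_one, hp]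
      interval_cases j
      · exact h1 D.R0 e.symm (by simp)
      · exact h1 D.R1 e.symm (by simp)
      · exact h1 D.R2 e.symm (by simp)
      · exact h1 D.R3 e.symm (by simp)
    have hB : D.B q ((s.r.ev q + o : ℕ) : ZMod (D.n q)) ((x.c.ev q + o : ℕ) : ZMod (D.n q)) =
        ((x.c.ev q + o : ℕ) : ZMod (D.n q)) + ((s.r.ev q + o : ℕ) : ZMod (D.n q)) := by
      unfold B
      rw [hival, hb.vr_reg hR]
    have hS := sym_of (q := q) hx.1
    rw [ev_add] at hS
    push_cast at hS
    constructor
    · unfold turned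
      rw [if_neg (fun h => hsp h.1), hB]
      push_cast
      linear_combination hS
    · obtain ⟨k, hkW, hv⟩ := vd_of hn hx.2
      refine ⟨k, hkW, ?_⟩
      rw [hB]
      push_cast
      rcases hv with hv | hv
      · left; linear_combination hv
      · right; linear_combination hv
  · rw [if_neg h0] at hx
    unfold kindOK at hkind
    rw [if_neg h0] at hkind
    by_cases h56 : s.k = 5 ∨ s.k = 6
    · -- turned rows
      rw [if_pos h56] at hx
      have hpos : s.l.ev q = 1 ∧ (s.r.ev q + 1 = D.h q ∨ s.r.ev q + 1 = D.n q) := by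
        rcases h56 with h5 | h6
        · rw [if_pos h5, Bool.and_eq_true] at hkind
          have h1 := eq_ev q hkind.1
          have h2 := eq_ev q hkind.2
          rw [ev_add, ev_one] at h1
          rw [ev_one] at h2
          exact ⟨h2, Or.inl h1⟩
        · rw [if_neg (by omega), if_pos h6, Bool.and_eq_true] at hkind
          have h1 := eq_ev q hkind.1
          have h2 := eq_ev q hkind.2
          rw [ev_add, ev_one] at h1
          rw [ev_one] at h2
          exact ⟨h2, Or.inr h1⟩
      have ho0 : o = 0 := by omega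
      subst ho0
      have hsp : SpRow (D.h q) ((s.r.ev q + 0 : ℕ) : ZMod (D.n q)) := by
        rw [spRow_iff hn hh, hival]
        exact hpos.2
      have hR : ∀ j ≤ 3, s.r.ev q + 0 ≠ (D.R j).ev q := by
        intro j hj e
        have := hb.R_lt (a := j)
        omega
      have hB : D.B q ((s.r.ev q + 0 : ℕ) : ZMod (D.n q)) ((x.c.ev q + 0 : ℕ) : ZMod (D.n q)) =
          ((x.c.ev q + 0 : ℕ) : ZMod (D.n q)) + ((s.r.ev q + 0 : ℕ) : ZMod (D.n q)) := by
        unfold B
        rw [hival, hb.vr_reg hR]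
      have hcval : (((x.c.ev q + 0 : ℕ) : ZMod (D.n q))).val = x.c.ev q := by
        rw [ZMod.val_natCast]; exact Nat.mod_eq_of_lt (by omega)
      have htc : TCol (D.h q) (D.U' q) ((x.c.ev q + 0 : ℕ) : ZMod (D.n q)) ↔
          x.c.ev q % D.h q ∈ D.Un q := by
        unfold U'
        rw [tcol_iff hn (fun u hu => (hk.u1 u hu).1), hcval]
      rw [Bool.and_eq_true, Bool.or_eq_true, Bool.and_eq_true, Bool.and_eq_true] at hx
      constructor
      · rcases hx.1 with ⟨hT, hS⟩ | ⟨hT, hS⟩
        · have hS := sym_of (q := q) hS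
          simp only [ev_add] at hS
          push_cast at hS
          simp only [isT, List.any_eq_true, Bool.or_eq_true] at hT
          obtain ⟨u, hu, hT⟩ := hT
          have hlt := (hk.u1 _ (mem_Un hu)).1
          have hmem : x.c.ev q % D.h q ∈ D.Un q := by
            have : x.c.ev q % D.h q = u.ev q := by
              rcases hT with hT | hT
              · rw [eq_ev q hT]; exact Nat.mod_eq_of_lt hlt
              · have := eq_ev q hT
                rw [ev_add] at this
                rw [this]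
                show (u.ev q + D.h q) % D.h q = _
                rw [Nat.add_mod_right]; exact Nat.mod_eq_of_lt hlt
            rw [this]
            exact mem_Un hu
          unfold turned
          rw [if_pos ⟨hsp, htc.2 hmem⟩]
          push_cast
          linear_combination hS
        · have hS := sym_of (q := q) hS
          simp only [ev_add] at hS
          push_cast at hS
          have hnot : ¬ TCol (D.h q) (D.U' q) ((x.c.ev q + 0 : ℕ) : ZMod (D.n q)) := by
            rw [htc]
            intro hmem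
            unfold Un at hmem
            rw [List.mem_toFinset, List.mem_map] at hmem
            obtain ⟨u, hu, e⟩ := hmem
            have h1 := List.all_eq_true.1 hT u hu
            rw [Bool.and_eq_true] at h1
            have h2 := ne_ev q h1.1
            have h3 := ne_ev q h1.2
            rw [ev_add] at h3
            have hH : D.H.ev q = D.h q := rfl
            have hNn : D.N.ev q = D.n q := rfl
            rcases Nat.lt_or_ge (x.c.ev q) (D.h q) with hc | hc
            · rw [Nat.mod_eq_of_lt hc] at e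
              exact h2 e.symm
            · have h4 : (x.c.ev q - D.h q) % D.h q = x.c.ev q % D.h q := by
                conv_rhs => rw [show x.c.ev q = (x.c.ev q - D.h q) + D.h q by omega,
                  Nat.add_mod_right]
              rw [Nat.mod_eq_of_lt (by omega)] at h4
              omega
          unfold turned
          rw [if_neg (fun h => hnot h.2), hB]
          push_cast
          linear_combination hS
      · obtain ⟨k, hkW, hv⟩ := vd_of hn hx.2
        refine ⟨k, hkW, ?_⟩
        rw [hB]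
        push_cast
        rcases hv with hv | hv
        · left; linear_combination hv
        · right; linear_combination hv
    · -- special rows
      rw [if_neg h56, List.any_eq_true] at hx
      rw [not_or] at h56
      rw [if_neg h56.1, if_neg h56.2] at hkind
      simp only [Bool.and_eq_true, Nat.ble_eq] at hkind
      obtain ⟨⟨hk4, hkr⟩, hkl⟩ := hkind
      have hkr := eq_ev q hkr
      have hkl := eq_ev q hkl
      rw [ev_one] at hkl
      have ho0 : o = 0 := by omega
      subst ho0
      obtain ⟨z, hz, hx⟩ := hx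
      simp only [Bool.and_eq_true] at hx
      obtain ⟨⟨⟨hz1, hz2⟩, hS⟩, hV⟩ := hx
      have hz1 := le_ev q hz1
      have hz2 := lt_ev q hz2
      rw [ev_add] at hz2
      have hj : s.k - 1 ≤ 3 := by omega
      have hcval : (((x.c.ev q + 0 : ℕ) : ZMod (D.n q))).val = x.c.ev q := by
        rw [ZMod.val_natCast]; exact Nat.mod_eq_of_lt (by omega)
      have hzone : D.zone q (((x.c.ev q + 0 : ℕ) : ZMod (D.n q))).val = z := by
        rw [hcval]
        exact fnd_eq hb.zch hz hz1 hz2
      have hB : D.B q ((s.r.ev q + 0 : ℕ) : ZMod (D.n q)) ((x.c.ev q + 0 : ℕ) : ZMod (D.n q)) =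
          ((x.c.ev q + 0 : ℕ) : ZMod (D.n q)) + ((D.R (z.p (s.k - 1))).ev q : ℕ) := by
        rw [Nat.add_zero, hkr, B_R hb hj]
        rw [hzone]
      have hsp : ¬ SpRow (D.h q) ((s.r.ev q + 0 : ℕ) : ZMod (D.n q)) := by
        rw [spRow_iff hn hh, hival]
        have := hb.R_lt (a := s.k - 1)
        omega
      have hS := sym_of (q := q) hS
      rw [ev_add] at hS
      push_cast at hS
      constructor
      · unfold turned
        rw [if_neg (fun h => hsp h.1), hB]
        push_cast
        linear_combination hS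
      · obtain ⟨k, hkW, hv⟩ := vd_of hn hV
        refine ⟨k, hkW, ?_⟩
        rw [hB]
        push_cast
        rcases hv with hv | hv
        · left; linear_combination hv
        · right; linear_combination hv

variable (D q) in
/-- the meaning of `chkWin` -/
structure Win : Prop where
  ch : Ch (fun s : Row => s.r.ev q) (fun s => s.l.ev q) 0 D.rows (D.n q)
  len : ∀ s ∈ D.rows, s.cs.length = D.M
  hl : ∀ s ∈ D.rows, s.l.ev q ≤ D.h q
  kind : ∀ s ∈ D.rows, D.kindOK s = true
  cell : ∀ s ∈ D.rows, ∀ k < D.M, D.cellOK s (s.cs.getD k dc) = true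
  dis : ∀ s ∈ D.rows, ∀ k < D.M, ∀ k' < D.M, k ≠ k' →
    NC (D.n q) ((s.cs.getD k dc).c.ev q) 1 ((s.cs.getD k' dc).c.ev q) 1
  col : ∀ k < D.M, D.rows.Pairwise (fun s s' => NC (D.n q) ((s.cs.getD k dc).c.ev q) (s.l.ev q)
    ((s'.cs.getD k dc).c.ev q) (s'.l.ev q))
  sym : ∀ k < D.M, D.rows.Pairwise (fun s s' => (s.cs.getD k dc).e ≠ (s'.cs.getD k dc).e ∨
    NC (D.h q) ((s.cs.getD k dc).y.ev q) (s.l.ev q) ((s'.cs.getD k dc).y.ev q) (s'.l.ev q))

theorem win_of_chk (hc : D.chkWin = true) : D.Win q := by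
  simp only [chkWin, Bool.and_eq_true] at hc
  obtain ⟨⟨h1, h2⟩, h3⟩ := hc
  have h2' : ∀ s ∈ D.rows, (((le s.l D.H = true ∧ D.kindOK s = true) ∧ s.cs.length = D.M) ∧
      s.cs.all (D.cellOK s) = true) ∧
      pairAll (fun x x' : Cell => cd D.N x.c one x'.c one) s.cs = true := by
    intro s hs
    have := List.all_eq_true.1 h2 s hs
    simp only [rowOK, Bool.and_eq_true, Nat.beq_eq] at this
    exact this
  have hget : ∀ s ∈ D.rows, ∀ k < D.M, s.cs.getD k dc ∈ s.cs := by
    intro s hs k hk
    have hlt : k < s.cs.length := by rw [(h2' s hs).1.1.2]; exact hk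
    rw [List.getD_eq_getElem _ _ hlt]
    exact List.getElem_mem hlt
  have h3' := pairAll_pairwise h3
  have h4 : ∀ k < D.M, D.rows.Pairwise (fun s s' => NC (D.n q) ((s.cs.getD k dc).c.ev q)
      (s.l.ev q) ((s'.cs.getD k dc).c.ev q) (s'.l.ev q) ∧
      ((s.cs.getD k dc).e ≠ (s'.cs.getD k dc).e ∨
      NC (D.h q) ((s.cs.getD k dc).y.ev q) (s.l.ev q) ((s'.cs.getD k dc).y.ev q)
        (s'.l.ev q))) := by
    intro k hk
    refine h3'.imp_of_mem ?_
    intro s s' hs hs' hss
    have hlt : k < s.cs.length := by rw [(h2' s hs).1.1.2]; exact hk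
    have h5 := zipAll_getD hss dc hlt
    simp only [Bool.and_eq_true, Bool.or_eq_true, Bool.not_eq_true'] at h5
    refine ⟨cd_nc q h5.1, ?_⟩
    rcases h5.2 with h6 | h6
    · left
      intro e
      rw [e, Nat.beq_refl] at h6
      exact Bool.noConfusion h6
    · right
      exact cd_nc q h6
  refine ⟨?_, ?_, ?_, ?_, ?_, ?_, ?_, ?_⟩
  · have := chA_ch q h1
    rw [ev_mk] at this
    exact this
  · exact fun s hs => (h2' s hs).1.1.2
  · exact fun s hs => le_ev q (h2' s hs).1.1.1.1
  · exact fun s hs => (h2' s hs).1.1.1.2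
  · exact fun s hs k hk => List.all_eq_true.1 (h2' s hs).1.2 _ (hget s hs k hk)
  · intro s hs k hk k' hk' hne
    have h5 := pairAll_pairwise (h2' s hs).2
    have hlt : k < s.cs.length := by rw [(h2' s hs).1.1.2]; exact hk
    have hlt' : k' < s.cs.length := by rw [(h2' s hs).1.1.2]; exact hk'
    rw [List.getD_eq_getElem _ _ hlt, List.getD_eq_getElem _ _ hlt']
    rw [List.pairwise_iff_getElem] at h5
    rcases Nat.lt_or_gt_of_ne hne with h6 | h6
    · have := cd_nc q (h5 k k' hlt hlt' h6)
      rwa [ev_one] at this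
    · have := cd_nc q (h5 k' k hlt' hlt h6)
      rw [ev_one] at this
      exact this.symm
  · exact fun k hk => (h4 k hk).imp (fun h => h.1)
  · exact fun k hk => (h4 k hk).imp (fun h => h.2)

namespace Win

variable (hw : D.Win q)
include hw

theorem row_spec {x : ℕ} (hx : x < D.n q) : D.row q x ∈ D.rows ∧ (D.row q x).r.ev q ≤ x ∧
    x < (D.row q x).r.ev q + (D.row q x).l.ev q :=
  fnd_spec (d := dr) hw.ch (Nat.zero_le _) hx

theorem spec (hb : D.Basic q) (hk : D.Blocks q) {k : ℕ} (hkM : k < D.M) (i : ZMod (D.n q)) :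
    turned (D.h q) (D.B q) (D.U' q) i (D.F q k i) =
      ((((D.row q i.val).cs.getD k dc).e + 2 * (((D.row q i.val).cs.getD k dc).y.ev q +
        (i.val - (D.row q i.val).r.ev q)) : ℕ) : ZMod (D.n q)) ∧
    ∃ κ ∈ D.W, 2 * D.F q k i - D.B q i (D.F q k i) = (κ.ev q : ℕ) ∨
      2 * D.F q k i - D.B q i (D.F q k i) = (κ.ev q : ℕ) + (D.h q : ℕ) := by
  have hne := hb.neZero
  obtain ⟨h1, h2, h3⟩ := hw.row_spec (ZMod.val_lt i)
  have hr := (hw.ch.mem h1).2
  have hc := cell_spec hb hk (s := D.row q i.val) hr (hw.kind _ h1) (hw.cell _ h1 k hkM)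
    (o := i.val - (D.row q i.val).r.ev q) (by omega)
  have e1 : (((D.row q i.val).r.ev q + (i.val - (D.row q i.val).r.ev q) : ℕ) :
      ZMod (D.n q)) = i := by
    rw [Nat.add_sub_cancel' h2]; simp
  rw [e1] at hc
  exact hc

theorem isTrans (hb : D.Basic q) (hk : D.Blocks q) {k : ℕ} (hkM : k < D.M) :
    IsTrans (turned (D.h q) (D.B q) (D.U' q)) (D.F q k) := by
  have hne := hb.neZero
  constructor
  · intro i i' e
    apply ZMod.val_injective
    exact fnd_inj (c := fun s : Row => (s.cs.getD k dc).c.ev q) (d := dr) hw.ch (hw.col k hkM)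
      (ZMod.val_lt i) (ZMod.val_lt i') e
  · intro i i' e
    have e : turned (D.h q) (D.B q) (D.U' q) i (D.F q k i) =
      turned (D.h q) (D.B q) (D.U' q) i' (D.F q k i') := e
    rw [(hw.spec hb hk hkM i).1, (hw.spec hb hk hkM i').1] at e
    apply ZMod.val_injective
    refine fnd_inj2 (y := fun s : Row => (s.cs.getD k dc).y.ev q)
      (e := fun s : Row => (s.cs.getD k dc).e) (d := dr) hb.hn hw.ch ?_ hw.hl (hw.sym k hkM)
      (ZMod.val_lt i) (ZMod.val_lt i') e
    intro s hs
    have := hw.cell s hs k hkM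
    simp only [cellOK, Bool.and_eq_true, Nat.ble_eq] at this
    exact this.1.1

theorem disjoint (hb : D.Basic q) {k k' : ℕ} (hkM : k < D.M) (hkM' : k' < D.M) (hne' : k ≠ k')
    (i : ZMod (D.n q)) : D.F q k i ≠ D.F q k' i := by
  have hne := hb.neZero
  obtain ⟨h1, h2, h3⟩ := hw.row_spec (ZMod.val_lt i)
  intro e
  refine hw.dis _ h1 k hkM k' hkM' hne' 0 0 (by norm_num) (by norm_num) ?_
  unfold F at e
  push_cast at e ⊢
  have := add_right_cancel e
  rw [this]

theorem avoid (hb : D.Basic q) (hk : D.Blocks q) {k : ℕ} (hkM : k < D.M) (i : ZMod (D.n q))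
    (t : ZMod (D.n q)) (ht : t ∈ castSet (D.n q) (D.Tn q)) :
    ¬ Blk ((D.h q : ℕ) : ZMod (D.n q)) t (2 * D.F q k i - D.B q i (D.F q k i)) := by
  have hne := hb.neZero
  have hn := hb.hn
  obtain ⟨u, hu, rfl⟩ := Finset.mem_image.1 ht
  obtain ⟨κ, hκ, hv⟩ := (hw.spec hb hk hkM i).2
  generalize 2 * D.F q k i - D.B q i (D.F q k i) = v at hv
  have h1 := hk.Tn_lt hu
  rw [blk_iff hn, Nat.mod_eq_of_lt (show u < D.h q by omega), Nat.mod_eq_of_lt h1]
  have h2 := hk.w1 κ hκ
  have h3 := (eq_or_add_h_iff hn (κ.ev q) v).1 hv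
  rw [Nat.mod_eq_of_lt h2.1] at h3
  have h4 := hk.Tn_out hu h2.2
  omega

end Win

/-- SOUNDNESS: a checked certificate gives all values -/
theorem sound (D : Dat) (hD : D.check = true) (q : ℕ) {j : ℕ}
    (hj : j ≤ D.m1.ev q + D.m2.ev q + D.U.length) : Attains (D.N.ev q) (4 * j + D.rr) := by
  classical
  simp only [check, Bool.and_eq_true] at hD
  obtain ⟨⟨⟨c1, c2⟩, c3⟩, c4⟩ := hD
  have hb := basic_of_chk (q := q) c1
  have hk := blocks_of_chk (q := q) c3
  have hw := win_of_chk (q := q) c4
  have hne := hb.neZero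
  have hn := hb.hn
  have hh := hb.hh
  have hcU : (D.U' q).card = D.U.length := by
    unfold U'
    rw [card_castSet hn (fun u hu => (hk.u1 u hu).1), hk.uc]
  have hcT : (castSet (D.n q) (D.Tn q)).card = D.m1.ev q + D.m2.ev q := by
    rw [card_castSet hn (fun u hu => by have := hk.Tn_lt hu; omega), hk.Tn_card]
  have hr01 : ((((D.R 0).ev q : ℕ) : ZMod (D.n q))) + 1 = ((D.R 1).ev q : ℕ) := by
    rw [hb.r1]; push_cast; rfl
  have hr23 : ((((D.R 2).ev q : ℕ) : ZMod (D.n q))) + 1 = ((D.R 3).ev q : ℕ) := by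
    rw [hb.r3]; push_cast; rfl
  have hcne : ∀ a b, a ≤ 3 → b ≤ 3 → a ≠ b →
      (((D.R a).ev q : ℕ) : ZMod (D.n q)) ≠ ((D.R b).ev q : ℕ) := by
    intro a b ha hb' hab e
    have h1 := hb.R_lt (a := a)
    have h2 := hb.R_lt (a := b)
    exact hb.R_ne ha hb' hab (natCast_inj_of_lt (by omega) (by omega) e)
  have hsp : ∀ a, ¬ SpRow (D.h q) (((D.R a).ev q : ℕ) : ZMod (D.n q)) := by
    intro a
    rw [spRow_iff hn hh, R_val hb]
    have h1 := hb.R_lt (a := a)
    omega
  refine assemble2 hn hh hb.latin (p := ((D.R 0).ev q : ℕ)) (q := ((D.R 2).ev q : ℕ))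
    ?_ ?_ ?_ (T := castSet (D.n q) (D.Tn q)) (U := D.U' q) (hk.disjTU hb) (hk.disj hb)
    (hk.not_tcol hb) (hk.pairs hb) (D.H0 q) (H0_card c2) (hits hb c2)
    (κ := Fin D.M) ?_ (fun k => D.F q k) ?_ ?_ ?_ ?_
  · rw [hr01, hr23]
    exact ⟨hcne 0 2 (by norm_num) (by norm_num) (by norm_num),
      hcne 0 3 (by norm_num) (by norm_num) (by norm_num),
      hcne 1 2 (by norm_num) (by norm_num) (by norm_num)⟩
  · rw [hr01, hr23]
    exact ⟨hsp 0, hsp 1, hsp 2, hsp 3⟩
  · rw [hr01, hr23]
    intro i c h0 h1 h2 h3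
    have hi : ∀ j ≤ 3, i.val ≠ (D.R j).ev q := by
      intro j hj e
      have e2 : i = ((D.R j).ev q : ℕ) := by
        apply ZMod.val_injective
        rw [R_val hb]; exact e
      interval_cases j
      · exact h0 e2
      · exact h1 e2
      · exact h2 e2
      · exact h3 e2
    unfold B
    rw [hb.vr_reg hi]
    simp only [ZMod.natCast_val, ZMod.cast_id', id_eq]
    ring
  · rw [Fintype.card_fin, hcU]; rfl
  · exact fun k => hw.isTrans hb hk k.2
  · intro k l hkl i
    exact hw.disjoint hb k.2 l.2 (fun e => hkl (Fin.ext e)) i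
  · exact fun k i t ht => hw.avoid hb hk k.2 i t ht
  · rw [hcT, hcU]; exact hj

end Dat

end Pool.Agent.Hhelper81.LT
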