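import Mathlib
import Pool.Agent.Hhelper81.LT.DatWin

set_option autoImplicit false

/-!
Certificates for the values `m = 1 mod 4`, orders `n = 2 mod 4`.
-/

namespace Pool.Agent.Hhelper81.LT

/-- certificate data -/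
def d1o : Dat where
  N := ⟨18,8⟩
  H := ⟨9,4⟩
  R0 := ⟨0,0⟩
  R1 := ⟨1,0⟩
  R2 := ⟨4,2⟩
  R3 := ⟨5,2⟩
  zs := [⟨⟨0,0⟩, ⟨4,2⟩, 0, 1, 2, 3⟩, ⟨⟨4,2⟩, ⟨1,0⟩, 3, 1, 2, 0⟩, ⟨⟨5,2⟩, ⟨4,2⟩, 0, 1, 2, 3⟩, ⟨⟨9,4⟩, ⟨1,0⟩, 3, 1, 2, 0⟩, ⟨⟨10,4⟩, ⟨3,2⟩, 0, 1, 2, 3⟩, ⟨⟨13,6⟩, ⟨1,0⟩, 0, 3, 2, 1⟩, ⟨⟨14,6⟩, ⟨3,2⟩, 1, 0, 2, 3⟩, ⟨⟨17,8⟩, ⟨1,0⟩, 3, 0, 2, 1⟩]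
  h0 := [(1, ⟨13,6⟩)]
  rr := 1
  lo1 := ⟨1,0⟩
  m1 := ⟨1,1⟩
  lo2 := ⟨5,2⟩
  m2 := ⟨1,1⟩
  W := [⟨7,4⟩, ⟨8,4⟩, ⟨0,0⟩, ⟨3,2⟩, ⟨4,2⟩]
  U := [⟨3,2⟩]
  rows := [
    ⟨⟨0,0⟩, ⟨1,0⟩, 1, [⟨⟨4,2⟩, 1, ⟨4,2⟩⟩, ⟨⟨8,4⟩, 0, ⟨4,2⟩⟩, ⟨⟨3,2⟩, 1, ⟨1,1⟩⟩, ⟨⟨7,4⟩, 1, ⟨3,2⟩⟩, ⟨⟨9,4⟩, 0, ⟨7,3⟩⟩]⟩,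
    ⟨⟨1,0⟩, ⟨1,0⟩, 2, [⟨⟨13,6⟩, 0, ⟨0,0⟩⟩, ⟨⟨9,4⟩, 0, ⟨5,2⟩⟩, ⟨⟨4,2⟩, 1, ⟨2,1⟩⟩, ⟨⟨0,0⟩, 1, ⟨0,0⟩⟩, ⟨⟨5,2⟩, 0, ⟨3,1⟩⟩]⟩,
    ⟨⟨2,0⟩, ⟨1,1⟩, 0, [⟨⟨9,4⟩, 1, ⟨5,2⟩⟩, ⟨⟨10,4⟩, 0, ⟨6,2⟩⟩, ⟨⟨5,2⟩, 1, ⟨3,1⟩⟩, ⟨⟨1,0⟩, 1, ⟨1,0⟩⟩, ⟨⟨6,2⟩, 0, ⟨4,1⟩⟩]⟩,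
    ⟨⟨3,1⟩, ⟨1,1⟩, 0, [⟨⟨11,5⟩, 0, ⟨7,3⟩⟩, ⟨⟨6,3⟩, 1, ⟨4,2⟩⟩, ⟨⟨1,1⟩, 0, ⟨2,1⟩⟩, ⟨⟨2,1⟩, 1, ⟨2,1⟩⟩, ⟨⟨7,3⟩, 0, ⟨5,2⟩⟩]⟩,
    ⟨⟨4,2⟩, ⟨1,0⟩, 3, [⟨⟨8,4⟩, 0, ⟨6,3⟩⟩, ⟨⟨13,6⟩, 1, ⟨8,4⟩⟩, ⟨⟨2,2⟩, 0, ⟨3,2⟩⟩, ⟨⟨11,6⟩, 1, ⟨7,4⟩⟩, ⟨⟨16,8⟩, 0, ⟨1,1⟩⟩]⟩,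
    ⟨⟨5,2⟩, ⟨1,0⟩, 4, [⟨⟨3,2⟩, 0, ⟨4,2⟩⟩, ⟨⟨14,6⟩, 1, ⟨0,0⟩⟩, ⟨⟨8,4⟩, 1, ⟨6,3⟩⟩, ⟨⟨12,6⟩, 1, ⟨8,4⟩⟩, ⟨⟨4,2⟩, 0, ⟨2,1⟩⟩]⟩,
    ⟨⟨6,2⟩, ⟨1,1⟩, 0, [⟨⟨14,6⟩, 0, ⟨1,0⟩⟩, ⟨⟨15,6⟩, 1, ⟨1,0⟩⟩, ⟨⟨9,4⟩, 1, ⟨7,3⟩⟩, ⟨⟨4,2⟩, 0, ⟨5,2⟩⟩, ⟨⟨10,4⟩, 0, ⟨8,3⟩⟩]⟩,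
    ⟨⟨7,3⟩, ⟨1,1⟩, 0, [⟨⟨15,7⟩, 0, ⟨2,1⟩⟩, ⟨⟨16,7⟩, 1, ⟨2,1⟩⟩, ⟨⟨10,5⟩, 1, ⟨8,4⟩⟩, ⟨⟨6,3⟩, 1, ⟨6,3⟩⟩, ⟨⟨11,5⟩, 0, ⟨0,0⟩⟩]⟩,
    ⟨⟨8,4⟩, ⟨1,0⟩, 5, [⟨⟨16,8⟩, 0, ⟨3,2⟩⟩, ⟨⟨17,8⟩, 1, ⟨3,2⟩⟩, ⟨⟨11,6⟩, 1, ⟨0,1⟩⟩, ⟨⟨3,2⟩, 0, ⟨1,1⟩⟩, ⟨⟨12,6⟩, 1, ⟨5,3⟩⟩]⟩,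
    ⟨⟨9,4⟩, ⟨1,0⟩, 0, [⟨⟨12,6⟩, 1, ⟨1,1⟩⟩, ⟨⟨4,2⟩, 1, ⟨6,3⟩⟩, ⟨⟨7,4⟩, 0, ⟨8,4⟩⟩, ⟨⟨17,8⟩, 0, ⟨4,2⟩⟩, ⟨⟨3,2⟩, 0, ⟨6,3⟩⟩]⟩,
    ⟨⟨10,4⟩, ⟨1,1⟩, 0, [⟨⟨0,0⟩, 0, ⟨5,2⟩⟩, ⟨⟨5,2⟩, 1, ⟨7,3⟩⟩, ⟨⟨17,8⟩, 1, ⟨4,2⟩⟩, ⟨⟨8,4⟩, 0, ⟨0,0⟩⟩, ⟨⟨13,6⟩, 1, ⟨2,1⟩⟩]⟩,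
    ⟨⟨11,5⟩, ⟨1,0⟩, 0, [⟨⟨6,3⟩, 1, ⟨8,4⟩⟩, ⟨⟨11,5⟩, 0, ⟨2,1⟩⟩, ⟨⟨0,1⟩, 1, ⟨5,3⟩⟩, ⟨⟨5,3⟩, 0, ⟨8,4⟩⟩, ⟨⟨14,7⟩, 1, ⟨3,2⟩⟩]⟩,
    ⟨⟨12,5⟩, ⟨1,1⟩, 0, [⟨⟨1,1⟩, 1, ⟨6,3⟩⟩, ⟨⟨12,5⟩, 0, ⟨3,1⟩⟩, ⟨⟨6,3⟩, 0, ⟨0,0⟩⟩, ⟨⟨10,5⟩, 0, ⟨2,1⟩⟩, ⟨⟨15,7⟩, 1, ⟨4,2⟩⟩]⟩,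
    ⟨⟨13,6⟩, ⟨1,0⟩, 0, [⟨⟨2,2⟩, 1, ⟨7,4⟩⟩, ⟨⟨7,4⟩, 0, ⟨1,1⟩⟩, ⟨⟨13,6⟩, 0, ⟨4,2⟩⟩, ⟨⟨16,8⟩, 1, ⟨5,3⟩⟩, ⟨⟨8,4⟩, 1, ⟨1,1⟩⟩]⟩,
    ⟨⟨14,6⟩, ⟨1,1⟩, 0, [⟨⟨5,2⟩, 1, ⟨0,0⟩⟩, ⟨⟨0,0⟩, 0, ⟨7,3⟩⟩, ⟨⟨14,6⟩, 0, ⟨5,2⟩⟩, ⟨⟨13,6⟩, 1, ⟨4,2⟩⟩, ⟨⟨17,8⟩, 1, ⟨6,3⟩⟩]⟩,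
    ⟨⟨15,7⟩, ⟨1,0⟩, 0, [⟨⟨10,5⟩, 1, ⟨3,2⟩⟩, ⟨⟨1,1⟩, 0, ⟨8,4⟩⟩, ⟨⟨15,7⟩, 0, ⟨6,3⟩⟩, ⟨⟨9,5⟩, 0, ⟨3,2⟩⟩, ⟨⟨0,1⟩, 1, ⟨7,4⟩⟩]⟩,
    ⟨⟨16,7⟩, ⟨1,1⟩, 0, [⟨⟨7,3⟩, 1, ⟨2,1⟩⟩, ⟨⟨2,1⟩, 0, ⟨0,0⟩⟩, ⟨⟨16,7⟩, 0, ⟨7,3⟩⟩, ⟨⟨14,7⟩, 0, ⟨6,3⟩⟩, ⟨⟨1,1⟩, 1, ⟨8,4⟩⟩]⟩,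
    ⟨⟨17,8⟩, ⟨1,0⟩, 6, [⟨⟨17,8⟩, 0, ⟨8,4⟩⟩, ⟨⟨3,2⟩, 1, ⟨5,3⟩⟩, ⟨⟨12,6⟩, 0, ⟨1,1⟩⟩, ⟨⟨15,8⟩, 0, ⟨7,4⟩⟩, ⟨⟨2,2⟩, 1, ⟨0,1⟩⟩]⟩]

theorem d1o_ok : d1o.check = true := by decide +kernel

/-- certificate data -/
def d1e : Dat where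
  N := ⟨22,8⟩
  H := ⟨11,4⟩
  R0 := ⟨0,0⟩
  R1 := ⟨1,0⟩
  R2 := ⟨5,2⟩
  R3 := ⟨6,2⟩
  zs := [⟨⟨0,0⟩, ⟨5,2⟩, 0, 1, 2, 3⟩, ⟨⟨5,2⟩, ⟨1,0⟩, 3, 1, 2, 0⟩, ⟨⟨6,2⟩, ⟨5,2⟩, 0, 1, 2, 3⟩, ⟨⟨11,4⟩, ⟨1,0⟩, 3, 1, 2, 0⟩, ⟨⟨12,4⟩, ⟨4,2⟩, 0, 1, 2, 3⟩, ⟨⟨16,6⟩, ⟨1,0⟩, 0, 3, 2, 1⟩, ⟨⟨17,6⟩, ⟨4,2⟩, 1, 0, 2, 3⟩, ⟨⟨21,8⟩, ⟨1,0⟩, 3, 0, 2, 1⟩]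
  h0 := [(1, ⟨16,6⟩)]
  rr := 1
  lo1 := ⟨2,0⟩
  m1 := ⟨1,1⟩
  lo2 := ⟨7,2⟩
  m2 := ⟨1,1⟩
  W := [⟨9,4⟩, ⟨10,4⟩, ⟨0,0⟩, ⟨1,0⟩, ⟨4,2⟩, ⟨5,2⟩, ⟨6,2⟩]
  U := [⟨0,0⟩, ⟨4,2⟩]
  rows := [
    ⟨⟨0,0⟩, ⟨1,0⟩, 1, [⟨⟨21,8⟩, 1, ⟨2,1⟩⟩, ⟨⟨18,6⟩, 1, ⟨9,3⟩⟩, ⟨⟨6,2⟩, 0, ⟨3,1⟩⟩, ⟨⟨1,0⟩, 1, ⟨0,0⟩⟩, ⟨⟨12,4⟩, 0, ⟨6,2⟩⟩, ⟨⟨0,0⟩, 0, ⟨0,0⟩⟩, ⟨⟨5,2⟩, 1, ⟨5,2⟩⟩, ⟨⟨17,6⟩, 0, ⟨9,3⟩⟩, ⟨⟨16,6⟩, 0, ⟨8,3⟩⟩]⟩,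
    ⟨⟨1,0⟩, ⟨1,0⟩, 2, [⟨⟨16,6⟩, 0, ⟨0,0⟩⟩, ⟨⟨17,6⟩, 1, ⟨8,3⟩⟩, ⟨⟨2,0⟩, 1, ⟨1,0⟩⟩, ⟨⟨7,2⟩, 0, ⟨4,1⟩⟩, ⟨⟨13,4⟩, 0, ⟨7,2⟩⟩, ⟨⟨5,2⟩, 0, ⟨3,1⟩⟩, ⟨⟨20,8⟩, 0, ⟨10,4⟩⟩, ⟨⟨21,8⟩, 1, ⟨10,4⟩⟩, ⟨⟨6,2⟩, 1, ⟨3,1⟩⟩]⟩,
    ⟨⟨2,0⟩, ⟨2,1⟩, 0, [⟨⟨0,0⟩, 0, ⟨1,0⟩⟩, ⟨⟨19,6⟩, 1, ⟨10,3⟩⟩, ⟨⟨3,0⟩, 1, ⟨2,0⟩⟩, ⟨⟨8,2⟩, 0, ⟨5,1⟩⟩, ⟨⟨14,4⟩, 0, ⟨8,2⟩⟩, ⟨⟨6,2⟩, 0, ⟨4,1⟩⟩, ⟨⟨12,4⟩, 0, ⟨7,2⟩⟩, ⟨⟨11,4⟩, 1, ⟨6,2⟩⟩, ⟨⟨7,2⟩, 1, ⟨4,1⟩⟩]⟩,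
    ⟨⟨4,1⟩, ⟨1,1⟩, 0, [⟨⟨2,1⟩, 0, ⟨3,1⟩⟩, ⟨⟨21,7⟩, 1, ⟨1,0⟩⟩, ⟨⟨10,3⟩, 0, ⟨7,2⟩⟩, ⟨⟨5,1⟩, 1, ⟨4,1⟩⟩, ⟨⟨16,5⟩, 0, ⟨10,3⟩⟩, ⟨⟨13,5⟩, 1, ⟨8,3⟩⟩, ⟨⟨14,5⟩, 0, ⟨9,3⟩⟩, ⟨⟨20,7⟩, 0, ⟨1,0⟩⟩, ⟨⟨19,7⟩, 1, ⟨0,0⟩⟩]⟩,
    ⟨⟨5,2⟩, ⟨1,0⟩, 3, [⟨⟨3,2⟩, 0, ⟨4,2⟩⟩, ⟨⟨6,2⟩, 1, ⟨5,2⟩⟩, ⟨⟨17,6⟩, 0, ⟨0,0⟩⟩, ⟨⟨11,4⟩, 0, ⟨8,3⟩⟩, ⟨⟨0,0⟩, 1, ⟨2,1⟩⟩, ⟨⟨14,6⟩, 1, ⟨9,4⟩⟩, ⟨⟨4,2⟩, 1, ⟨4,2⟩⟩, ⟨⟨5,2⟩, 0, ⟨5,2⟩⟩, ⟨⟨20,8⟩, 1, ⟨1,1⟩⟩]⟩,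
    ⟨⟨6,2⟩, ⟨1,0⟩, 4, [⟨⟨10,4⟩, 0, ⟨8,3⟩⟩, ⟨⟨12,4⟩, 0, ⟨9,3⟩⟩, ⟨⟨7,2⟩, 1, ⟨6,2⟩⟩, ⟨⟨18,6⟩, 0, ⟨1,0⟩⟩, ⟨⟨1,0⟩, 1, ⟨3,1⟩⟩, ⟨⟨15,6⟩, 1, ⟨10,4⟩⟩, ⟨⟨16,6⟩, 1, ⟨8,3⟩⟩, ⟨⟨6,2⟩, 0, ⟨6,2⟩⟩, ⟨⟨0,0⟩, 0, ⟨3,1⟩⟩]⟩,
    ⟨⟨7,2⟩, ⟨2,1⟩, 0, [⟨⟨11,4⟩, 0, ⟨9,3⟩⟩, ⟨⟨13,4⟩, 0, ⟨10,3⟩⟩, ⟨⟨8,2⟩, 1, ⟨7,2⟩⟩, ⟨⟨19,6⟩, 0, ⟨2,0⟩⟩, ⟨⟨2,0⟩, 1, ⟨4,1⟩⟩, ⟨⟨17,6⟩, 0, ⟨1,0⟩⟩, ⟨⟨6,2⟩, 1, ⟨6,2⟩⟩, ⟨⟨0,0⟩, 1, ⟨3,1⟩⟩, ⟨⟨1,0⟩, 0, ⟨4,1⟩⟩]⟩,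
    ⟨⟨9,3⟩, ⟨1,1⟩, 0, [⟨⟨8,3⟩, 1, ⟨8,3⟩⟩, ⟨⟨4,1⟩, 1, ⟨6,2⟩⟩, ⟨⟨15,5⟩, 0, ⟨1,0⟩⟩, ⟨⟨10,3⟩, 1, ⟨9,3⟩⟩, ⟨⟨21,7⟩, 0, ⟨4,1⟩⟩, ⟨⟨3,1⟩, 0, ⟨6,2⟩⟩, ⟨⟨18,7⟩, 1, ⟨2,1⟩⟩, ⟨⟨14,5⟩, 1, ⟨0,0⟩⟩, ⟨⟨9,3⟩, 0, ⟨9,3⟩⟩]⟩,
    ⟨⟨10,4⟩, ⟨1,0⟩, 5, [⟨⟨9,4⟩, 1, ⟨9,4⟩⟩, ⟨⟨5,2⟩, 1, ⟨7,3⟩⟩, ⟨⟨16,6⟩, 0, ⟨2,1⟩⟩, ⟨⟨0,0⟩, 1, ⟨10,4⟩⟩, ⟨⟨11,4⟩, 0, ⟨5,2⟩⟩, ⟨⟨10,4⟩, 0, ⟨10,4⟩⟩, ⟨⟨19,8⟩, 1, ⟨3,2⟩⟩, ⟨⟨4,2⟩, 1, ⟨1,1⟩⟩, ⟨⟨15,6⟩, 0, ⟨7,3⟩⟩]⟩,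
    ⟨⟨11,4⟩, ⟨1,0⟩, 0, [⟨⟨4,2⟩, 1, ⟨7,3⟩⟩, ⟨⟨1,0⟩, 0, ⟨6,2⟩⟩, ⟨⟨12,4⟩, 1, ⟨0,0⟩⟩, ⟨⟨6,2⟩, 1, ⟨8,3⟩⟩, ⟨⟨17,6⟩, 0, ⟨3,1⟩⟩, ⟨⟨16,6⟩, 1, ⟨2,1⟩⟩, ⟨⟨21,8⟩, 0, ⟨5,2⟩⟩, ⟨⟨15,6⟩, 0, ⟨2,1⟩⟩, ⟨⟨11,4⟩, 0, ⟨0,0⟩⟩]⟩,
    ⟨⟨12,4⟩, ⟨1,0⟩, 0, [⟨⟨17,6⟩, 1, ⟨3,1⟩⟩, ⟨⟨2,0⟩, 0, ⟨7,2⟩⟩, ⟨⟨18,6⟩, 0, ⟨4,1⟩⟩, ⟨⟨13,4⟩, 1, ⟨1,0⟩⟩, ⟨⟨7,2⟩, 1, ⟨9,3⟩⟩, ⟨⟨1,0⟩, 1, ⟨6,2⟩⟩, ⟨⟨0,0⟩, 0, ⟨6,2⟩⟩, ⟨⟨10,4⟩, 0, ⟨0,0⟩⟩, ⟨⟨12,4⟩, 0, ⟨1,0⟩⟩]⟩,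
    ⟨⟨13,4⟩, ⟨1,1⟩, 0, [⟨⟨18,6⟩, 1, ⟨4,1⟩⟩, ⟨⟨3,0⟩, 0, ⟨8,2⟩⟩, ⟨⟨19,6⟩, 0, ⟨5,1⟩⟩, ⟨⟨14,4⟩, 1, ⟨2,0⟩⟩, ⟨⟨8,2⟩, 1, ⟨10,3⟩⟩, ⟨⟨2,0⟩, 1, ⟨7,2⟩⟩, ⟨⟨17,6⟩, 0, ⟨4,1⟩⟩, ⟨⟨7,2⟩, 0, ⟨10,3⟩⟩, ⟨⟨13,4⟩, 0, ⟨2,0⟩⟩]⟩,
    ⟨⟨14,5⟩, ⟨1,0⟩, 0, [⟨⟨7,3⟩, 1, ⟨10,4⟩⟩, ⟨⟨15,5⟩, 1, ⟨3,1⟩⟩, ⟨⟨20,7⟩, 0, ⟨6,2⟩⟩, ⟨⟨4,1⟩, 0, ⟨9,3⟩⟩, ⟨⟨9,3⟩, 1, ⟨0,0⟩⟩, ⟨⟨19,7⟩, 1, ⟨5,2⟩⟩, ⟨⟨8,3⟩, 0, ⟨0,0⟩⟩, ⟨⟨13,5⟩, 1, ⟨2,1⟩⟩, ⟨⟨3,1⟩, 1, ⟨8,3⟩⟩]⟩,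
    ⟨⟨15,5⟩, ⟨1,1⟩, 0, [⟨⟨19,7⟩, 0, ⟨6,2⟩⟩, ⟨⟨16,5⟩, 1, ⟨4,1⟩⟩, ⟨⟨5,1⟩, 0, ⟨10,3⟩⟩, ⟨⟨21,7⟩, 0, ⟨7,2⟩⟩, ⟨⟨10,3⟩, 1, ⟨1,0⟩⟩, ⟨⟨8,3⟩, 1, ⟨0,0⟩⟩, ⟨⟨9,3⟩, 0, ⟨1,0⟩⟩, ⟨⟨2,1⟩, 1, ⟨8,3⟩⟩, ⟨⟨4,1⟩, 1, ⟨9,3⟩⟩]⟩,
    ⟨⟨16,6⟩, ⟨1,0⟩, 0, [⟨⟨20,8⟩, 0, ⟨7,3⟩⟩, ⟨⟨11,4⟩, 1, ⟨2,1⟩⟩, ⟨⟨0,0⟩, 0, ⟨8,3⟩⟩, ⟨⟨17,6⟩, 1, ⟨5,2⟩⟩, ⟨⟨6,2⟩, 0, ⟨0,0⟩⟩, ⟨⟨9,4⟩, 1, ⟨1,1⟩⟩, ⟨⟨10,4⟩, 0, ⟨2,1⟩⟩, ⟨⟨3,2⟩, 1, ⟨9,4⟩⟩, ⟨⟨5,2⟩, 1, ⟨10,4⟩⟩]⟩,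
    ⟨⟨17,6⟩, ⟨1,0⟩, 0, [⟨⟨15,6⟩, 0, ⟨5,2⟩⟩, ⟨⟨7,2⟩, 0, ⟨1,0⟩⟩, ⟨⟨1,0⟩, 0, ⟨9,3⟩⟩, ⟨⟨12,4⟩, 1, ⟨3,1⟩⟩, ⟨⟨18,6⟩, 1, ⟨6,2⟩⟩, ⟨⟨21,8⟩, 0, ⟨8,3⟩⟩, ⟨⟨11,4⟩, 0, ⟨3,1⟩⟩, ⟨⟨16,6⟩, 1, ⟨5,2⟩⟩, ⟨⟨10,4⟩, 1, ⟨2,1⟩⟩]⟩,
    ⟨⟨18,6⟩, ⟨2,1⟩, 0, [⟨⟨5,2⟩, 1, ⟨0,0⟩⟩, ⟨⟨8,2⟩, 0, ⟨2,0⟩⟩, ⟨⟨13,4⟩, 1, ⟨4,1⟩⟩, ⟨⟨2,0⟩, 0, ⟨10,3⟩⟩, ⟨⟨19,6⟩, 1, ⟨7,2⟩⟩, ⟨⟨11,4⟩, 1, ⟨3,1⟩⟩, ⟨⟨1,0⟩, 1, ⟨9,3⟩⟩, ⟨⟨18,6⟩, 0, ⟨7,2⟩⟩, ⟨⟨17,6⟩, 1, ⟨6,2⟩⟩]⟩,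
    ⟨⟨20,7⟩, ⟨1,1⟩, 0, [⟨⟨13,5⟩, 1, ⟨5,2⟩⟩, ⟨⟨10,3⟩, 0, ⟨4,1⟩⟩, ⟨⟨21,7⟩, 1, ⟨9,3⟩⟩, ⟨⟨15,5⟩, 1, ⟨6,2⟩⟩, ⟨⟨4,1⟩, 0, ⟨1,0⟩⟩, ⟨⟨20,7⟩, 0, ⟨9,3⟩⟩, ⟨⟨3,1⟩, 1, ⟨0,0⟩⟩, ⟨⟨8,3⟩, 0, ⟨3,1⟩⟩, ⟨⟨14,5⟩, 0, ⟨6,2⟩⟩]⟩,
    ⟨⟨21,8⟩, ⟨1,0⟩, 6, [⟨⟨14,6⟩, 1, ⟨6,3⟩⟩, ⟨⟨0,0⟩, 0, ⟨5,2⟩⟩, ⟨⟨11,4⟩, 1, ⟨10,4⟩⟩, ⟨⟨16,6⟩, 1, ⟨7,3⟩⟩, ⟨⟨5,2⟩, 0, ⟨2,1⟩⟩, ⟨⟨4,2⟩, 0, ⟨7,3⟩⟩, ⟨⟨15,6⟩, 1, ⟨1,1⟩⟩, ⟨⟨9,4⟩, 0, ⟨4,2⟩⟩, ⟨⟨21,8⟩, 0, ⟨10,4⟩⟩]⟩]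

theorem d1e_ok : d1e.check = true := by decide +kernel

/-- certificate data -/
def d1_3 : Dat where
  N := ⟨10,0⟩
  H := ⟨5,0⟩
  R0 := ⟨0,0⟩
  R1 := ⟨1,0⟩
  R2 := ⟨2,0⟩
  R3 := ⟨3,0⟩
  zs := [⟨⟨0,0⟩, ⟨2,0⟩, 0, 1, 2, 3⟩, ⟨⟨2,0⟩, ⟨1,0⟩, 3, 1, 2, 0⟩, ⟨⟨3,0⟩, ⟨2,0⟩, 0, 1, 2, 3⟩, ⟨⟨5,0⟩, ⟨1,0⟩, 3, 1, 2, 0⟩, ⟨⟨6,0⟩, ⟨1,0⟩, 0, 1, 2, 3⟩, ⟨⟨7,0⟩, ⟨1,0⟩, 0, 3, 2, 1⟩, ⟨⟨8,0⟩, ⟨1,0⟩, 1, 0, 2, 3⟩, ⟨⟨9,0⟩, ⟨1,0⟩, 3, 0, 2,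 1⟩]
  h0 := [(1, ⟨7,0⟩)]
  rr := 1
  lo1 := ⟨0,0⟩
  m1 := ⟨0,0⟩
  lo2 := ⟨0,0⟩
  m2 := ⟨0,0⟩
  W := [⟨0,0⟩, ⟨1,0⟩, ⟨2,0⟩, ⟨3,0⟩, ⟨4,0⟩]
  U := [⟨2,0⟩]
  rows := [
    ⟨⟨0,0⟩, ⟨1,0⟩, 1, [⟨⟨5,0⟩, 0, ⟨4,0⟩⟩, ⟨⟨0,0⟩, 0, ⟨0,0⟩⟩, ⟨⟨4,0⟩, 0, ⟨2,0⟩⟩, ⟨⟨6,0⟩, 0, ⟨3,0⟩⟩, ⟨⟨9,0⟩, 0, ⟨1,0⟩⟩]⟩,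
    ⟨⟨1,0⟩, ⟨1,0⟩, 2, [⟨⟨7,0⟩, 0, ⟨0,0⟩⟩, ⟨⟨1,0⟩, 0, ⟨1,0⟩⟩, ⟨⟨2,0⟩, 1, ⟨1,0⟩⟩, ⟨⟨3,0⟩, 0, ⟨2,0⟩⟩, ⟨⟨0,0⟩, 1, ⟨0,0⟩⟩]⟩,
    ⟨⟨2,0⟩, ⟨1,0⟩, 3, [⟨⟨2,0⟩, 0, ⟨2,0⟩⟩, ⟨⟨6,0⟩, 0, ⟨4,0⟩⟩, ⟨⟨3,0⟩, 1, ⟨2,0⟩⟩, ⟨⟨5,0⟩, 1, ⟨3,0⟩⟩, ⟨⟨8,0⟩, 0, ⟨0,0⟩⟩]⟩,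
    ⟨⟨3,0⟩, ⟨1,0⟩, 4, [⟨⟨4,0⟩, 1, ⟨3,0⟩⟩, ⟨⟨8,0⟩, 1, ⟨0,0⟩⟩, ⟨⟨6,0⟩, 1, ⟨4,0⟩⟩, ⟨⟨0,0⟩, 1, ⟨1,0⟩⟩, ⟨⟨5,0⟩, 1, ⟨2,0⟩⟩]⟩,
    ⟨⟨4,0⟩, ⟨1,0⟩, 5, [⟨⟨1,0⟩, 1, ⟨2,0⟩⟩, ⟨⟨3,0⟩, 1, ⟨3,0⟩⟩, ⟨⟨8,0⟩, 0, ⟨1,0⟩⟩, ⟨⟨2,0⟩, 1, ⟨0,0⟩⟩, ⟨⟨7,0⟩, 0, ⟨3,0⟩⟩]⟩,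
    ⟨⟨5,0⟩, ⟨1,0⟩, 0, [⟨⟨8,0⟩, 1, ⟨1,0⟩⟩, ⟨⟨4,0⟩, 1, ⟨4,0⟩⟩, ⟨⟨5,0⟩, 0, ⟨0,0⟩⟩, ⟨⟨7,0⟩, 0, ⟨1,0⟩⟩, ⟨⟨3,0⟩, 0, ⟨4,0⟩⟩]⟩,
    ⟨⟨6,0⟩, ⟨1,0⟩, 0, [⟨⟨6,0⟩, 0, ⟨1,0⟩⟩, ⟨⟨9,0⟩, 1, ⟨2,0⟩⟩, ⟨⟨0,0⟩, 0, ⟨3,0⟩⟩, ⟨⟨4,0⟩, 0, ⟨0,0⟩⟩, ⟨⟨1,0⟩, 1, ⟨3,0⟩⟩]⟩,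
    ⟨⟨7,0⟩, ⟨1,0⟩, 0, [⟨⟨9,0⟩, 0, ⟨3,0⟩⟩, ⟨⟨7,0⟩, 0, ⟨2,0⟩⟩, ⟨⟨1,0⟩, 0, ⟨4,0⟩⟩, ⟨⟨8,0⟩, 1, ⟨2,0⟩⟩, ⟨⟨2,0⟩, 1, ⟨4,0⟩⟩]⟩,
    ⟨⟨8,0⟩, ⟨1,0⟩, 0, [⟨⟨3,0⟩, 1, ⟨0,0⟩⟩, ⟨⟨5,0⟩, 1, ⟨1,0⟩⟩, ⟨⟨9,0⟩, 1, ⟨3,0⟩⟩, ⟨⟨1,0⟩, 1, ⟨4,0⟩⟩, ⟨⟨6,0⟩, 0, ⟨2,0⟩⟩]⟩,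
    ⟨⟨9,0⟩, ⟨1,0⟩, 6, [⟨⟨0,0⟩, 1, ⟨4,0⟩⟩, ⟨⟨2,0⟩, 0, ⟨3,0⟩⟩, ⟨⟨7,0⟩, 1, ⟨0,0⟩⟩, ⟨⟨9,0⟩, 0, ⟨4,0⟩⟩, ⟨⟨4,0⟩, 1, ⟨1,0⟩⟩]⟩]

theorem d1_3_ok : d1_3.check = true := by decide +kernel

/-- certificate data -/
def d1_4 : Dat where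
  N := ⟨14,0⟩
  H := ⟨7,0⟩
  R0 := ⟨0,0⟩
  R1 := ⟨1,0⟩
  R2 := ⟨3,0⟩
  R3 := ⟨4,0⟩
  zs := [⟨⟨0,0⟩, ⟨3,0⟩, 0, 1, 2, 3⟩, ⟨⟨3,0⟩, ⟨1,0⟩, 3, 1, 2, 0⟩, ⟨⟨4,0⟩, ⟨3,0⟩, 0, 1, 2, 3⟩, ⟨⟨7,0⟩, ⟨1,0⟩, 3, 1, 2, 0⟩, ⟨⟨8,0⟩, ⟨2,0⟩, 0, 1, 2, 3⟩, ⟨⟨10,0⟩, ⟨1,0⟩, 0, 3, 2, 1⟩, ⟨⟨11,0⟩, ⟨2,0⟩, 1, 0, 2, 3⟩, ⟨⟨13,0⟩, ⟨1,0⟩, 3, 0, 2, 1⟩]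
  h0 := [(1, ⟨10,0⟩)]
  rr := 1
  lo1 := ⟨0,0⟩
  m1 := ⟨0,0⟩
  lo2 := ⟨0,0⟩
  m2 := ⟨0,0⟩
  W := [⟨0,0⟩, ⟨1,0⟩, ⟨2,0⟩, ⟨3,0⟩, ⟨4,0⟩, ⟨5,0⟩, ⟨6,0⟩]
  U := [⟨5,0⟩, ⟨6,0⟩]
  rows := [
    ⟨⟨0,0⟩, ⟨1,0⟩, 1, [⟨⟨7,0⟩, 1, ⟨5,0⟩⟩, ⟨⟨13,0⟩, 1, ⟨1,0⟩⟩, ⟨⟨11,0⟩, 0, ⟨6,0⟩⟩, ⟨⟨12,0⟩, 1, ⟨6,0⟩⟩, ⟨⟨10,0⟩, 0, ⟨5,0⟩⟩, ⟨⟨9,0⟩, 1, ⟨4,0⟩⟩, ⟨⟨8,0⟩, 0, ⟨4,0⟩⟩, ⟨⟨4,0⟩, 0, ⟨2,0⟩⟩, ⟨⟨2,0⟩, 0, ⟨1,0⟩⟩]⟩,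
    ⟨⟨1,0⟩, ⟨1,0⟩, 2, [⟨⟨10,0⟩, 0, ⟨0,0⟩⟩, ⟨⟨4,0⟩, 1, ⟨2,0⟩⟩, ⟨⟨13,0⟩, 1, ⟨6,0⟩⟩, ⟨⟨11,0⟩, 1, ⟨5,0⟩⟩, ⟨⟨8,0⟩, 1, ⟨4,0⟩⟩, ⟨⟨7,0⟩, 0, ⟨4,0⟩⟩, ⟨⟨9,0⟩, 0, ⟨5,0⟩⟩, ⟨⟨5,0⟩, 0, ⟨3,0⟩⟩, ⟨⟨3,0⟩, 0, ⟨2,0⟩⟩]⟩,
    ⟨⟨2,0⟩, ⟨1,0⟩, 0, [⟨⟨11,0⟩, 1, ⟨6,0⟩⟩, ⟨⟨6,0⟩, 0, ⟨4,0⟩⟩, ⟨⟨1,0⟩, 1, ⟨1,0⟩⟩, ⟨⟨0,0⟩, 0, ⟨1,0⟩⟩, ⟨⟨13,0⟩, 1, ⟨0,0⟩⟩, ⟨⟨12,0⟩, 0, ⟨0,0⟩⟩, ⟨⟨5,0⟩, 1, ⟨3,0⟩⟩, ⟨⟨10,0⟩, 0, ⟨6,0⟩⟩, ⟨⟨4,0⟩, 0, ⟨3,0⟩⟩]⟩,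
    ⟨⟨3,0⟩, ⟨1,0⟩, 3, [⟨⟨1,0⟩, 0, ⟨2,0⟩⟩, ⟨⟨11,0⟩, 0, ⟨0,0⟩⟩, ⟨⟨2,0⟩, 1, ⟨2,0⟩⟩, ⟨⟨9,0⟩, 0, ⟨6,0⟩⟩, ⟨⟨0,0⟩, 1, ⟨1,0⟩⟩, ⟨⟨3,0⟩, 0, ⟨3,0⟩⟩, ⟨⟨6,0⟩, 1, ⟨4,0⟩⟩, ⟨⟨7,0⟩, 0, ⟨5,0⟩⟩, ⟨⟨10,0⟩, 1, ⟨6,0⟩⟩]⟩,
    ⟨⟨4,0⟩, ⟨1,0⟩, 4, [⟨⟨8,0⟩, 0, ⟨6,0⟩⟩, ⟨⟨7,0⟩, 1, ⟨3,0⟩⟩, ⟨⟨6,0⟩, 0, ⟨5,0⟩⟩, ⟨⟨4,0⟩, 0, ⟨4,0⟩⟩, ⟨⟨2,0⟩, 0, ⟨3,0⟩⟩, ⟨⟨11,0⟩, 1, ⟨0,0⟩⟩, ⟨⟨0,0⟩, 0, ⟨2,0⟩⟩, ⟨⟨12,0⟩, 0, ⟨1,0⟩⟩, ⟨⟨1,0⟩, 1, ⟨2,0⟩⟩]⟩,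
    ⟨⟨5,0⟩, ⟨1,0⟩, 0, [⟨⟨2,0⟩, 1, ⟨3,0⟩⟩, ⟨⟨10,0⟩, 1, ⟨0,0⟩⟩, ⟨⟨4,0⟩, 1, ⟨4,0⟩⟩, ⟨⟨1,0⟩, 0, ⟨3,0⟩⟩, ⟨⟨3,0⟩, 0, ⟨4,0⟩⟩, ⟨⟨13,0⟩, 0, ⟨2,0⟩⟩, ⟨⟨12,0⟩, 1, ⟨1,0⟩⟩, ⟨⟨8,0⟩, 1, ⟨6,0⟩⟩, ⟨⟨5,0⟩, 0, ⟨5,0⟩⟩]⟩,
    ⟨⟨6,0⟩, ⟨1,0⟩, 5, [⟨⟨3,0⟩, 1, ⟨4,0⟩⟩, ⟨⟨0,0⟩, 0, ⟨3,0⟩⟩, ⟨⟨8,0⟩, 0, ⟨0,0⟩⟩, ⟨⟨5,0⟩, 0, ⟨2,0⟩⟩, ⟨⟨12,0⟩, 1, ⟨5,0⟩⟩, ⟨⟨1,0⟩, 1, ⟨3,0⟩⟩, ⟨⟨10,0⟩, 0, ⟨1,0⟩⟩, ⟨⟨6,0⟩, 1, ⟨2,0⟩⟩, ⟨⟨13,0⟩, 0, ⟨6,0⟩⟩]⟩,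
    ⟨⟨7,0⟩, ⟨1,0⟩, 0, [⟨⟨13,0⟩, 0, ⟨3,0⟩⟩, ⟨⟨3,0⟩, 0, ⟨5,0⟩⟩, ⟨⟨0,0⟩, 1, ⟨3,0⟩⟩, ⟨⟨7,0⟩, 0, ⟨0,0⟩⟩, ⟨⟨5,0⟩, 0, ⟨6,0⟩⟩, ⟨⟨10,0⟩, 1, ⟨1,0⟩⟩, ⟨⟨4,0⟩, 1, ⟨5,0⟩⟩, ⟨⟨1,0⟩, 0, ⟨4,0⟩⟩, ⟨⟨8,0⟩, 1, ⟨0,0⟩⟩]⟩,
    ⟨⟨8,0⟩, ⟨1,0⟩, 0, [⟨⟨0,0⟩, 0, ⟨4,0⟩⟩, ⟨⟨8,0⟩, 0, ⟨1,0⟩⟩, ⟨⟨3,0⟩, 1, ⟨5,0⟩⟩, ⟨⟨2,0⟩, 0, ⟨5,0⟩⟩, ⟨⟨11,0⟩, 1, ⟨2,0⟩⟩, ⟨⟨5,0⟩, 1, ⟨6,0⟩⟩, ⟨⟨7,0⟩, 1, ⟨0,0⟩⟩, ⟨⟨9,0⟩, 1, ⟨1,0⟩⟩, ⟨⟨6,0⟩, 0, ⟨0,0⟩⟩]⟩,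
    ⟨⟨9,0⟩, ⟨1,0⟩, 0, [⟨⟨6,0⟩, 1, ⟨0,0⟩⟩, ⟨⟨9,0⟩, 0, ⟨2,0⟩⟩, ⟨⟨7,0⟩, 0, ⟨1,0⟩⟩, ⟨⟨10,0⟩, 1, ⟨2,0⟩⟩, ⟨⟨4,0⟩, 1, ⟨6,0⟩⟩, ⟨⟨2,0⟩, 1, ⟨5,0⟩⟩, ⟨⟨11,0⟩, 0, ⟨3,0⟩⟩, ⟨⟨0,0⟩, 1, ⟨4,0⟩⟩, ⟨⟨12,0⟩, 1, ⟨3,0⟩⟩]⟩,
    ⟨⟨10,0⟩, ⟨1,0⟩, 0, [⟨⟨9,0⟩, 1, ⟨2,0⟩⟩, ⟨⟨2,0⟩, 0, ⟨6,0⟩⟩, ⟨⟨5,0⟩, 1, ⟨0,0⟩⟩, ⟨⟨13,0⟩, 1, ⟨4,0⟩⟩, ⟨⟨6,0⟩, 0, ⟨1,0⟩⟩, ⟨⟨0,0⟩, 0, ⟨5,0⟩⟩, ⟨⟨3,0⟩, 1, ⟨6,0⟩⟩, ⟨⟨11,0⟩, 1, ⟨3,0⟩⟩, ⟨⟨7,0⟩, 1, ⟨1,0⟩⟩]⟩,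
    ⟨⟨11,0⟩, ⟨1,0⟩, 0, [⟨⟨5,0⟩, 0, ⟨1,0⟩⟩, ⟨⟨12,0⟩, 1, ⟨4,0⟩⟩, ⟨⟨9,0⟩, 0, ⟨3,0⟩⟩, ⟨⟨6,0⟩, 1, ⟨1,0⟩⟩, ⟨⟨7,0⟩, 0, ⟨2,0⟩⟩, ⟨⟨8,0⟩, 1, ⟨2,0⟩⟩, ⟨⟨1,0⟩, 0, ⟨6,0⟩⟩, ⟨⟨3,0⟩, 0, ⟨0,0⟩⟩, ⟨⟨0,0⟩, 1, ⟨5,0⟩⟩]⟩,
    ⟨⟨12,0⟩, ⟨1,0⟩, 0, [⟨⟨12,0⟩, 0, ⟨5,0⟩⟩, ⟨⟨1,0⟩, 1, ⟨6,0⟩⟩, ⟨⟨10,0⟩, 0, ⟨4,0⟩⟩, ⟨⟨3,0⟩, 1, ⟨0,0⟩⟩, ⟨⟨9,0⟩, 1, ⟨3,0⟩⟩, ⟨⟨4,0⟩, 0, ⟨1,0⟩⟩, ⟨⟨2,0⟩, 0, ⟨0,0⟩⟩, ⟨⟨13,0⟩, 1, ⟨5,0⟩⟩, ⟨⟨11,0⟩, 1, ⟨4,0⟩⟩]⟩,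
    ⟨⟨13,0⟩, ⟨1,0⟩, 6, [⟨⟨4,0⟩, 1, ⟨1,0⟩⟩, ⟨⟨5,0⟩, 1, ⟨5,0⟩⟩, ⟨⟨12,0⟩, 0, ⟨2,0⟩⟩, ⟨⟨8,0⟩, 1, ⟨3,0⟩⟩, ⟨⟨1,0⟩, 0, ⟨0,0⟩⟩, ⟨⟨6,0⟩, 0, ⟨6,0⟩⟩, ⟨⟨13,0⟩, 1, ⟨2,0⟩⟩, ⟨⟨2,0⟩, 1, ⟨0,0⟩⟩, ⟨⟨9,0⟩, 0, ⟨4,0⟩⟩]⟩]

theorem d1_4_ok : d1_4.check = true := by decide +kernel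

end Pool.Agent.Hhelper81.LT
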