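import Mathlib
import Pool.Agent.Hhelper81.LT.DatWin

set_option autoImplicit false

/-!
Certificates for the values `m = 3 mod 4`, orders `n = 2 mod 4`.
-/

namespace Pool.Agent.Hhelper81.LT

/-- certificate data -/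
def d3o : Dat where
  N := ⟨34,8⟩
  H := ⟨17,4⟩
  R0 := ⟨0,0⟩
  R1 := ⟨1,0⟩
  R2 := ⟨8,2⟩
  R3 := ⟨9,2⟩
  zs := [⟨⟨0,0⟩, ⟨8,2⟩, 0, 1, 2, 3⟩, ⟨⟨8,2⟩, ⟨1,0⟩, 1, 3, 2, 0⟩, ⟨⟨9,2⟩, ⟨8,2⟩, 1, 0, 2, 3⟩, ⟨⟨17,4⟩, ⟨1,0⟩, 1, 3, 2, 0⟩, ⟨⟨18,4⟩, ⟨7,2⟩, 1, 0, 2, 3⟩, ⟨⟨25,6⟩, ⟨1,0⟩, 2, 0, 3, 1⟩, ⟨⟨26,6⟩, ⟨7,2⟩, 0, 1, 3, 2⟩, ⟨⟨33,8⟩, ⟨1,0⟩, 3, 1, 0, 2⟩]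
  h0 := [(0, ⟨25,6⟩), (0, ⟨33,8⟩), (2, ⟨33,8⟩)]
  rr := 3
  lo1 := ⟨1,0⟩
  m1 := ⟨3,1⟩
  lo2 := ⟨9,2⟩
  m2 := ⟨3,1⟩
  W := [⟨15,4⟩, ⟨16,4⟩, ⟨0,0⟩, ⟨7,2⟩, ⟨8,2⟩]
  U := [⟨7,2⟩]
  rows := [
    ⟨⟨0,0⟩, ⟨1,0⟩, 1, [⟨⟨33,8⟩, 0, ⟨4,1⟩⟩, ⟨⟨25,6⟩, 1, ⟨16,4⟩⟩, ⟨⟨18,4⟩, 1, ⟨9,2⟩⟩, ⟨⟨9,2⟩, 0, ⟨5,1⟩⟩, ⟨⟨16,4⟩, 1, ⟨8,2⟩⟩, ⟨⟨17,4⟩, 0, ⟨9,2⟩⟩, ⟨⟨7,2⟩, 1, ⟨3,1⟩⟩]⟩,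
    ⟨⟨1,0⟩, ⟨1,0⟩, 2, [⟨⟨17,4⟩, 0, ⟨13,3⟩⟩, ⟨⟨8,2⟩, 1, ⟨8,2⟩⟩, ⟨⟨24,6⟩, 0, ⟨12,3⟩⟩, ⟨⟨33,8⟩, 0, ⟨0,0⟩⟩, ⟨⟨15,4⟩, 1, ⟨7,2⟩⟩, ⟨⟨16,4⟩, 0, ⟨8,2⟩⟩, ⟨⟨0,0⟩, 1, ⟨0,0⟩⟩]⟩,
    ⟨⟨2,0⟩, ⟨1,1⟩, 0, [⟨⟨26,6⟩, 0, ⟨14,3⟩⟩, ⟨⟨0,0⟩, 0, ⟨1,0⟩⟩, ⟨⟨19,4⟩, 1, ⟨10,2⟩⟩, ⟨⟨10,2⟩, 0, ⟨6,1⟩⟩, ⟨⟨17,4⟩, 1, ⟨9,2⟩⟩, ⟨⟨18,4⟩, 0, ⟨10,2⟩⟩, ⟨⟨1,0⟩, 1, ⟨1,0⟩⟩]⟩,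
    ⟨⟨3,1⟩, ⟨1,0⟩, 0, [⟨⟨27,7⟩, 0, ⟨15,4⟩⟩, ⟨⟨10,3⟩, 1, ⟨6,2⟩⟩, ⟨⟨20,5⟩, 1, ⟨11,3⟩⟩, ⟨⟨11,3⟩, 0, ⟨7,2⟩⟩, ⟨⟨18,5⟩, 1, ⟨10,3⟩⟩, ⟨⟨1,1⟩, 0, ⟨2,1⟩⟩, ⟨⟨2,1⟩, 1, ⟨2,1⟩⟩]⟩,
    ⟨⟨4,1⟩, ⟨1,0⟩, 0, [⟨⟨28,7⟩, 0, ⟨16,4⟩⟩, ⟨⟨4,1⟩, 0, ⟨4,1⟩⟩, ⟨⟨12,3⟩, 0, ⟨8,2⟩⟩, ⟨⟨29,7⟩, 1, ⟨16,4⟩⟩, ⟨⟨19,5⟩, 1, ⟨11,3⟩⟩, ⟨⟨11,3⟩, 1, ⟨7,2⟩⟩, ⟨⟨20,5⟩, 0, ⟨12,3⟩⟩]⟩,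
    ⟨⟨5,1⟩, ⟨2,1⟩, 0, [⟨⟨5,1⟩, 0, ⟨5,1⟩⟩, ⟨⟨13,3⟩, 0, ⟨9,2⟩⟩, ⟨⟨29,7⟩, 0, ⟨0,0⟩⟩, ⟨⟨30,7⟩, 1, ⟨0,0⟩⟩, ⟨⟨20,5⟩, 1, ⟨12,3⟩⟩, ⟨⟨21,5⟩, 0, ⟨13,3⟩⟩, ⟨⟨3,1⟩, 0, ⟨4,1⟩⟩]⟩,
    ⟨⟨7,2⟩, ⟨1,0⟩, 0, [⟨⟨15,4⟩, 0, ⟨11,3⟩⟩, ⟨⟨24,6⟩, 1, ⟨15,4⟩⟩, ⟨⟨32,8⟩, 1, ⟨2,1⟩⟩, ⟨⟨6,2⟩, 1, ⟨6,2⟩⟩, ⟨⟨22,6⟩, 1, ⟨14,4⟩⟩, ⟨⟨14,4⟩, 1, ⟨10,3⟩⟩, ⟨⟨5,2⟩, 0, ⟨6,2⟩⟩]⟩,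
    ⟨⟨8,2⟩, ⟨1,0⟩, 3, [⟨⟨23,6⟩, 1, ⟨15,4⟩⟩, ⟨⟨26,6⟩, 1, ⟨0,0⟩⟩, ⟨⟨33,8⟩, 1, ⟨16,4⟩⟩, ⟨⟨24,6⟩, 0, ⟨16,4⟩⟩, ⟨⟨25,6⟩, 0, ⟨0,0⟩⟩, ⟨⟨6,2⟩, 0, ⟨7,2⟩⟩, ⟨⟨8,2⟩, 0, ⟨8,2⟩⟩]⟩,
    ⟨⟨9,2⟩, ⟨1,0⟩, 4, [⟨⟨0,0⟩, 1, ⟨4,1⟩⟩, ⟨⟨16,4⟩, 1, ⟨12,3⟩⟩, ⟨⟨17,4⟩, 1, ⟨8,2⟩⟩, ⟨⟨32,8⟩, 0, ⟨3,1⟩⟩, ⟨⟨33,8⟩, 1, ⟨3,1⟩⟩, ⟨⟨24,6⟩, 1, ⟨16,4⟩⟩, ⟨⟨9,2⟩, 0, ⟨9,2⟩⟩]⟩,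
    ⟨⟨10,2⟩, ⟨2,1⟩, 0, [⟨⟨1,0⟩, 1, ⟨5,1⟩⟩, ⟨⟨27,6⟩, 1, ⟨1,0⟩⟩, ⟨⟨0,0⟩, 0, ⟨5,1⟩⟩, ⟨⟨17,4⟩, 1, ⟨13,3⟩⟩, ⟨⟨26,6⟩, 0, ⟨1,0⟩⟩, ⟨⟨25,6⟩, 1, ⟨0,0⟩⟩, ⟨⟨10,2⟩, 0, ⟨10,2⟩⟩]⟩,
    ⟨⟨12,3⟩, ⟨1,0⟩, 0, [⟨⟨11,3⟩, 1, ⟨11,3⟩⟩, ⟨⟨29,7⟩, 1, ⟨3,1⟩⟩, ⟨⟨3,1⟩, 1, ⟨7,2⟩⟩, ⟨⟨12,3⟩, 0, ⟨12,3⟩⟩, ⟨⟨2,1⟩, 0, ⟨7,2⟩⟩, ⟨⟨27,7⟩, 1, ⟨2,1⟩⟩, ⟨⟨28,7⟩, 0, ⟨3,1⟩⟩]⟩,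
    ⟨⟨13,3⟩, ⟨1,0⟩, 0, [⟨⟨12,3⟩, 1, ⟨12,3⟩⟩, ⟨⟨11,3⟩, 0, ⟨12,3⟩⟩, ⟨⟨28,7⟩, 1, ⟨3,1⟩⟩, ⟨⟨3,1⟩, 0, ⟨8,2⟩⟩, ⟨⟨30,7⟩, 1, ⟨4,1⟩⟩, ⟨⟨29,7⟩, 0, ⟨4,1⟩⟩, ⟨⟨13,3⟩, 0, ⟨13,3⟩⟩]⟩,
    ⟨⟨14,3⟩, ⟨1,1⟩, 0, [⟨⟨13,3⟩, 1, ⟨13,3⟩⟩, ⟨⟨5,1⟩, 1, ⟨9,2⟩⟩, ⟨⟨21,5⟩, 1, ⟨0,0⟩⟩, ⟨⟨4,1⟩, 0, ⟨9,2⟩⟩, ⟨⟨31,7⟩, 1, ⟨5,1⟩⟩, ⟨⟨30,7⟩, 0, ⟨5,1⟩⟩, ⟨⟨14,3⟩, 0, ⟨14,3⟩⟩]⟩,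
    ⟨⟨15,4⟩, ⟨1,0⟩, 0, [⟨⟨14,4⟩, 1, ⟨14,4⟩⟩, ⟨⟨23,6⟩, 0, ⟨2,1⟩⟩, ⟨⟨22,6⟩, 1, ⟨1,1⟩⟩, ⟨⟨5,2⟩, 0, ⟨10,3⟩⟩, ⟨⟨32,8⟩, 1, ⟨6,2⟩⟩, ⟨⟨31,8⟩, 0, ⟨6,2⟩⟩, ⟨⟨15,4⟩, 0, ⟨15,4⟩⟩]⟩,
    ⟨⟨16,4⟩, ⟨1,0⟩, 5, [⟨⟨32,8⟩, 0, ⟨7,2⟩⟩, ⟨⟨6,2⟩, 0, ⟨11,3⟩⟩, ⟨⟨16,4⟩, 0, ⟨16,4⟩⟩, ⟨⟨15,4⟩, 1, ⟨15,4⟩⟩, ⟨⟨23,6⟩, 1, ⟨2,1⟩⟩, ⟨⟨7,2⟩, 0, ⟨3,1⟩⟩, ⟨⟨24,6⟩, 1, ⟨11,3⟩⟩]⟩,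
    ⟨⟨17,4⟩, ⟨1,0⟩, 0, [⟨⟨24,6⟩, 1, ⟨3,1⟩⟩, ⟨⟨33,8⟩, 0, ⟨8,2⟩⟩, ⟨⟨25,6⟩, 0, ⟨4,1⟩⟩, ⟨⟨8,2⟩, 1, ⟨12,3⟩⟩, ⟨⟨7,2⟩, 0, ⟨12,3⟩⟩, ⟨⟨15,4⟩, 0, ⟨16,4⟩⟩, ⟨⟨32,8⟩, 1, ⟨7,2⟩⟩]⟩,
    ⟨⟨18,4⟩, ⟨1,1⟩, 0, [⟨⟨18,4⟩, 0, ⟨1,0⟩⟩, ⟨⟨9,2⟩, 1, ⟨13,3⟩⟩, ⟨⟨8,2⟩, 0, ⟨13,3⟩⟩, ⟨⟨25,6⟩, 1, ⟨4,1⟩⟩, ⟨⟨0,0⟩, 0, ⟨9,2⟩⟩, ⟨⟨33,8⟩, 1, ⟨8,2⟩⟩, ⟨⟨16,4⟩, 0, ⟨0,0⟩⟩]⟩,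
    ⟨⟨19,5⟩, ⟨1,0⟩, 0, [⟨⟨19,5⟩, 0, ⟨2,1⟩⟩, ⟨⟨2,1⟩, 1, ⟨10,3⟩⟩, ⟨⟨9,3⟩, 0, ⟨14,4⟩⟩, ⟨⟨26,7⟩, 1, ⟨5,2⟩⟩, ⟨⟨1,1⟩, 0, ⟨10,3⟩⟩, ⟨⟨0,1⟩, 1, ⟨9,3⟩⟩, ⟨⟨17,5⟩, 0, ⟨1,1⟩⟩]⟩,
    ⟨⟨20,5⟩, ⟨1,0⟩, 0, [⟨⟨20,5⟩, 0, ⟨3,1⟩⟩, ⟨⟨3,1⟩, 1, ⟨11,3⟩⟩, ⟨⟨2,1⟩, 0, ⟨11,3⟩⟩, ⟨⟨19,5⟩, 1, ⟨2,1⟩⟩, ⟨⟨11,3⟩, 1, ⟨15,4⟩⟩, ⟨⟨10,3⟩, 0, ⟨15,4⟩⟩, ⟨⟨18,5⟩, 0, ⟨2,1⟩⟩]⟩,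
    ⟨⟨21,5⟩, ⟨1,0⟩, 0, [⟨⟨3,1⟩, 0, ⟨12,3⟩⟩, ⟨⟨19,5⟩, 0, ⟨3,1⟩⟩, ⟨⟨4,1⟩, 1, ⟨12,3⟩⟩, ⟨⟨28,7⟩, 1, ⟨7,2⟩⟩, ⟨⟨29,7⟩, 0, ⟨8,2⟩⟩, ⟨⟨20,5⟩, 1, ⟨3,1⟩⟩, ⟨⟨12,3⟩, 1, ⟨16,4⟩⟩]⟩,
    ⟨⟨22,5⟩, ⟨1,0⟩, 0, [⟨⟨29,7⟩, 1, ⟨8,2⟩⟩, ⟨⟨12,3⟩, 0, ⟨0,0⟩⟩, ⟨⟨5,1⟩, 1, ⟨13,3⟩⟩, ⟨⟨20,5⟩, 0, ⟨4,1⟩⟩, ⟨⟨4,1⟩, 0, ⟨13,3⟩⟩, ⟨⟨3,1⟩, 1, ⟨12,3⟩⟩, ⟨⟨21,5⟩, 1, ⟨4,1⟩⟩]⟩,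
    ⟨⟨23,5⟩, ⟨2,1⟩, 0, [⟨⟨30,7⟩, 1, ⟨9,2⟩⟩, ⟨⟨21,5⟩, 0, ⟨5,1⟩⟩, ⟨⟨6,1⟩, 1, ⟨14,3⟩⟩, ⟨⟨13,3⟩, 0, ⟨1,0⟩⟩, ⟨⟨5,1⟩, 0, ⟨14,3⟩⟩, ⟨⟨4,1⟩, 1, ⟨13,3⟩⟩, ⟨⟨22,5⟩, 1, ⟨5,1⟩⟩]⟩,
    ⟨⟨25,6⟩, ⟨1,0⟩, 0, [⟨⟨25,6⟩, 0, ⟨8,2⟩⟩, ⟨⟨7,2⟩, 0, ⟨16,4⟩⟩, ⟨⟨23,6⟩, 0, ⟨7,2⟩⟩, ⟨⟨16,4⟩, 1, ⟨3,1⟩⟩, ⟨⟨8,2⟩, 1, ⟨16,4⟩⟩, ⟨⟨32,8⟩, 1, ⟨11,3⟩⟩, ⟨⟨6,2⟩, 1, ⟨15,4⟩⟩]⟩,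
    ⟨⟨26,6⟩, ⟨2,1⟩, 0, [⟨⟨7,2⟩, 1, ⟨16,4⟩⟩, ⟨⟨17,4⟩, 1, ⟨4,1⟩⟩, ⟨⟨26,6⟩, 0, ⟨9,2⟩⟩, ⟨⟨0,0⟩, 0, ⟨13,3⟩⟩, ⟨⟨9,2⟩, 1, ⟨0,0⟩⟩, ⟨⟨8,2⟩, 0, ⟨0,0⟩⟩, ⟨⟨25,6⟩, 1, ⟨8,2⟩⟩]⟩,
    ⟨⟨28,7⟩, ⟨1,0⟩, 0, [⟨⟨9,3⟩, 1, ⟨1,1⟩⟩, ⟨⟨1,1⟩, 1, ⟨14,4⟩⟩, ⟨⟨10,3⟩, 0, ⟨2,1⟩⟩, ⟨⟨2,1⟩, 0, ⟨15,4⟩⟩, ⟨⟨28,7⟩, 0, ⟨11,3⟩⟩, ⟨⟨19,5⟩, 1, ⟨6,2⟩⟩, ⟨⟨27,7⟩, 1, ⟨10,3⟩⟩]⟩,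
    ⟨⟨29,7⟩, ⟨1,0⟩, 0, [⟨⟨10,3⟩, 1, ⟨2,1⟩⟩, ⟨⟨20,5⟩, 1, ⟨7,2⟩⟩, ⟨⟨11,3⟩, 0, ⟨3,1⟩⟩, ⟨⟨27,7⟩, 0, ⟨11,3⟩⟩, ⟨⟨3,1⟩, 0, ⟨16,4⟩⟩, ⟨⟨2,1⟩, 1, ⟨15,4⟩⟩, ⟨⟨19,5⟩, 0, ⟨7,2⟩⟩]⟩,
    ⟨⟨30,7⟩, ⟨1,0⟩, 0, [⟨⟨4,1⟩, 0, ⟨0,0⟩⟩, ⟨⟨30,7⟩, 0, ⟨13,3⟩⟩, ⟨⟨13,3⟩, 1, ⟨4,1⟩⟩, ⟨⟨21,5⟩, 1, ⟨8,2⟩⟩, ⟨⟨12,3⟩, 0, ⟨4,1⟩⟩, ⟨⟨28,7⟩, 0, ⟨12,3⟩⟩, ⟨⟨29,7⟩, 1, ⟨12,3⟩⟩]⟩,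
    ⟨⟨31,7⟩, ⟨2,1⟩, 0, [⟨⟨21,5⟩, 0, ⟨9,2⟩⟩, ⟨⟨31,7⟩, 0, ⟨14,3⟩⟩, ⟨⟨14,3⟩, 1, ⟨5,1⟩⟩, ⟨⟨22,5⟩, 1, ⟨9,2⟩⟩, ⟨⟨13,3⟩, 0, ⟨5,1⟩⟩, ⟨⟨12,3⟩, 1, ⟨4,1⟩⟩, ⟨⟨30,7⟩, 1, ⟨13,3⟩⟩]⟩,
    ⟨⟨33,8⟩, ⟨1,0⟩, 6, [⟨⟨16,4⟩, 1, ⟨7,2⟩⟩, ⟨⟨15,4⟩, 0, ⟨7,2⟩⟩, ⟨⟨31,8⟩, 0, ⟨15,4⟩⟩, ⟨⟨7,2⟩, 1, ⟨11,3⟩⟩, ⟨⟨24,6⟩, 0, ⟨3,1⟩⟩, ⟨⟨23,6⟩, 0, ⟨11,3⟩⟩, ⟨⟨33,8⟩, 0, ⟨16,4⟩⟩]⟩]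

theorem d3o_ok : d3o.check = true := by decide +kernel

/-- certificate data -/
def d3_3 : Dat where
  N := ⟨10,0⟩
  H := ⟨5,0⟩
  R0 := ⟨0,0⟩
  R1 := ⟨1,0⟩
  R2 := ⟨2,0⟩
  R3 := ⟨3,0⟩
  zs := [⟨⟨0,0⟩, ⟨2,0⟩, 0, 1, 2, 3⟩, ⟨⟨2,0⟩, ⟨1,0⟩, 1, 3, 2, 0⟩, ⟨⟨3,0⟩, ⟨2,0⟩, 1, 0, 2, 3⟩, ⟨⟨5,0⟩, ⟨1,0⟩, 1, 3, 2, 0⟩, ⟨⟨6,0⟩, ⟨1,0⟩, 1, 0, 2, 3⟩, ⟨⟨7,0⟩, ⟨1,0⟩, 2, 0, 3, 1⟩, ⟨⟨8,0⟩, ⟨1,0⟩, 0, 1, 3, 2⟩, ⟨⟨9,0⟩, ⟨1,0⟩, 3, 1,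 0, 2⟩]
  h0 := [(0, ⟨7,0⟩), (0, ⟨9,0⟩), (2, ⟨9,0⟩)]
  rr := 3
  lo1 := ⟨0,0⟩
  m1 := ⟨0,0⟩
  lo2 := ⟨0,0⟩
  m2 := ⟨0,0⟩
  W := [⟨0,0⟩, ⟨1,0⟩, ⟨2,0⟩, ⟨3,0⟩, ⟨4,0⟩]
  U := [⟨2,0⟩]
  rows := [
    ⟨⟨0,0⟩, ⟨1,0⟩, 1, [⟨⟨7,0⟩, 1, ⟨4,0⟩⟩, ⟨⟨9,0⟩, 0, ⟨1,0⟩⟩, ⟨⟨0,0⟩, 0, ⟨0,0⟩⟩, ⟨⟨1,0⟩, 1, ⟨0,0⟩⟩, ⟨⟨5,0⟩, 0, ⟨3,0⟩⟩, ⟨⟨8,0⟩, 0, ⟨4,0⟩⟩, ⟨⟨6,0⟩, 1, ⟨3,0⟩⟩]⟩,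
    ⟨⟨1,0⟩, ⟨1,0⟩, 2, [⟨⟨2,0⟩, 1, ⟨2,0⟩⟩, ⟨⟨5,0⟩, 0, ⟨4,0⟩⟩, ⟨⟨6,0⟩, 0, ⟨3,0⟩⟩, ⟨⟨9,0⟩, 0, ⟨0,0⟩⟩, ⟨⟨1,0⟩, 0, ⟨1,0⟩⟩, ⟨⟨4,0⟩, 0, ⟨2,0⟩⟩, ⟨⟨3,0⟩, 1, ⟨1,0⟩⟩]⟩,
    ⟨⟨2,0⟩, ⟨1,0⟩, 3, [⟨⟨8,0⟩, 1, ⟨0,0⟩⟩, ⟨⟨1,0⟩, 1, ⟨1,0⟩⟩, ⟨⟨9,0⟩, 1, ⟨4,0⟩⟩, ⟨⟨3,0⟩, 1, ⟨2,0⟩⟩, ⟨⟨2,0⟩, 0, ⟨2,0⟩⟩, ⟨⟨7,0⟩, 0, ⟨0,0⟩⟩, ⟨⟨0,0⟩, 0, ⟨1,0⟩⟩]⟩,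
    ⟨⟨3,0⟩, ⟨1,0⟩, 4, [⟨⟨0,0⟩, 1, ⟨1,0⟩⟩, ⟨⟨3,0⟩, 0, ⟨3,0⟩⟩, ⟨⟨7,0⟩, 0, ⟨4,0⟩⟩, ⟨⟨4,0⟩, 1, ⟨3,0⟩⟩, ⟨⟨8,0⟩, 0, ⟨0,0⟩⟩, ⟨⟨6,0⟩, 1, ⟨4,0⟩⟩, ⟨⟨1,0⟩, 0, ⟨2,0⟩⟩]⟩,
    ⟨⟨4,0⟩, ⟨1,0⟩, 5, [⟨⟨6,0⟩, 0, ⟨0,0⟩⟩, ⟨⟨0,0⟩, 0, ⟨2,0⟩⟩, ⟨⟨1,0⟩, 1, ⟨2,0⟩⟩, ⟨⟨5,0⟩, 1, ⟨4,0⟩⟩, ⟨⟨4,0⟩, 0, ⟨4,0⟩⟩, ⟨⟨2,0⟩, 1, ⟨0,0⟩⟩, ⟨⟨7,0⟩, 0, ⟨3,0⟩⟩]⟩,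
    ⟨⟨5,0⟩, ⟨1,0⟩, 0, [⟨⟨3,0⟩, 0, ⟨4,0⟩⟩, ⟨⟨6,0⟩, 1, ⟨0,0⟩⟩, ⟨⟨2,0⟩, 1, ⟨3,0⟩⟩, ⟨⟨8,0⟩, 1, ⟨1,0⟩⟩, ⟨⟨0,0⟩, 1, ⟨2,0⟩⟩, ⟨⟨1,0⟩, 0, ⟨3,0⟩⟩, ⟨⟨4,0⟩, 1, ⟨4,0⟩⟩]⟩,
    ⟨⟨6,0⟩, ⟨1,0⟩, 0, [⟨⟨1,0⟩, 1, ⟨3,0⟩⟩, ⟨⟨4,0⟩, 0, ⟨0,0⟩⟩, ⟨⟨8,0⟩, 0, ⟨2,0⟩⟩, ⟨⟨6,0⟩, 0, ⟨1,0⟩⟩, ⟨⟨3,0⟩, 1, ⟨4,0⟩⟩, ⟨⟨9,0⟩, 1, ⟨2,0⟩⟩, ⟨⟨5,0⟩, 1, ⟨0,0⟩⟩]⟩,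
    ⟨⟨7,0⟩, ⟨1,0⟩, 0, [⟨⟨9,0⟩, 0, ⟨3,0⟩⟩, ⟨⟨2,0⟩, 1, ⟨4,0⟩⟩, ⟨⟨5,0⟩, 0, ⟨1,0⟩⟩, ⟨⟨7,0⟩, 0, ⟨2,0⟩⟩, ⟨⟨6,0⟩, 1, ⟨1,0⟩⟩, ⟨⟨0,0⟩, 1, ⟨3,0⟩⟩, ⟨⟨8,0⟩, 1, ⟨2,0⟩⟩]⟩,
    ⟨⟨8,0⟩, ⟨1,0⟩, 0, [⟨⟨4,0⟩, 0, ⟨1,0⟩⟩, ⟨⟨7,0⟩, 1, ⟨2,0⟩⟩, ⟨⟨3,0⟩, 1, ⟨0,0⟩⟩, ⟨⟨0,0⟩, 0, ⟨4,0⟩⟩, ⟨⟨9,0⟩, 1, ⟨3,0⟩⟩, ⟨⟨5,0⟩, 1, ⟨1,0⟩⟩, ⟨⟨2,0⟩, 0, ⟨0,0⟩⟩]⟩,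
    ⟨⟨9,0⟩, ⟨1,0⟩, 6, [⟨⟨5,0⟩, 0, ⟨2,0⟩⟩, ⟨⟨8,0⟩, 1, ⟨3,0⟩⟩, ⟨⟨4,0⟩, 1, ⟨1,0⟩⟩, ⟨⟨2,0⟩, 0, ⟨3,0⟩⟩, ⟨⟨7,0⟩, 1, ⟨0,0⟩⟩, ⟨⟨3,0⟩, 0, ⟨1,0⟩⟩, ⟨⟨9,0⟩, 0, ⟨4,0⟩⟩]⟩]

theorem d3_3_ok : d3_3.check = true := by decide +kernel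

/-- certificate data -/
def d3_4 : Dat where
  N := ⟨14,0⟩
  H := ⟨7,0⟩
  R0 := ⟨0,0⟩
  R1 := ⟨1,0⟩
  R2 := ⟨3,0⟩
  R3 := ⟨4,0⟩
  zs := [⟨⟨0,0⟩, ⟨3,0⟩, 0, 1, 2, 3⟩, ⟨⟨3,0⟩, ⟨1,0⟩, 1, 3, 2, 0⟩, ⟨⟨4,0⟩, ⟨3,0⟩, 1, 0, 2, 3⟩, ⟨⟨7,0⟩, ⟨1,0⟩, 1, 3, 2, 0⟩, ⟨⟨8,0⟩, ⟨2,0⟩, 1, 0, 2, 3⟩, ⟨⟨10,0⟩, ⟨1,0⟩, 2, 0, 3, 1⟩, ⟨⟨11,0⟩, ⟨2,0⟩, 0, 1, 3, 2⟩, ⟨⟨13,0⟩, ⟨1,0⟩, 3, 1, 0, 2⟩]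
  h0 := [(0, ⟨10,0⟩), (0, ⟨13,0⟩), (2, ⟨13,0⟩)]
  rr := 3
  lo1 := ⟨0,0⟩
  m1 := ⟨0,0⟩
  lo2 := ⟨0,0⟩
  m2 := ⟨0,0⟩
  W := [⟨0,0⟩, ⟨1,0⟩, ⟨2,0⟩, ⟨3,0⟩, ⟨4,0⟩, ⟨5,0⟩, ⟨6,0⟩]
  U := [⟨5,0⟩, ⟨6,0⟩]
  rows := [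
    ⟨⟨0,0⟩, ⟨1,0⟩, 1, [⟨⟨10,0⟩, 1, ⟨6,0⟩⟩, ⟨⟨0,0⟩, 0, ⟨0,0⟩⟩, ⟨⟨13,0⟩, 1, ⟨1,0⟩⟩, ⟨⟨1,0⟩, 1, ⟨0,0⟩⟩, ⟨⟨2,0⟩, 0, ⟨1,0⟩⟩, ⟨⟨4,0⟩, 1, ⟨2,0⟩⟩, ⟨⟨3,0⟩, 0, ⟨2,0⟩⟩, ⟨⟨5,0⟩, 0, ⟨3,0⟩⟩, ⟨⟨11,0⟩, 1, ⟨5,0⟩⟩, ⟨⟨7,0⟩, 0, ⟨4,0⟩⟩, ⟨⟨9,0⟩, 0, ⟨5,0⟩⟩]⟩,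
    ⟨⟨1,0⟩, ⟨1,0⟩, 2, [⟨⟨7,0⟩, 1, ⟨5,0⟩⟩, ⟨⟨11,0⟩, 0, ⟨6,0⟩⟩, ⟨⟨3,0⟩, 1, ⟨3,0⟩⟩, ⟨⟨2,0⟩, 1, ⟨1,0⟩⟩, ⟨⟨0,0⟩, 1, ⟨0,0⟩⟩, ⟨⟨1,0⟩, 0, ⟨1,0⟩⟩, ⟨⟨5,0⟩, 1, ⟨2,0⟩⟩, ⟨⟨12,0⟩, 1, ⟨6,0⟩⟩, ⟨⟨9,0⟩, 1, ⟨4,0⟩⟩, ⟨⟨13,0⟩, 0, ⟨0,0⟩⟩, ⟨⟨6,0⟩, 0, ⟨3,0⟩⟩]⟩,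
    ⟨⟨2,0⟩, ⟨1,0⟩, 0, [⟨⟨3,0⟩, 1, ⟨2,0⟩⟩, ⟨⟨6,0⟩, 0, ⟨4,0⟩⟩, ⟨⟨0,0⟩, 0, ⟨1,0⟩⟩, ⟨⟨4,0⟩, 0, ⟨3,0⟩⟩, ⟨⟨5,0⟩, 1, ⟨3,0⟩⟩, ⟨⟨7,0⟩, 1, ⟨4,0⟩⟩, ⟨⟨10,0⟩, 0, ⟨6,0⟩⟩, ⟨⟨2,0⟩, 0, ⟨2,0⟩⟩, ⟨⟨8,0⟩, 0, ⟨5,0⟩⟩, ⟨⟨9,0⟩, 1, ⟨5,0⟩⟩, ⟨⟨11,0⟩, 1, ⟨6,0⟩⟩]⟩,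
    ⟨⟨3,0⟩, ⟨1,0⟩, 3, [⟨⟨11,0⟩, 1, ⟨0,0⟩⟩, ⟨⟨13,0⟩, 1, ⟨6,0⟩⟩, ⟨⟨8,0⟩, 1, ⟨5,0⟩⟩, ⟨⟨6,0⟩, 1, ⟨4,0⟩⟩, ⟨⟨7,0⟩, 0, ⟨5,0⟩⟩, ⟨⟨9,0⟩, 0, ⟨6,0⟩⟩, ⟨⟨0,0⟩, 1, ⟨1,0⟩⟩, ⟨⟨4,0⟩, 1, ⟨3,0⟩⟩, ⟨⟨10,0⟩, 0, ⟨0,0⟩⟩, ⟨⟨3,0⟩, 0, ⟨3,0⟩⟩, ⟨⟨1,0⟩, 0, ⟨2,0⟩⟩]⟩,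
    ⟨⟨4,0⟩, ⟨1,0⟩, 4, [⟨⟨6,0⟩, 0, ⟨5,0⟩⟩, ⟨⟨3,0⟩, 1, ⟨1,0⟩⟩, ⟨⟨5,0⟩, 1, ⟨4,0⟩⟩, ⟨⟨8,0⟩, 0, ⟨6,0⟩⟩, ⟨⟨9,0⟩, 1, ⟨6,0⟩⟩, ⟨⟨11,0⟩, 0, ⟨0,0⟩⟩, ⟨⟨2,0⟩, 0, ⟨3,0⟩⟩, ⟨⟨13,0⟩, 0, ⟨1,0⟩⟩, ⟨⟨0,0⟩, 0, ⟨2,0⟩⟩, ⟨⟨12,0⟩, 1, ⟨0,0⟩⟩, ⟨⟨4,0⟩, 0, ⟨4,0⟩⟩]⟩,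
    ⟨⟨5,0⟩, ⟨1,0⟩, 0, [⟨⟨12,0⟩, 1, ⟨1,0⟩⟩, ⟨⟨5,0⟩, 0, ⟨5,0⟩⟩, ⟨⟨10,0⟩, 1, ⟨0,0⟩⟩, ⟨⟨13,0⟩, 0, ⟨2,0⟩⟩, ⟨⟨4,0⟩, 1, ⟨4,0⟩⟩, ⟨⟨6,0⟩, 1, ⟨5,0⟩⟩, ⟨⟨8,0⟩, 1, ⟨6,0⟩⟩, ⟨⟨9,0⟩, 0, ⟨0,0⟩⟩, ⟨⟨3,0⟩, 0, ⟨4,0⟩⟩, ⟨⟨2,0⟩, 1, ⟨3,0⟩⟩, ⟨⟨0,0⟩, 1, ⟨2,0⟩⟩]⟩,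
    ⟨⟨6,0⟩, ⟨1,0⟩, 5, [⟨⟨0,0⟩, 0, ⟨3,0⟩⟩, ⟨⟨10,0⟩, 0, ⟨1,0⟩⟩, ⟨⟨4,0⟩, 0, ⟨5,0⟩⟩, ⟨⟨7,0⟩, 1, ⟨6,0⟩⟩, ⟨⟨8,0⟩, 0, ⟨0,0⟩⟩, ⟨⟨5,0⟩, 0, ⟨2,0⟩⟩, ⟨⟨12,0⟩, 1, ⟨5,0⟩⟩, ⟨⟨11,0⟩, 1, ⟨1,0⟩⟩, ⟨⟨1,0⟩, 1, ⟨3,0⟩⟩, ⟨⟨6,0⟩, 1, ⟨2,0⟩⟩, ⟨⟨13,0⟩, 0, ⟨6,0⟩⟩]⟩,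
    ⟨⟨7,0⟩, ⟨1,0⟩, 0, [⟨⟨2,0⟩, 1, ⟨4,0⟩⟩, ⟨⟨4,0⟩, 1, ⟨5,0⟩⟩, ⟨⟨12,0⟩, 1, ⟨2,0⟩⟩, ⟨⟨9,0⟩, 0, ⟨1,0⟩⟩, ⟨⟨1,0⟩, 0, ⟨4,0⟩⟩, ⟨⟨13,0⟩, 0, ⟨3,0⟩⟩, ⟨⟨7,0⟩, 0, ⟨0,0⟩⟩, ⟨⟨3,0⟩, 0, ⟨5,0⟩⟩, ⟨⟨5,0⟩, 0, ⟨6,0⟩⟩, ⟨⟨11,0⟩, 0, ⟨2,0⟩⟩, ⟨⟨10,0⟩, 1, ⟨1,0⟩⟩]⟩,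
    ⟨⟨8,0⟩, ⟨1,0⟩, 0, [⟨⟨4,0⟩, 0, ⟨6,0⟩⟩, ⟨⟨1,0⟩, 1, ⟨4,0⟩⟩, ⟨⟨6,0⟩, 0, ⟨0,0⟩⟩, ⟨⟨0,0⟩, 0, ⟨4,0⟩⟩, ⟨⟨11,0⟩, 1, ⟨2,0⟩⟩, ⟨⟨2,0⟩, 0, ⟨5,0⟩⟩, ⟨⟨13,0⟩, 1, ⟨3,0⟩⟩, ⟨⟨7,0⟩, 1, ⟨0,0⟩⟩, ⟨⟨12,0⟩, 0, ⟨3,0⟩⟩, ⟨⟨8,0⟩, 0, ⟨1,0⟩⟩, ⟨⟨3,0⟩, 1, ⟨5,0⟩⟩]⟩,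
    ⟨⟨9,0⟩, ⟨1,0⟩, 0, [⟨⟨13,0⟩, 0, ⟨4,0⟩⟩, ⟨⟨12,0⟩, 1, ⟨3,0⟩⟩, ⟨⟨9,0⟩, 0, ⟨2,0⟩⟩, ⟨⟨10,0⟩, 1, ⟨2,0⟩⟩, ⟨⟨3,0⟩, 0, ⟨6,0⟩⟩, ⟨⟨8,0⟩, 1, ⟨1,0⟩⟩, ⟨⟨1,0⟩, 0, ⟨5,0⟩⟩, ⟨⟨0,0⟩, 1, ⟨4,0⟩⟩, ⟨⟨6,0⟩, 1, ⟨0,0⟩⟩, ⟨⟨4,0⟩, 1, ⟨6,0⟩⟩, ⟨⟨7,0⟩, 0, ⟨1,0⟩⟩]⟩,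
    ⟨⟨10,0⟩, ⟨1,0⟩, 0, [⟨⟨8,0⟩, 0, ⟨2,0⟩⟩, ⟨⟨9,0⟩, 1, ⟨2,0⟩⟩, ⟨⟨2,0⟩, 0, ⟨6,0⟩⟩, ⟨⟨11,0⟩, 1, ⟨3,0⟩⟩, ⟨⟨10,0⟩, 0, ⟨3,0⟩⟩, ⟨⟨12,0⟩, 0, ⟨4,0⟩⟩, ⟨⟨6,0⟩, 0, ⟨1,0⟩⟩, ⟨⟨1,0⟩, 1, ⟨5,0⟩⟩, ⟨⟨7,0⟩, 1, ⟨1,0⟩⟩, ⟨⟨0,0⟩, 0, ⟨5,0⟩⟩, ⟨⟨5,0⟩, 1, ⟨0,0⟩⟩]⟩,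
    ⟨⟨11,0⟩, ⟨1,0⟩, 0, [⟨⟨5,0⟩, 0, ⟨1,0⟩⟩, ⟨⟨7,0⟩, 0, ⟨2,0⟩⟩, ⟨⟨11,0⟩, 0, ⟨4,0⟩⟩, ⟨⟨3,0⟩, 0, ⟨0,0⟩⟩, ⟨⟨6,0⟩, 1, ⟨1,0⟩⟩, ⟨⟨10,0⟩, 1, ⟨3,0⟩⟩, ⟨⟨4,0⟩, 1, ⟨0,0⟩⟩, ⟨⟨8,0⟩, 1, ⟨2,0⟩⟩, ⟨⟨2,0⟩, 1, ⟨6,0⟩⟩, ⟨⟨1,0⟩, 0, ⟨6,0⟩⟩, ⟨⟨12,0⟩, 1, ⟨4,0⟩⟩]⟩,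
    ⟨⟨12,0⟩, ⟨1,0⟩, 0, [⟨⟨9,0⟩, 1, ⟨3,0⟩⟩, ⟨⟨8,0⟩, 0, ⟨3,0⟩⟩, ⟨⟨1,0⟩, 1, ⟨6,0⟩⟩, ⟨⟨12,0⟩, 0, ⟨5,0⟩⟩, ⟨⟨13,0⟩, 1, ⟨5,0⟩⟩, ⟨⟨3,0⟩, 1, ⟨0,0⟩⟩, ⟨⟨11,0⟩, 1, ⟨4,0⟩⟩, ⟨⟨10,0⟩, 0, ⟨4,0⟩⟩, ⟨⟨4,0⟩, 0, ⟨1,0⟩⟩, ⟨⟨5,0⟩, 1, ⟨1,0⟩⟩, ⟨⟨2,0⟩, 0, ⟨0,0⟩⟩]⟩,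
    ⟨⟨13,0⟩, ⟨1,0⟩, 6, [⟨⟨1,0⟩, 0, ⟨0,0⟩⟩, ⟨⟨2,0⟩, 1, ⟨0,0⟩⟩, ⟨⟨7,0⟩, 0, ⟨3,0⟩⟩, ⟨⟨5,0⟩, 1, ⟨5,0⟩⟩, ⟨⟨12,0⟩, 0, ⟨2,0⟩⟩, ⟨⟨0,0⟩, 1, ⟨6,0⟩⟩, ⟨⟨9,0⟩, 0, ⟨4,0⟩⟩, ⟨⟨6,0⟩, 0, ⟨6,0⟩⟩, ⟨⟨13,0⟩, 1, ⟨2,0⟩⟩, ⟨⟨10,0⟩, 1, ⟨4,0⟩⟩, ⟨⟨8,0⟩, 1, ⟨3,0⟩⟩]⟩]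

theorem d3_4_ok : d3_4.check = true := by decide +kernel

/-- certificate data -/
def d3_5 : Dat where
  N := ⟨18,0⟩
  H := ⟨9,0⟩
  R0 := ⟨0,0⟩
  R1 := ⟨1,0⟩
  R2 := ⟨4,0⟩
  R3 := ⟨5,0⟩
  zs := [⟨⟨0,0⟩, ⟨4,0⟩, 0, 1, 2, 3⟩, ⟨⟨4,0⟩, ⟨1,0⟩, 1, 3, 2, 0⟩, ⟨⟨5,0⟩, ⟨4,0⟩, 1, 0, 2, 3⟩, ⟨⟨9,0⟩, ⟨1,0⟩, 1, 3, 2, 0⟩, ⟨⟨10,0⟩, ⟨3,0⟩, 1, 0, 2, 3⟩, ⟨⟨13,0⟩, ⟨1,0⟩, 2, 0, 3, 1⟩, ⟨⟨14,0⟩, ⟨3,0⟩, 0, 1, 3, 2⟩, ⟨⟨17,0⟩, ⟨1,0⟩,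 3, 1, 0, 2⟩]
  h0 := [(0, ⟨13,0⟩), (0, ⟨17,0⟩), (2, ⟨17,0⟩)]
  rr := 3
  lo1 := ⟨1,0⟩
  m1 := ⟨1,0⟩
  lo2 := ⟨6,0⟩
  m2 := ⟨1,0⟩
  W := [⟨0,0⟩, ⟨3,0⟩, ⟨4,0⟩, ⟨5,0⟩, ⟨8,0⟩]
  U := [⟨3,0⟩]
  rows := [
    ⟨⟨0,0⟩, ⟨1,0⟩, 1, [⟨⟨0,0⟩, 0, ⟨0,0⟩⟩, ⟨⟨13,0⟩, 1, ⟨8,0⟩⟩, ⟨⟨17,0⟩, 0, ⟨2,0⟩⟩, ⟨⟨4,0⟩, 1, ⟨2,0⟩⟩, ⟨⟨10,0⟩, 1, ⟨5,0⟩⟩, ⟨⟨6,0⟩, 1, ⟨3,0⟩⟩, ⟨⟨3,0⟩, 1, ⟨1,0⟩⟩]⟩,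
    ⟨⟨1,0⟩, ⟨1,0⟩, 2, [⟨⟨15,0⟩, 0, ⟨8,0⟩⟩, ⟨⟨4,0⟩, 1, ⟨4,0⟩⟩, ⟨⟨9,0⟩, 0, ⟨7,0⟩⟩, ⟨⟨1,0⟩, 0, ⟨1,0⟩⟩, ⟨⟨13,0⟩, 1, ⟨6,0⟩⟩, ⟨⟨8,0⟩, 0, ⟨4,0⟩⟩, ⟨⟨0,0⟩, 1, ⟨0,0⟩⟩]⟩,
    ⟨⟨2,0⟩, ⟨1,0⟩, 0, [⟨⟨2,0⟩, 0, ⟨2,0⟩⟩, ⟨⟨5,0⟩, 1, ⟨3,0⟩⟩, ⟨⟨11,0⟩, 1, ⟨6,0⟩⟩, ⟨⟨10,0⟩, 0, ⟨6,0⟩⟩, ⟨⟨1,0⟩, 1, ⟨1,0⟩⟩, ⟨⟨15,0⟩, 1, ⟨8,0⟩⟩, ⟨⟨14,0⟩, 0, ⟨8,0⟩⟩]⟩,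
    ⟨⟨3,0⟩, ⟨1,0⟩, 0, [⟨⟨7,0⟩, 0, ⟨5,0⟩⟩, ⟨⟨15,0⟩, 0, ⟨0,0⟩⟩, ⟨⟨2,0⟩, 1, ⟨2,0⟩⟩, ⟨⟨6,0⟩, 1, ⟨4,0⟩⟩, ⟨⟨16,0⟩, 1, ⟨0,0⟩⟩, ⟨⟨12,0⟩, 1, ⟨7,0⟩⟩, ⟨⟨17,0⟩, 0, ⟨1,0⟩⟩]⟩,
    ⟨⟨4,0⟩, ⟨1,0⟩, 3, [⟨⟨17,0⟩, 1, ⟨8,0⟩⟩, ⟨⟨14,0⟩, 1, ⟨0,0⟩⟩, ⟨⟨3,0⟩, 1, ⟨3,0⟩⟩, ⟨⟨12,0⟩, 0, ⟨8,0⟩⟩, ⟨⟨4,0⟩, 0, ⟨4,0⟩⟩, ⟨⟨9,0⟩, 1, ⟨6,0⟩⟩, ⟨⟨8,0⟩, 0, ⟨6,0⟩⟩]⟩,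
    ⟨⟨5,0⟩, ⟨1,0⟩, 4, [⟨⟨9,0⟩, 1, ⟨4,0⟩⟩, ⟨⟨8,0⟩, 1, ⟨6,0⟩⟩, ⟨⟨10,0⟩, 1, ⟨7,0⟩⟩, ⟨⟨17,0⟩, 1, ⟨1,0⟩⟩, ⟨⟨0,0⟩, 1, ⟨2,0⟩⟩, ⟨⟨1,0⟩, 0, ⟨3,0⟩⟩, ⟨⟨5,0⟩, 0, ⟨5,0⟩⟩]⟩,
    ⟨⟨6,0⟩, ⟨1,0⟩, 0, [⟨⟨5,0⟩, 1, ⟨5,0⟩⟩, ⟨⟨9,0⟩, 1, ⟨7,0⟩⟩, ⟨⟨15,0⟩, 1, ⟨1,0⟩⟩, ⟨⟨0,0⟩, 0, ⟨3,0⟩⟩, ⟨⟨6,0⟩, 0, ⟨6,0⟩⟩, ⟨⟨10,0⟩, 0, ⟨8,0⟩⟩, ⟨⟨11,0⟩, 1, ⟨8,0⟩⟩]⟩,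
    ⟨⟨7,0⟩, ⟨1,0⟩, 0, [⟨⟨6,0⟩, 1, ⟨6,0⟩⟩, ⟨⟨16,0⟩, 1, ⟨2,0⟩⟩, ⟨⟨1,0⟩, 0, ⟨4,0⟩⟩, ⟨⟨11,0⟩, 0, ⟨0,0⟩⟩, ⟨⟨15,0⟩, 0, ⟨2,0⟩⟩, ⟨⟨7,0⟩, 0, ⟨7,0⟩⟩, ⟨⟨2,0⟩, 1, ⟨4,0⟩⟩]⟩,
    ⟨⟨8,0⟩, ⟨1,0⟩, 5, [⟨⟨13,0⟩, 1, ⟨1,0⟩⟩, ⟨⟨2,0⟩, 0, ⟨5,0⟩⟩, ⟨⟨8,0⟩, 0, ⟨8,0⟩⟩, ⟨⟨7,0⟩, 1, ⟨7,0⟩⟩, ⟨⟨17,0⟩, 1, ⟨3,0⟩⟩, ⟨⟨3,0⟩, 0, ⟨1,0⟩⟩, ⟨⟨12,0⟩, 1, ⟨5,0⟩⟩]⟩,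
    ⟨⟨9,0⟩, ⟨1,0⟩, 0, [⟨⟨14,0⟩, 1, ⟨2,0⟩⟩, ⟨⟨3,0⟩, 0, ⟨6,0⟩⟩, ⟨⟨0,0⟩, 1, ⟨4,0⟩⟩, ⟨⟨5,0⟩, 0, ⟨7,0⟩⟩, ⟨⟨8,0⟩, 1, ⟨8,0⟩⟩, ⟨⟨13,0⟩, 0, ⟨2,0⟩⟩, ⟨⟨4,0⟩, 1, ⟨6,0⟩⟩]⟩,
    ⟨⟨10,0⟩, ⟨1,0⟩, 0, [⟨⟨4,0⟩, 0, ⟨7,0⟩⟩, ⟨⟨1,0⟩, 1, ⟨5,0⟩⟩, ⟨⟨14,0⟩, 0, ⟨3,0⟩⟩, ⟨⟨9,0⟩, 1, ⟨0,0⟩⟩, ⟨⟨5,0⟩, 1, ⟨7,0⟩⟩, ⟨⟨0,0⟩, 0, ⟨5,0⟩⟩, ⟨⟨13,0⟩, 1, ⟨2,0⟩⟩]⟩,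
    ⟨⟨11,0⟩, ⟨1,0⟩, 0, [⟨⟨1,0⟩, 0, ⟨6,0⟩⟩, ⟨⟨11,0⟩, 0, ⟨2,0⟩⟩, ⟨⟨6,0⟩, 1, ⟨8,0⟩⟩, ⟨⟨14,0⟩, 1, ⟨3,0⟩⟩, ⟨⟨7,0⟩, 0, ⟨0,0⟩⟩, ⟨⟨16,0⟩, 1, ⟨4,0⟩⟩, ⟨⟨15,0⟩, 0, ⟨4,0⟩⟩]⟩,
    ⟨⟨12,0⟩, ⟨1,0⟩, 0, [⟨⟨8,0⟩, 0, ⟨1,0⟩⟩, ⟨⟨12,0⟩, 0, ⟨3,0⟩⟩, ⟨⟨7,0⟩, 1, ⟨0,0⟩⟩, ⟨⟨16,0⟩, 0, ⟨5,0⟩⟩, ⟨⟨2,0⟩, 0, ⟨7,0⟩⟩, ⟨⟨11,0⟩, 1, ⟨2,0⟩⟩, ⟨⟨6,0⟩, 0, ⟨0,0⟩⟩]⟩,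
    ⟨⟨13,0⟩, ⟨1,0⟩, 0, [⟨⟨12,0⟩, 1, ⟨3,0⟩⟩, ⟨⟨7,0⟩, 0, ⟨1,0⟩⟩, ⟨⟨16,0⟩, 1, ⟨5,0⟩⟩, ⟨⟨13,0⟩, 0, ⟨4,0⟩⟩, ⟨⟨3,0⟩, 0, ⟨8,0⟩⟩, ⟨⟨17,0⟩, 0, ⟨6,0⟩⟩, ⟨⟨9,0⟩, 0, ⟨2,0⟩⟩]⟩,
    ⟨⟨14,0⟩, ⟨1,0⟩, 0, [⟨⟨10,0⟩, 0, ⟨3,0⟩⟩, ⟨⟨0,0⟩, 0, ⟨7,0⟩⟩, ⟨⟨4,0⟩, 0, ⟨0,0⟩⟩, ⟨⟨8,0⟩, 0, ⟨2,0⟩⟩, ⟨⟨14,0⟩, 0, ⟨5,0⟩⟩, ⟨⟨5,0⟩, 1, ⟨0,0⟩⟩, ⟨⟨1,0⟩, 1, ⟨7,0⟩⟩]⟩,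
    ⟨⟨15,0⟩, ⟨1,0⟩, 0, [⟨⟨11,0⟩, 0, ⟨4,0⟩⟩, ⟨⟨6,0⟩, 1, ⟨1,0⟩⟩, ⟨⟨5,0⟩, 0, ⟨1,0⟩⟩, ⟨⟨2,0⟩, 1, ⟨8,0⟩⟩, ⟨⟨9,0⟩, 0, ⟨3,0⟩⟩, ⟨⟨14,0⟩, 1, ⟨5,0⟩⟩, ⟨⟨10,0⟩, 1, ⟨3,0⟩⟩]⟩,
    ⟨⟨16,0⟩, ⟨1,0⟩, 0, [⟨⟨3,0⟩, 1, ⟨0,0⟩⟩, ⟨⟨10,0⟩, 0, ⟨4,0⟩⟩, ⟨⟨12,0⟩, 0, ⟨5,0⟩⟩, ⟨⟨15,0⟩, 1, ⟨6,0⟩⟩, ⟨⟨11,0⟩, 1, ⟨4,0⟩⟩, ⟨⟨2,0⟩, 0, ⟨0,0⟩⟩, ⟨⟨16,0⟩, 0, ⟨7,0⟩⟩]⟩,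
    ⟨⟨17,0⟩, ⟨1,0⟩, 6, [⟨⟨16,0⟩, 1, ⟨7,0⟩⟩, ⟨⟨17,0⟩, 0, ⟨8,0⟩⟩, ⟨⟨13,0⟩, 0, ⟨6,0⟩⟩, ⟨⟨3,0⟩, 1, ⟨5,0⟩⟩, ⟨⟨12,0⟩, 0, ⟨1,0⟩⟩, ⟨⟨4,0⟩, 1, ⟨1,0⟩⟩, ⟨⟨7,0⟩, 0, ⟨3,0⟩⟩]⟩]

theorem d3_5_ok : d3_5.check = true := by decide +kernel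

/-- certificate data -/
def d3_6 : Dat where
  N := ⟨22,0⟩
  H := ⟨11,0⟩
  R0 := ⟨0,0⟩
  R1 := ⟨1,0⟩
  R2 := ⟨5,0⟩
  R3 := ⟨6,0⟩
  zs := [⟨⟨0,0⟩, ⟨5,0⟩, 0, 1, 2, 3⟩, ⟨⟨5,0⟩, ⟨1,0⟩, 1, 3, 2, 0⟩, ⟨⟨6,0⟩, ⟨5,0⟩, 1, 0, 2, 3⟩, ⟨⟨11,0⟩, ⟨1,0⟩, 1, 3, 2, 0⟩, ⟨⟨12,0⟩, ⟨4,0⟩, 1, 0, 2, 3⟩, ⟨⟨16,0⟩, ⟨1,0⟩, 2, 0, 3, 1⟩, ⟨⟨17,0⟩, ⟨4,0⟩, 0, 1, 3, 2⟩, ⟨⟨21,0⟩, ⟨1,0⟩, 3, 1, 0, 2⟩]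
  h0 := [(0, ⟨16,0⟩), (0, ⟨21,0⟩), (2, ⟨21,0⟩)]
  rr := 3
  lo1 := ⟨2,0⟩
  m1 := ⟨1,0⟩
  lo2 := ⟨6,0⟩
  m2 := ⟨2,0⟩
  W := [⟨0,0⟩, ⟨1,0⟩, ⟨4,0⟩, ⟨5,0⟩, ⟨10,0⟩]
  U := [⟨10,0⟩]
  rows := [
    ⟨⟨0,0⟩, ⟨1,0⟩, 1, [⟨⟨6,0⟩, 1, ⟨3,0⟩⟩, ⟨⟨16,0⟩, 1, ⟨10,0⟩⟩, ⟨⟨21,0⟩, 1, ⟨2,0⟩⟩, ⟨⟨5,0⟩, 0, ⟨3,0⟩⟩, ⟨⟨12,0⟩, 1, ⟨6,0⟩⟩, ⟨⟨11,0⟩, 0, ⟨6,0⟩⟩, ⟨⟨0,0⟩, 0, ⟨0,0⟩⟩]⟩,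
    ⟨⟨1,0⟩, ⟨1,0⟩, 2, [⟨⟨16,0⟩, 0, ⟨8,0⟩⟩, ⟨⟨5,0⟩, 1, ⟨5,0⟩⟩, ⟨⟨11,0⟩, 1, ⟨8,0⟩⟩, ⟨⟨12,0⟩, 0, ⟨6,0⟩⟩, ⟨⟨15,0⟩, 1, ⟨7,0⟩⟩, ⟨⟨0,0⟩, 1, ⟨0,0⟩⟩, ⟨⟨1,0⟩, 0, ⟨1,0⟩⟩]⟩,
    ⟨⟨2,0⟩, ⟨1,0⟩, 0, [⟨⟨13,0⟩, 1, ⟨7,0⟩⟩, ⟨⟨7,0⟩, 1, ⟨4,0⟩⟩, ⟨⟨14,0⟩, 0, ⟨8,0⟩⟩, ⟨⟨6,0⟩, 0, ⟨4,0⟩⟩, ⟨⟨17,0⟩, 1, ⟨9,0⟩⟩, ⟨⟨3,0⟩, 1, ⟨2,0⟩⟩, ⟨⟨12,0⟩, 0, ⟨7,0⟩⟩]⟩,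
    ⟨⟨3,0⟩, ⟨1,0⟩, 0, [⟨⟨3,0⟩, 0, ⟨3,0⟩⟩, ⟨⟨2,0⟩, 1, ⟨2,0⟩⟩, ⟨⟨4,0⟩, 1, ⟨3,0⟩⟩, ⟨⟨8,0⟩, 1, ⟨5,0⟩⟩, ⟨⟨7,0⟩, 0, ⟨5,0⟩⟩, ⟨⟨13,0⟩, 0, ⟨8,0⟩⟩, ⟨⟨15,0⟩, 0, ⟨9,0⟩⟩]⟩,
    ⟨⟨4,0⟩, ⟨1,0⟩, 0, [⟨⟨14,0⟩, 0, ⟨9,0⟩⟩, ⟨⟨19,0⟩, 1, ⟨0,0⟩⟩, ⟨⟨9,0⟩, 1, ⟨6,0⟩⟩, ⟨⟨15,0⟩, 1, ⟨9,0⟩⟩, ⟨⟨8,0⟩, 0, ⟨6,0⟩⟩, ⟨⟨16,0⟩, 0, ⟨10,0⟩⟩, ⟨⟨4,0⟩, 0, ⟨4,0⟩⟩]⟩,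
    ⟨⟨5,0⟩, ⟨1,0⟩, 3, [⟨⟨21,0⟩, 1, ⟨10,0⟩⟩, ⟨⟨18,0⟩, 0, ⟨1,0⟩⟩, ⟨⟨17,0⟩, 1, ⟨0,0⟩⟩, ⟨⟨16,0⟩, 0, ⟨0,0⟩⟩, ⟨⟨9,0⟩, 0, ⟨7,0⟩⟩, ⟨⟨6,0⟩, 1, ⟨5,0⟩⟩, ⟨⟨5,0⟩, 0, ⟨5,0⟩⟩]⟩,
    ⟨⟨6,0⟩, ⟨1,0⟩, 4, [⟨⟨5,0⟩, 1, ⟨2,0⟩⟩, ⟨⟨10,0⟩, 0, ⟨8,0⟩⟩, ⟨⟨20,0⟩, 1, ⟨1,0⟩⟩, ⟨⟨21,0⟩, 0, ⟨2,0⟩⟩, ⟨⟨0,0⟩, 0, ⟨3,0⟩⟩, ⟨⟨17,0⟩, 0, ⟨0,0⟩⟩, ⟨⟨7,0⟩, 1, ⟨6,0⟩⟩]⟩,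
    ⟨⟨7,0⟩, ⟨1,0⟩, 0, [⟨⟨7,0⟩, 0, ⟨7,0⟩⟩, ⟨⟨8,0⟩, 1, ⟨7,0⟩⟩, ⟨⟨12,0⟩, 1, ⟨9,0⟩⟩, ⟨⟨17,0⟩, 0, ⟨1,0⟩⟩, ⟨⟨18,0⟩, 1, ⟨1,0⟩⟩, ⟨⟨1,0⟩, 0, ⟨4,0⟩⟩, ⟨⟨19,0⟩, 0, ⟨2,0⟩⟩]⟩,
    ⟨⟨8,0⟩, ⟨1,0⟩, 0, [⟨⟨1,0⟩, 1, ⟨4,0⟩⟩, ⟨⟨12,0⟩, 0, ⟨10,0⟩⟩, ⟨⟨7,0⟩, 1, ⟨7,0⟩⟩, ⟨⟨2,0⟩, 0, ⟨5,0⟩⟩, ⟨⟨13,0⟩, 1, ⟨10,0⟩⟩, ⟨⟨18,0⟩, 0, ⟨2,0⟩⟩, ⟨⟨9,0⟩, 1, ⟨8,0⟩⟩]⟩,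
    ⟨⟨9,0⟩, ⟨1,0⟩, 0, [⟨⟨10,0⟩, 1, ⟨9,0⟩⟩, ⟨⟨21,0⟩, 0, ⟨4,0⟩⟩, ⟨⟨19,0⟩, 0, ⟨3,0⟩⟩, ⟨⟨14,0⟩, 1, ⟨0,0⟩⟩, ⟨⟨2,0⟩, 1, ⟨5,0⟩⟩, ⟨⟨8,0⟩, 1, ⟨8,0⟩⟩, ⟨⟨3,0⟩, 0, ⟨6,0⟩⟩]⟩,
    ⟨⟨10,0⟩, ⟨1,0⟩, 5, [⟨⟨15,0⟩, 1, ⟨1,0⟩⟩, ⟨⟨9,0⟩, 1, ⟨9,0⟩⟩, ⟨⟨0,0⟩, 0, ⟨5,0⟩⟩, ⟨⟨11,0⟩, 1, ⟨10,0⟩⟩, ⟨⟨20,0⟩, 0, ⟨4,0⟩⟩, ⟨⟨10,0⟩, 1, ⟨4,0⟩⟩, ⟨⟨21,0⟩, 0, ⟨10,0⟩⟩]⟩,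
    ⟨⟨11,0⟩, ⟨1,0⟩, 0, [⟨⟨12,0⟩, 1, ⟨0,0⟩⟩, ⟨⟨15,0⟩, 0, ⟨2,0⟩⟩, ⟨⟨1,0⟩, 0, ⟨6,0⟩⟩, ⟨⟨4,0⟩, 1, ⟨7,0⟩⟩, ⟨⟨16,0⟩, 1, ⟨2,0⟩⟩, ⟨⟨21,0⟩, 0, ⟨5,0⟩⟩, ⟨⟨10,0⟩, 1, ⟨10,0⟩⟩]⟩,
    ⟨⟨12,0⟩, ⟨1,0⟩, 0, [⟨⟨0,0⟩, 0, ⟨6,0⟩⟩, ⟨⟨17,0⟩, 1, ⟨3,0⟩⟩, ⟨⟨6,0⟩, 0, ⟨9,0⟩⟩, ⟨⟨1,0⟩, 1, ⟨6,0⟩⟩, ⟨⟨11,0⟩, 1, ⟨0,0⟩⟩, ⟨⟨2,0⟩, 0, ⟨7,0⟩⟩, ⟨⟨13,0⟩, 1, ⟨1,0⟩⟩]⟩,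
    ⟨⟨13,0⟩, ⟨1,0⟩, 0, [⟨⟨17,0⟩, 0, ⟨4,0⟩⟩, ⟨⟨1,0⟩, 0, ⟨7,0⟩⟩, ⟨⟨13,0⟩, 0, ⟨2,0⟩⟩, ⟨⟨18,0⟩, 1, ⟨4,0⟩⟩, ⟨⟨3,0⟩, 0, ⟨8,0⟩⟩, ⟨⟨12,0⟩, 1, ⟨1,0⟩⟩, ⟨⟨14,0⟩, 1, ⟨2,0⟩⟩]⟩,
    ⟨⟨14,0⟩, ⟨1,0⟩, 0, [⟨⟨19,0⟩, 1, ⟨5,0⟩⟩, ⟨⟨3,0⟩, 1, ⟨8,0⟩⟩, ⟨⟨8,0⟩, 0, ⟨0,0⟩⟩, ⟨⟨13,0⟩, 1, ⟨2,0⟩⟩, ⟨⟨4,0⟩, 0, ⟨9,0⟩⟩, ⟨⟨15,0⟩, 1, ⟨3,0⟩⟩, ⟨⟨2,0⟩, 0, ⟨8,0⟩⟩]⟩,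
    ⟨⟨15,0⟩, ⟨1,0⟩, 0, [⟨⟨9,0⟩, 0, ⟨1,0⟩⟩, ⟨⟨20,0⟩, 1, ⟨6,0⟩⟩, ⟨⟨5,0⟩, 0, ⟨10,0⟩⟩, ⟨⟨3,0⟩, 0, ⟨9,0⟩⟩, ⟨⟨14,0⟩, 1, ⟨3,0⟩⟩, ⟨⟨4,0⟩, 1, ⟨9,0⟩⟩, ⟨⟨16,0⟩, 1, ⟨4,0⟩⟩]⟩,
    ⟨⟨16,0⟩, ⟨1,0⟩, 0, [⟨⟨4,0⟩, 0, ⟨10,0⟩⟩, ⟨⟨6,0⟩, 0, ⟨0,0⟩⟩, ⟨⟨15,0⟩, 1, ⟨4,0⟩⟩, ⟨⟨20,0⟩, 0, ⟨7,0⟩⟩, ⟨⟨10,0⟩, 0, ⟨2,0⟩⟩, ⟨⟨5,0⟩, 1, ⟨10,0⟩⟩, ⟨⟨17,0⟩, 1, ⟨5,0⟩⟩]⟩,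
    ⟨⟨17,0⟩, ⟨1,0⟩, 0, [⟨⟨18,0⟩, 1, ⟨6,0⟩⟩, ⟨⟨11,0⟩, 0, ⟨3,0⟩⟩, ⟨⟨16,0⟩, 1, ⟨5,0⟩⟩, ⟨⟨0,0⟩, 1, ⟨8,0⟩⟩, ⟨⟨5,0⟩, 0, ⟨0,0⟩⟩, ⟨⟨7,0⟩, 0, ⟨1,0⟩⟩, ⟨⟨6,0⟩, 1, ⟨0,0⟩⟩]⟩,
    ⟨⟨18,0⟩, ⟨1,0⟩, 0, [⟨⟨8,0⟩, 0, ⟨2,0⟩⟩, ⟨⟨0,0⟩, 0, ⟨9,0⟩⟩, ⟨⟨18,0⟩, 0, ⟨7,0⟩⟩, ⟨⟨7,0⟩, 1, ⟨1,0⟩⟩, ⟨⟨6,0⟩, 0, ⟨1,0⟩⟩, ⟨⟨19,0⟩, 1, ⟨7,0⟩⟩, ⟨⟨11,0⟩, 1, ⟨3,0⟩⟩]⟩,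
    ⟨⟨19,0⟩, ⟨1,0⟩, 0, [⟨⟨20,0⟩, 1, ⟨8,0⟩⟩, ⟨⟨13,0⟩, 0, ⟨5,0⟩⟩, ⟨⟨2,0⟩, 1, ⟨10,0⟩⟩, ⟨⟨19,0⟩, 0, ⟨8,0⟩⟩, ⟨⟨1,0⟩, 0, ⟨10,0⟩⟩, ⟨⟨9,0⟩, 0, ⟨3,0⟩⟩, ⟨⟨18,0⟩, 1, ⟨7,0⟩⟩]⟩,
    ⟨⟨20,0⟩, ⟨1,0⟩, 0, [⟨⟨2,0⟩, 0, ⟨0,0⟩⟩, ⟨⟨14,0⟩, 0, ⟨6,0⟩⟩, ⟨⟨10,0⟩, 0, ⟨4,0⟩⟩, ⟨⟨9,0⟩, 1, ⟨3,0⟩⟩, ⟨⟨19,0⟩, 1, ⟨8,0⟩⟩, ⟨⟨20,0⟩, 0, ⟨9,0⟩⟩, ⟨⟨8,0⟩, 0, ⟨3,0⟩⟩]⟩,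
    ⟨⟨21,0⟩, ⟨1,0⟩, 6, [⟨⟨11,0⟩, 0, ⟨5,0⟩⟩, ⟨⟨4,0⟩, 1, ⟨1,0⟩⟩, ⟨⟨3,0⟩, 0, ⟨1,0⟩⟩, ⟨⟨10,0⟩, 0, ⟨10,0⟩⟩, ⟨⟨21,0⟩, 1, ⟨4,0⟩⟩, ⟨⟨14,0⟩, 1, ⟨6,0⟩⟩, ⟨⟨20,0⟩, 1, ⟨9,0⟩⟩]⟩]

theorem d3_6_ok : d3_6.check = true := by decide +kernel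

/-- certificate data -/
def d3_7 : Dat where
  N := ⟨26,0⟩
  H := ⟨13,0⟩
  R0 := ⟨0,0⟩
  R1 := ⟨1,0⟩
  R2 := ⟨6,0⟩
  R3 := ⟨7,0⟩
  zs := [⟨⟨0,0⟩, ⟨6,0⟩, 0, 1, 2, 3⟩, ⟨⟨6,0⟩, ⟨1,0⟩, 1, 3, 2, 0⟩, ⟨⟨7,0⟩, ⟨6,0⟩, 1, 0, 2, 3⟩, ⟨⟨13,0⟩, ⟨1,0⟩, 1, 3, 2, 0⟩, ⟨⟨14,0⟩, ⟨5,0⟩, 1, 0, 2, 3⟩, ⟨⟨19,0⟩, ⟨1,0⟩, 2, 0, 3, 1⟩, ⟨⟨20,0⟩, ⟨5,0⟩, 0, 1, 3, 2⟩, ⟨⟨25,0⟩, ⟨1,0⟩, 3, 1, 0, 2⟩]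
  h0 := [(0, ⟨19,0⟩), (0, ⟨25,0⟩), (2, ⟨25,0⟩)]
  rr := 3
  lo1 := ⟨1,0⟩
  m1 := ⟨2,0⟩
  lo2 := ⟨8,0⟩
  m2 := ⟨2,0⟩
  W := [⟨0,0⟩, ⟨5,0⟩, ⟨6,0⟩, ⟨7,0⟩, ⟨12,0⟩]
  U := [⟨5,0⟩]
  rows := [
    ⟨⟨0,0⟩, ⟨1,0⟩, 1, [⟨⟨5,0⟩, 1, ⟨2,0⟩⟩, ⟨⟨25,0⟩, 0, ⟨3,0⟩⟩, ⟨⟨19,0⟩, 1, ⟨12,0⟩⟩, ⟨⟨6,0⟩, 1, ⟨3,0⟩⟩, ⟨⟨8,0⟩, 1, ⟨4,0⟩⟩, ⟨⟨20,0⟩, 0, ⟨10,0⟩⟩, ⟨⟨7,0⟩, 0, ⟨4,0⟩⟩]⟩,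
    ⟨⟨1,0⟩, ⟨1,0⟩, 2, [⟨⟨1,0⟩, 0, ⟨1,0⟩⟩, ⟨⟨13,0⟩, 0, ⟨10,0⟩⟩, ⟨⟨6,0⟩, 1, ⟨6,0⟩⟩, ⟨⟨19,0⟩, 1, ⟨9,0⟩⟩, ⟨⟨20,0⟩, 1, ⟨10,0⟩⟩, ⟨⟨21,0⟩, 0, ⟨11,0⟩⟩, ⟨⟨0,0⟩, 1, ⟨0,0⟩⟩]⟩,
    ⟨⟨2,0⟩, ⟨1,0⟩, 0, [⟨⟨14,0⟩, 0, ⟨8,0⟩⟩, ⟨⟨1,0⟩, 1, ⟨1,0⟩⟩, ⟨⟨8,0⟩, 0, ⟨5,0⟩⟩, ⟨⟨20,0⟩, 0, ⟨11,0⟩⟩, ⟨⟨15,0⟩, 1, ⟨8,0⟩⟩, ⟨⟨7,0⟩, 1, ⟨4,0⟩⟩, ⟨⟨21,0⟩, 1, ⟨11,0⟩⟩]⟩,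
    ⟨⟨3,0⟩, ⟨1,0⟩, 0, [⟨⟨23,0⟩, 0, ⟨0,0⟩⟩, ⟨⟨9,0⟩, 0, ⟨6,0⟩⟩, ⟨⟨2,0⟩, 1, ⟨2,0⟩⟩, ⟨⟨10,0⟩, 1, ⟨6,0⟩⟩, ⟨⟨21,0⟩, 0, ⟨12,0⟩⟩, ⟨⟨22,0⟩, 1, ⟨12,0⟩⟩, ⟨⟨8,0⟩, 1, ⟨5,0⟩⟩]⟩,
    ⟨⟨4,0⟩, ⟨1,0⟩, 0, [⟨⟨11,0⟩, 1, ⟨7,0⟩⟩, ⟨⟨24,0⟩, 0, ⟨1,0⟩⟩, ⟨⟨10,0⟩, 0, ⟨7,0⟩⟩, ⟨⟨23,0⟩, 1, ⟨0,0⟩⟩, ⟨⟨3,0⟩, 1, ⟨3,0⟩⟩, ⟨⟨4,0⟩, 0, ⟨4,0⟩⟩, ⟨⟨9,0⟩, 1, ⟨6,0⟩⟩]⟩,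
    ⟨⟨5,0⟩, ⟨1,0⟩, 0, [⟨⟨4,0⟩, 1, ⟨4,0⟩⟩, ⟨⟨18,0⟩, 1, ⟨11,0⟩⟩, ⟨⟨17,0⟩, 0, ⟨11,0⟩⟩, ⟨⟨25,0⟩, 0, ⟨2,0⟩⟩, ⟨⟨24,0⟩, 1, ⟨1,0⟩⟩, ⟨⟨11,0⟩, 0, ⟨8,0⟩⟩, ⟨⟨23,0⟩, 0, ⟨1,0⟩⟩]⟩,
    ⟨⟨6,0⟩, ⟨1,0⟩, 3, [⟨⟨25,0⟩, 1, ⟨12,0⟩⟩, ⟨⟨11,0⟩, 1, ⟨8,0⟩⟩, ⟨⟨20,0⟩, 1, ⟨0,0⟩⟩, ⟨⟨12,0⟩, 0, ⟨9,0⟩⟩, ⟨⟨5,0⟩, 1, ⟨5,0⟩⟩, ⟨⟨0,0⟩, 0, ⟨3,0⟩⟩, ⟨⟨13,0⟩, 1, ⟨9,0⟩⟩]⟩,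
    ⟨⟨7,0⟩, ⟨1,0⟩, 4, [⟨⟨6,0⟩, 0, ⟨3,0⟩⟩, ⟨⟨7,0⟩, 0, ⟨7,0⟩⟩, ⟨⟨0,0⟩, 1, ⟨3,0⟩⟩, ⟨⟨14,0⟩, 1, ⟨10,0⟩⟩, ⟨⟨25,0⟩, 1, ⟨2,0⟩⟩, ⟨⟨12,0⟩, 1, ⟨9,0⟩⟩, ⟨⟨24,0⟩, 0, ⟨2,0⟩⟩]⟩,
    ⟨⟨8,0⟩, ⟨1,0⟩, 0, [⟨⟨15,0⟩, 1, ⟨11,0⟩⟩, ⟨⟨14,0⟩, 0, ⟨11,0⟩⟩, ⟨⟨1,0⟩, 1, ⟨4,0⟩⟩, ⟨⟨8,0⟩, 0, ⟨8,0⟩⟩, ⟨⟨0,0⟩, 0, ⟨4,0⟩⟩, ⟨⟨13,0⟩, 1, ⟨10,0⟩⟩, ⟨⟨2,0⟩, 0, ⟨5,0⟩⟩]⟩,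
    ⟨⟨9,0⟩, ⟨1,0⟩, 0, [⟨⟨8,0⟩, 1, ⟨8,0⟩⟩, ⟨⟨22,0⟩, 1, ⟨2,0⟩⟩, ⟨⟨9,0⟩, 0, ⟨9,0⟩⟩, ⟨⟨15,0⟩, 0, ⟨12,0⟩⟩, ⟨⟨16,0⟩, 1, ⟨12,0⟩⟩, ⟨⟨14,0⟩, 1, ⟨11,0⟩⟩, ⟨⟨3,0⟩, 0, ⟨6,0⟩⟩]⟩,
    ⟨⟨10,0⟩, ⟨1,0⟩, 0, [⟨⟨9,0⟩, 1, ⟨9,0⟩⟩, ⟨⟨3,0⟩, 1, ⟨6,0⟩⟩, ⟨⟨22,0⟩, 0, ⟨3,0⟩⟩, ⟨⟨2,0⟩, 0, ⟨6,0⟩⟩, ⟨⟨4,0⟩, 0, ⟨7,0⟩⟩, ⟨⟨16,0⟩, 0, ⟨0,0⟩⟩, ⟨⟨15,0⟩, 1, ⟨12,0⟩⟩]⟩,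
    ⟨⟨11,0⟩, ⟨1,0⟩, 0, [⟨⟨10,0⟩, 1, ⟨10,0⟩⟩, ⟨⟨16,0⟩, 1, ⟨0,0⟩⟩, ⟨⟨18,0⟩, 1, ⟨1,0⟩⟩, ⟨⟨4,0⟩, 1, ⟨7,0⟩⟩, ⟨⟨11,0⟩, 0, ⟨11,0⟩⟩, ⟨⟨17,0⟩, 0, ⟨1,0⟩⟩, ⟨⟨5,0⟩, 0, ⟨8,0⟩⟩]⟩,
    ⟨⟨12,0⟩, ⟨1,0⟩, 5, [⟨⟨17,0⟩, 1, ⟨1,0⟩⟩, ⟨⟨12,0⟩, 0, ⟨12,0⟩⟩, ⟨⟨11,0⟩, 1, ⟨11,0⟩⟩, ⟨⟨24,0⟩, 0, ⟨5,0⟩⟩, ⟨⟨6,0⟩, 0, ⟨9,0⟩⟩, ⟨⟨5,0⟩, 0, ⟨2,0⟩⟩, ⟨⟨18,0⟩, 1, ⟨8,0⟩⟩]⟩,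
    ⟨⟨13,0⟩, ⟨1,0⟩, 0, [⟨⟨20,0⟩, 1, ⟨3,0⟩⟩, ⟨⟨5,0⟩, 0, ⟨9,0⟩⟩, ⟨⟨13,0⟩, 0, ⟨0,0⟩⟩, ⟨⟨18,0⟩, 1, ⟨2,0⟩⟩, ⟨⟨7,0⟩, 0, ⟨10,0⟩⟩, ⟨⟨25,0⟩, 0, ⟨6,0⟩⟩, ⟨⟨19,0⟩, 0, ⟨3,0⟩⟩]⟩,
    ⟨⟨14,0⟩, ⟨1,0⟩, 0, [⟨⟨0,0⟩, 0, ⟨7,0⟩⟩, ⟨⟨19,0⟩, 1, ⟨3,0⟩⟩, ⟨⟨7,0⟩, 1, ⟨10,0⟩⟩, ⟨⟨21,0⟩, 1, ⟨4,0⟩⟩, ⟨⟨13,0⟩, 1, ⟨0,0⟩⟩, ⟨⟨1,0⟩, 1, ⟨7,0⟩⟩, ⟨⟨6,0⟩, 0, ⟨10,0⟩⟩]⟩,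
    ⟨⟨15,0⟩, ⟨1,0⟩, 0, [⟨⟨21,0⟩, 0, ⟨5,0⟩⟩, ⟨⟨20,0⟩, 1, ⟨4,0⟩⟩, ⟨⟨15,0⟩, 0, ⟨2,0⟩⟩, ⟨⟨22,0⟩, 1, ⟨5,0⟩⟩, ⟨⟨1,0⟩, 0, ⟨8,0⟩⟩, ⟨⟨9,0⟩, 0, ⟨12,0⟩⟩, ⟨⟨14,0⟩, 1, ⟨1,0⟩⟩]⟩,
    ⟨⟨16,0⟩, ⟨1,0⟩, 0, [⟨⟨22,0⟩, 0, ⟨6,0⟩⟩, ⟨⟨21,0⟩, 1, ⟨5,0⟩⟩, ⟨⟨3,0⟩, 1, ⟨9,0⟩⟩, ⟨⟨9,0⟩, 1, ⟨12,0⟩⟩, ⟨⟨23,0⟩, 1, ⟨6,0⟩⟩, ⟨⟨2,0⟩, 0, ⟨9,0⟩⟩, ⟨⟨10,0⟩, 0, ⟨0,0⟩⟩]⟩,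
    ⟨⟨17,0⟩, ⟨1,0⟩, 0, [⟨⟨3,0⟩, 0, ⟨10,0⟩⟩, ⟨⟨4,0⟩, 1, ⟨10,0⟩⟩, ⟨⟨24,0⟩, 1, ⟨7,0⟩⟩, ⟨⟨17,0⟩, 0, ⟨4,0⟩⟩, ⟨⟨9,0⟩, 0, ⟨0,0⟩⟩, ⟨⟨23,0⟩, 0, ⟨7,0⟩⟩, ⟨⟨16,0⟩, 1, ⟨3,0⟩⟩]⟩,
    ⟨⟨18,0⟩, ⟨1,0⟩, 0, [⟨⟨12,0⟩, 0, ⟨2,0⟩⟩, ⟨⟨23,0⟩, 1, ⟨7,0⟩⟩, ⟨⟨25,0⟩, 1, ⟨8,0⟩⟩, ⟨⟨11,0⟩, 1, ⟨1,0⟩⟩, ⟨⟨10,0⟩, 0, ⟨1,0⟩⟩, ⟨⟨18,0⟩, 0, ⟨5,0⟩⟩, ⟨⟨4,0⟩, 0, ⟨11,0⟩⟩]⟩,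
    ⟨⟨19,0⟩, ⟨1,0⟩, 0, [⟨⟨18,0⟩, 1, ⟨5,0⟩⟩, ⟨⟨0,0⟩, 1, ⟨9,0⟩⟩, ⟨⟨5,0⟩, 0, ⟨12,0⟩⟩, ⟨⟨13,0⟩, 0, ⟨3,0⟩⟩, ⟨⟨19,0⟩, 0, ⟨6,0⟩⟩, ⟨⟨24,0⟩, 1, ⟨8,0⟩⟩, ⟨⟨12,0⟩, 1, ⟨2,0⟩⟩]⟩,
    ⟨⟨20,0⟩, ⟨1,0⟩, 0, [⟨⟨7,0⟩, 1, ⟨0,0⟩⟩, ⟨⟨6,0⟩, 0, ⟨0,0⟩⟩, ⟨⟨14,0⟩, 0, ⟨4,0⟩⟩, ⟨⟨0,0⟩, 0, ⟨10,0⟩⟩, ⟨⟨12,0⟩, 0, ⟨3,0⟩⟩, ⟨⟨19,0⟩, 1, ⟨6,0⟩⟩, ⟨⟨1,0⟩, 1, ⟨10,0⟩⟩]⟩,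
    ⟨⟨21,0⟩, ⟨1,0⟩, 0, [⟨⟨13,0⟩, 0, ⟨4,0⟩⟩, ⟨⟨15,0⟩, 0, ⟨5,0⟩⟩, ⟨⟨21,0⟩, 0, ⟨8,0⟩⟩, ⟨⟨7,0⟩, 0, ⟨1,0⟩⟩, ⟨⟨2,0⟩, 1, ⟨11,0⟩⟩, ⟨⟨8,0⟩, 1, ⟨1,0⟩⟩, ⟨⟨20,0⟩, 1, ⟨7,0⟩⟩]⟩,
    ⟨⟨22,0⟩, ⟨1,0⟩, 0, [⟨⟨2,0⟩, 0, ⟨12,0⟩⟩, ⟨⟨8,0⟩, 0, ⟨2,0⟩⟩, ⟨⟨16,0⟩, 0, ⟨6,0⟩⟩, ⟨⟨1,0⟩, 1, ⟨11,0⟩⟩, ⟨⟨14,0⟩, 0, ⟨5,0⟩⟩, ⟨⟨15,0⟩, 1, ⟨5,0⟩⟩, ⟨⟨22,0⟩, 0, ⟨9,0⟩⟩]⟩,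
    ⟨⟨23,0⟩, ⟨1,0⟩, 0, [⟨⟨16,0⟩, 1, ⟨6,0⟩⟩, ⟨⟨2,0⟩, 1, ⟨12,0⟩⟩, ⟨⟨23,0⟩, 0, ⟨10,0⟩⟩, ⟨⟨3,0⟩, 0, ⟨0,0⟩⟩, ⟨⟨22,0⟩, 1, ⟨9,0⟩⟩, ⟨⟨10,0⟩, 1, ⟨3,0⟩⟩, ⟨⟨17,0⟩, 0, ⟨7,0⟩⟩]⟩,
    ⟨⟨24,0⟩, ⟨1,0⟩, 0, [⟨⟨24,0⟩, 0, ⟨11,0⟩⟩, ⟨⟨10,0⟩, 0, ⟨4,0⟩⟩, ⟨⟨4,0⟩, 0, ⟨1,0⟩⟩, ⟨⟨16,0⟩, 0, ⟨7,0⟩⟩, ⟨⟨17,0⟩, 1, ⟨7,0⟩⟩, ⟨⟨3,0⟩, 1, ⟨0,0⟩⟩, ⟨⟨11,0⟩, 1, ⟨4,0⟩⟩]⟩,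
    ⟨⟨25,0⟩, ⟨1,0⟩, 6, [⟨⟨19,0⟩, 0, ⟨9,0⟩⟩, ⟨⟨17,0⟩, 0, ⟨8,0⟩⟩, ⟨⟨12,0⟩, 1, ⟨5,0⟩⟩, ⟨⟨5,0⟩, 1, ⟨8,0⟩⟩, ⟨⟨18,0⟩, 0, ⟨2,0⟩⟩, ⟨⟨6,0⟩, 1, ⟨2,0⟩⟩, ⟨⟨25,0⟩, 0, ⟨12,0⟩⟩]⟩]

theorem d3_7_ok : d3_7.check = true := by decide +kernel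

/-- certificate data -/
def d3_8 : Dat where
  N := ⟨30,0⟩
  H := ⟨15,0⟩
  R0 := ⟨0,0⟩
  R1 := ⟨1,0⟩
  R2 := ⟨7,0⟩
  R3 := ⟨8,0⟩
  zs := [⟨⟨0,0⟩, ⟨7,0⟩, 0, 1, 2, 3⟩, ⟨⟨7,0⟩, ⟨1,0⟩, 1, 3, 2, 0⟩, ⟨⟨8,0⟩, ⟨7,0⟩, 1, 0, 2, 3⟩, ⟨⟨15,0⟩, ⟨1,0⟩, 1, 3, 2, 0⟩, ⟨⟨16,0⟩, ⟨6,0⟩, 1, 0, 2, 3⟩, ⟨⟨22,0⟩, ⟨1,0⟩, 2, 0, 3, 1⟩, ⟨⟨23,0⟩, ⟨6,0⟩, 0, 1, 3, 2⟩, ⟨⟨29,0⟩, ⟨1,0⟩, 3, 1, 0, 2⟩]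
  h0 := [(0, ⟨22,0⟩), (0, ⟨29,0⟩), (2, ⟨29,0⟩)]
  rr := 3
  lo1 := ⟨2,0⟩
  m1 := ⟨2,0⟩
  lo2 := ⟨8,0⟩
  m2 := ⟨3,0⟩
  W := [⟨0,0⟩, ⟨1,0⟩, ⟨6,0⟩, ⟨7,0⟩, ⟨14,0⟩]
  U := [⟨14,0⟩]
  rows := [
    ⟨⟨0,0⟩, ⟨1,0⟩, 1, [⟨⟨22,0⟩, 1, ⟨14,0⟩⟩, ⟨⟨29,0⟩, 1, ⟨3,0⟩⟩, ⟨⟨6,0⟩, 0, ⟨3,0⟩⟩, ⟨⟨17,0⟩, 0, ⟨9,0⟩⟩, ⟨⟨0,0⟩, 0, ⟨0,0⟩⟩, ⟨⟨16,0⟩, 1, ⟨8,0⟩⟩, ⟨⟨7,0⟩, 0, ⟨4,0⟩⟩]⟩,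
    ⟨⟨1,0⟩, ⟨1,0⟩, 2, [⟨⟨7,0⟩, 1, ⟨7,0⟩⟩, ⟨⟨15,0⟩, 1, ⟨11,0⟩⟩, ⟨⟨14,0⟩, 0, ⟨7,0⟩⟩, ⟨⟨23,0⟩, 0, ⟨12,0⟩⟩, ⟨⟨2,0⟩, 1, ⟨1,0⟩⟩, ⟨⟨21,0⟩, 1, ⟨10,0⟩⟩, ⟨⟨22,0⟩, 0, ⟨11,0⟩⟩]⟩,
    ⟨⟨2,0⟩, ⟨1,0⟩, 0, [⟨⟨18,0⟩, 0, ⟨10,0⟩⟩, ⟨⟨23,0⟩, 1, ⟨12,0⟩⟩, ⟨⟨9,0⟩, 1, ⟨5,0⟩⟩, ⟨⟨1,0⟩, 1, ⟨1,0⟩⟩, ⟨⟨17,0⟩, 1, ⟨9,0⟩⟩, ⟨⟨24,0⟩, 0, ⟨13,0⟩⟩, ⟨⟨3,0⟩, 1, ⟨2,0⟩⟩]⟩,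
    ⟨⟨3,0⟩, ⟨1,0⟩, 0, [⟨⟨4,0⟩, 1, ⟨3,0⟩⟩, ⟨⟨17,0⟩, 0, ⟨10,0⟩⟩, ⟨⟨24,0⟩, 1, ⟨13,0⟩⟩, ⟨⟨2,0⟩, 1, ⟨2,0⟩⟩, ⟨⟨18,0⟩, 1, ⟨10,0⟩⟩, ⟨⟨3,0⟩, 0, ⟨3,0⟩⟩, ⟨⟨10,0⟩, 1, ⟨6,0⟩⟩]⟩,
    ⟨⟨4,0⟩, ⟨1,0⟩, 0, [⟨⟨10,0⟩, 0, ⟨7,0⟩⟩, ⟨⟨25,0⟩, 1, ⟨14,0⟩⟩, ⟨⟨26,0⟩, 0, ⟨0,0⟩⟩, ⟨⟨18,0⟩, 0, ⟨11,0⟩⟩, ⟨⟨20,0⟩, 0, ⟨12,0⟩⟩, ⟨⟨19,0⟩, 1, ⟨11,0⟩⟩, ⟨⟨5,0⟩, 1, ⟨4,0⟩⟩]⟩,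
    ⟨⟨5,0⟩, ⟨1,0⟩, 0, [⟨⟨19,0⟩, 0, ⟨12,0⟩⟩, ⟨⟨11,0⟩, 0, ⟨8,0⟩⟩, ⟨⟨4,0⟩, 1, ⟨4,0⟩⟩, ⟨⟨27,0⟩, 0, ⟨1,0⟩⟩, ⟨⟨5,0⟩, 0, ⟨5,0⟩⟩, ⟨⟨6,0⟩, 1, ⟨5,0⟩⟩, ⟨⟨20,0⟩, 1, ⟨12,0⟩⟩]⟩,
    ⟨⟨6,0⟩, ⟨1,0⟩, 0, [⟨⟨20,0⟩, 0, ⟨13,0⟩⟩, ⟨⟨6,0⟩, 0, ⟨6,0⟩⟩, ⟨⟨12,0⟩, 0, ⟨9,0⟩⟩, ⟨⟨5,0⟩, 1, ⟨5,0⟩⟩, ⟨⟨22,0⟩, 0, ⟨14,0⟩⟩, ⟨⟨27,0⟩, 1, ⟨1,0⟩⟩, ⟨⟨28,0⟩, 0, ⟨2,0⟩⟩]⟩,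
    ⟨⟨7,0⟩, ⟨1,0⟩, 3, [⟨⟨24,0⟩, 0, ⟨1,0⟩⟩, ⟨⟨21,0⟩, 0, ⟨14,0⟩⟩, ⟨⟨29,0⟩, 1, ⟨14,0⟩⟩, ⟨⟨6,0⟩, 1, ⟨6,0⟩⟩, ⟨⟨8,0⟩, 1, ⟨7,0⟩⟩, ⟨⟨23,0⟩, 1, ⟨0,0⟩⟩, ⟨⟨13,0⟩, 0, ⟨10,0⟩⟩]⟩,
    ⟨⟨8,0⟩, ⟨1,0⟩, 4, [⟨⟨0,0⟩, 0, ⟨4,0⟩⟩, ⟨⟨14,0⟩, 0, ⟨11,0⟩⟩, ⟨⟨22,0⟩, 1, ⟨11,0⟩⟩, ⟨⟨29,0⟩, 0, ⟨3,0⟩⟩, ⟨⟨9,0⟩, 1, ⟨8,0⟩⟩, ⟨⟨28,0⟩, 1, ⟨2,0⟩⟩, ⟨⟨8,0⟩, 0, ⟨8,0⟩⟩]⟩,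
    ⟨⟨9,0⟩, ⟨1,0⟩, 0, [⟨⟨1,0⟩, 0, ⟨5,0⟩⟩, ⟨⟨9,0⟩, 0, ⟨9,0⟩⟩, ⟨⟨8,0⟩, 1, ⟨8,0⟩⟩, ⟨⟨25,0⟩, 0, ⟨2,0⟩⟩, ⟨⟨16,0⟩, 1, ⟨12,0⟩⟩, ⟨⟨0,0⟩, 1, ⟨4,0⟩⟩, ⟨⟨15,0⟩, 0, ⟨12,0⟩⟩]⟩,
    ⟨⟨10,0⟩, ⟨1,0⟩, 0, [⟨⟨9,0⟩, 1, ⟨9,0⟩⟩, ⟨⟨24,0⟩, 0, ⟨2,0⟩⟩, ⟨⟨16,0⟩, 0, ⟨13,0⟩⟩, ⟨⟨11,0⟩, 1, ⟨10,0⟩⟩, ⟨⟨1,0⟩, 1, ⟨5,0⟩⟩, ⟨⟨10,0⟩, 0, ⟨10,0⟩⟩, ⟨⟨17,0⟩, 1, ⟨13,0⟩⟩]⟩,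
    ⟨⟨11,0⟩, ⟨1,0⟩, 0, [⟨⟨17,0⟩, 0, ⟨14,0⟩⟩, ⟨⟨2,0⟩, 1, ⟨6,0⟩⟩, ⟨⟨10,0⟩, 1, ⟨10,0⟩⟩, ⟨⟨26,0⟩, 1, ⟨3,0⟩⟩, ⟨⟨12,0⟩, 1, ⟨11,0⟩⟩, ⟨⟨18,0⟩, 1, ⟨14,0⟩⟩, ⟨⟨25,0⟩, 0, ⟨3,0⟩⟩]⟩,
    ⟨⟨12,0⟩, ⟨1,0⟩, 0, [⟨⟨13,0⟩, 1, ⟨12,0⟩⟩, ⟨⟨26,0⟩, 0, ⟨4,0⟩⟩, ⟨⟨3,0⟩, 1, ⟨7,0⟩⟩, ⟨⟨4,0⟩, 0, ⟨8,0⟩⟩, ⟨⟨27,0⟩, 1, ⟨4,0⟩⟩, ⟨⟨12,0⟩, 0, ⟨12,0⟩⟩, ⟨⟨19,0⟩, 1, ⟨0,0⟩⟩]⟩,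
    ⟨⟨13,0⟩, ⟨1,0⟩, 0, [⟨⟨28,0⟩, 1, ⟨5,0⟩⟩, ⟨⟨27,0⟩, 0, ⟨5,0⟩⟩, ⟨⟨19,0⟩, 0, ⟨1,0⟩⟩, ⟨⟨13,0⟩, 0, ⟨13,0⟩⟩, ⟨⟨14,0⟩, 1, ⟨13,0⟩⟩, ⟨⟨29,0⟩, 0, ⟨6,0⟩⟩, ⟨⟨4,0⟩, 1, ⟨8,0⟩⟩]⟩,
    ⟨⟨14,0⟩, ⟨1,0⟩, 5, [⟨⟨21,0⟩, 1, ⟨2,0⟩⟩, ⟨⟨13,0⟩, 1, ⟨13,0⟩⟩, ⟨⟨20,0⟩, 0, ⟨2,0⟩⟩, ⟨⟨0,0⟩, 0, ⟨7,0⟩⟩, ⟨⟨28,0⟩, 0, ⟨6,0⟩⟩, ⟨⟨14,0⟩, 1, ⟨6,0⟩⟩, ⟨⟨29,0⟩, 0, ⟨14,0⟩⟩]⟩,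
    ⟨⟨15,0⟩, ⟨1,0⟩, 0, [⟨⟨15,0⟩, 0, ⟨0,0⟩⟩, ⟨⟨0,0⟩, 1, ⟨7,0⟩⟩, ⟨⟨7,0⟩, 0, ⟨11,0⟩⟩, ⟨⟨16,0⟩, 1, ⟨0,0⟩⟩, ⟨⟨21,0⟩, 0, ⟨3,0⟩⟩, ⟨⟨1,0⟩, 0, ⟨8,0⟩⟩, ⟨⟨6,0⟩, 1, ⟨10,0⟩⟩]⟩,
    ⟨⟨16,0⟩, ⟨1,0⟩, 0, [⟨⟨2,0⟩, 0, ⟨9,0⟩⟩, ⟨⟨1,0⟩, 1, ⟨8,0⟩⟩, ⟨⟨0,0⟩, 0, ⟨8,0⟩⟩, ⟨⟨7,0⟩, 1, ⟨11,0⟩⟩, ⟨⟨15,0⟩, 1, ⟨0,0⟩⟩, ⟨⟨22,0⟩, 0, ⟨4,0⟩⟩, ⟨⟨16,0⟩, 0, ⟨1,0⟩⟩]⟩,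
    ⟨⟨17,0⟩, ⟨1,0⟩, 0, [⟨⟨16,0⟩, 1, ⟨1,0⟩⟩, ⟨⟨18,0⟩, 1, ⟨2,0⟩⟩, ⟨⟨23,0⟩, 0, ⟨5,0⟩⟩, ⟨⟨8,0⟩, 1, ⟨12,0⟩⟩, ⟨⟨3,0⟩, 0, ⟨10,0⟩⟩, ⟨⟨17,0⟩, 0, ⟨2,0⟩⟩, ⟨⟨2,0⟩, 1, ⟨9,0⟩⟩]⟩,
    ⟨⟨18,0⟩, ⟨1,0⟩, 0, [⟨⟨25,0⟩, 1, ⟨6,0⟩⟩, ⟨⟨3,0⟩, 1, ⟨10,0⟩⟩, ⟨⟨17,0⟩, 1, ⟨2,0⟩⟩, ⟨⟨9,0⟩, 1, ⟨13,0⟩⟩, ⟨⟨19,0⟩, 1, ⟨3,0⟩⟩, ⟨⟨4,0⟩, 0, ⟨11,0⟩⟩, ⟨⟨24,0⟩, 0, ⟨6,0⟩⟩]⟩,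
    ⟨⟨19,0⟩, ⟨1,0⟩, 0, [⟨⟨3,0⟩, 0, ⟨11,0⟩⟩, ⟨⟨5,0⟩, 0, ⟨12,0⟩⟩, ⟨⟨18,0⟩, 1, ⟨3,0⟩⟩, ⟨⟨10,0⟩, 1, ⟨14,0⟩⟩, ⟨⟨25,0⟩, 0, ⟨7,0⟩⟩, ⟨⟨26,0⟩, 1, ⟨7,0⟩⟩, ⟨⟨11,0⟩, 0, ⟨0,0⟩⟩]⟩,
    ⟨⟨20,0⟩, ⟨1,0⟩, 0, [⟨⟨26,0⟩, 0, ⟨8,0⟩⟩, ⟨⟨19,0⟩, 1, ⟨4,0⟩⟩, ⟨⟨11,0⟩, 1, ⟨0,0⟩⟩, ⟨⟨20,0⟩, 0, ⟨5,0⟩⟩, ⟨⟨6,0⟩, 0, ⟨13,0⟩⟩, ⟨⟨5,0⟩, 1, ⟨12,0⟩⟩, ⟨⟨21,0⟩, 1, ⟨5,0⟩⟩]⟩,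
    ⟨⟨21,0⟩, ⟨1,0⟩, 0, [⟨⟨6,0⟩, 1, ⟨13,0⟩⟩, ⟨⟨12,0⟩, 1, ⟨1,0⟩⟩, ⟨⟨28,0⟩, 1, ⟨9,0⟩⟩, ⟨⟨21,0⟩, 0, ⟨6,0⟩⟩, ⟨⟨13,0⟩, 0, ⟨2,0⟩⟩, ⟨⟨7,0⟩, 0, ⟨14,0⟩⟩, ⟨⟨27,0⟩, 0, ⟨9,0⟩⟩]⟩,
    ⟨⟨22,0⟩, ⟨1,0⟩, 0, [⟨⟨29,0⟩, 1, ⟨10,0⟩⟩, ⟨⟨22,0⟩, 0, ⟨7,0⟩⟩, ⟨⟨21,0⟩, 1, ⟨6,0⟩⟩, ⟨⟨28,0⟩, 0, ⟨10,0⟩⟩, ⟨⟨7,0⟩, 1, ⟨14,0⟩⟩, ⟨⟨8,0⟩, 0, ⟨0,0⟩⟩, ⟨⟨23,0⟩, 1, ⟨7,0⟩⟩]⟩,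
    ⟨⟨23,0⟩, ⟨1,0⟩, 0, [⟨⟨8,0⟩, 1, ⟨0,0⟩⟩, ⟨⟨7,0⟩, 0, ⟨0,0⟩⟩, ⟨⟨15,0⟩, 0, ⟨4,0⟩⟩, ⟨⟨22,0⟩, 1, ⟨7,0⟩⟩, ⟨⟨23,0⟩, 0, ⟨8,0⟩⟩, ⟨⟨9,0⟩, 0, ⟨1,0⟩⟩, ⟨⟨14,0⟩, 1, ⟨3,0⟩⟩]⟩,
    ⟨⟨24,0⟩, ⟨1,0⟩, 0, [⟨⟨23,0⟩, 1, ⟨8,0⟩⟩, ⟨⟨8,0⟩, 0, ⟨1,0⟩⟩, ⟨⟨1,0⟩, 1, ⟨12,0⟩⟩, ⟨⟨15,0⟩, 1, ⟨4,0⟩⟩, ⟨⟨24,0⟩, 0, ⟨9,0⟩⟩, ⟨⟨25,0⟩, 1, ⟨9,0⟩⟩, ⟨⟨9,0⟩, 1, ⟨1,0⟩⟩]⟩,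
    ⟨⟨25,0⟩, ⟨1,0⟩, 0, [⟨⟨11,0⟩, 0, ⟨3,0⟩⟩, ⟨⟨16,0⟩, 1, ⟨5,0⟩⟩, ⟨⟨25,0⟩, 0, ⟨10,0⟩⟩, ⟨⟨24,0⟩, 1, ⟨9,0⟩⟩, ⟨⟨10,0⟩, 1, ⟨2,0⟩⟩, ⟨⟨2,0⟩, 1, ⟨13,0⟩⟩, ⟨⟨1,0⟩, 0, ⟨13,0⟩⟩]⟩,
    ⟨⟨26,0⟩, ⟨1,0⟩, 0, [⟨⟨27,0⟩, 1, ⟨11,0⟩⟩, ⟨⟨10,0⟩, 0, ⟨3,0⟩⟩, ⟨⟨2,0⟩, 0, ⟨14,0⟩⟩, ⟨⟨12,0⟩, 0, ⟨4,0⟩⟩, ⟨⟨26,0⟩, 0, ⟨11,0⟩⟩, ⟨⟨11,0⟩, 1, ⟨3,0⟩⟩, ⟨⟨18,0⟩, 0, ⟨7,0⟩⟩]⟩,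
    ⟨⟨27,0⟩, ⟨1,0⟩, 0, [⟨⟨12,0⟩, 1, ⟨4,0⟩⟩, ⟨⟨4,0⟩, 1, ⟨0,0⟩⟩, ⟨⟨27,0⟩, 0, ⟨12,0⟩⟩, ⟨⟨3,0⟩, 0, ⟨0,0⟩⟩, ⟨⟨11,0⟩, 0, ⟨4,0⟩⟩, ⟨⟨13,0⟩, 0, ⟨5,0⟩⟩, ⟨⟨26,0⟩, 1, ⟨11,0⟩⟩]⟩,
    ⟨⟨28,0⟩, ⟨1,0⟩, 0, [⟨⟨14,0⟩, 0, ⟨6,0⟩⟩, ⟨⟨28,0⟩, 0, ⟨13,0⟩⟩, ⟨⟨5,0⟩, 1, ⟨1,0⟩⟩, ⟨⟨19,0⟩, 1, ⟨8,0⟩⟩, ⟨⟨4,0⟩, 0, ⟨1,0⟩⟩, ⟨⟨20,0⟩, 0, ⟨9,0⟩⟩, ⟨⟨12,0⟩, 0, ⟨5,0⟩⟩]⟩,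
    ⟨⟨29,0⟩, ⟨1,0⟩, 6, [⟨⟨5,0⟩, 0, ⟨2,0⟩⟩, ⟨⟨20,0⟩, 1, ⟨9,0⟩⟩, ⟨⟨13,0⟩, 0, ⟨6,0⟩⟩, ⟨⟨14,0⟩, 0, ⟨14,0⟩⟩, ⟨⟨29,0⟩, 1, ⟨6,0⟩⟩, ⟨⟨15,0⟩, 0, ⟨7,0⟩⟩, ⟨⟨0,0⟩, 1, ⟨14,0⟩⟩]⟩]

theorem d3_8_ok : d3_8.check = true := by decide +kernel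

end Pool.Agent.Hhelper81.LT
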