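import Mathlib
import Pool.Agent.Hhelper81.LT.DatWin

set_option autoImplicit false

/-!
Certificates for the values `m = 3 mod 4`, orders `n = 2 mod 4`.
-/

namespace Pool.Agent.Hhelper81.LT

/-- certificate data -/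
def d3e : Dat where
  N := ⟨54,8⟩
  H := ⟨27,4⟩
  R0 := ⟨0,0⟩
  R1 := ⟨1,0⟩
  R2 := ⟨13,2⟩
  R3 := ⟨14,2⟩
  zs := [⟨⟨0,0⟩, ⟨13,2⟩, 0, 1, 2, 3⟩, ⟨⟨13,2⟩, ⟨1,0⟩, 1, 3, 2, 0⟩, ⟨⟨14,2⟩, ⟨13,2⟩, 1, 0, 2, 3⟩, ⟨⟨27,4⟩, ⟨1,0⟩, 1, 3, 2, 0⟩, ⟨⟨28,4⟩, ⟨12,2⟩, 1, 0, 2, 3⟩, ⟨⟨40,6⟩, ⟨1,0⟩, 2, 0, 3, 1⟩, ⟨⟨41,6⟩, ⟨12,2⟩, 0, 1, 3, 2⟩, ⟨⟨53,8⟩, ⟨1,0⟩, 3, 1, 0, 2⟩]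
  h0 := [(0, ⟨40,6⟩), (0, ⟨53,8⟩), (2, ⟨53,8⟩)]
  rr := 3
  lo1 := ⟨2,0⟩
  m1 := ⟨5,1⟩
  lo2 := ⟨14,2⟩
  m2 := ⟨6,1⟩
  W := [⟨26,4⟩, ⟨0,0⟩, ⟨1,0⟩, ⟨12,2⟩, ⟨13,2⟩]
  U := [⟨12,2⟩]
  rows := [
    ⟨⟨0,0⟩, ⟨1,0⟩, 1, [⟨⟨40,6⟩, 1, ⟨26,4⟩⟩, ⟨⟨53,8⟩, 1, ⟨6,1⟩⟩, ⟨⟨29,4⟩, 0, ⟨15,2⟩⟩, ⟨⟨13,2⟩, 0, ⟨7,1⟩⟩, ⟨⟨12,2⟩, 0, ⟨6,1⟩⟩, ⟨⟨14,2⟩, 1, ⟨7,1⟩⟩, ⟨⟨28,4⟩, 1, ⟨14,2⟩⟩]⟩,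
    ⟨⟨1,0⟩, ⟨1,0⟩, 2, [⟨⟨13,2⟩, 1, ⟨13,2⟩⟩, ⟨⟨27,4⟩, 1, ⟨20,3⟩⟩, ⟨⟨28,4⟩, 0, ⟨14,2⟩⟩, ⟨⟨26,4⟩, 0, ⟨13,2⟩⟩, ⟨⟨40,6⟩, 0, ⟨20,3⟩⟩, ⟨⟨1,0⟩, 0, ⟨1,0⟩⟩, ⟨⟨2,0⟩, 1, ⟨1,0⟩⟩]⟩,
    ⟨⟨2,0⟩, ⟨1,0⟩, 0, [⟨⟨29,4⟩, 1, ⟨15,2⟩⟩, ⟨⟨14,2⟩, 0, ⟨8,1⟩⟩, ⟨⟨41,6⟩, 1, ⟨21,3⟩⟩, ⟨⟨42,6⟩, 0, ⟨22,3⟩⟩, ⟨⟨1,0⟩, 1, ⟨1,0⟩⟩, ⟨⟨28,4⟩, 0, ⟨15,2⟩⟩, ⟨⟨3,0⟩, 1, ⟨2,0⟩⟩]⟩,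
    ⟨⟨3,0⟩, ⟨2,1⟩, 0, [⟨⟨30,4⟩, 1, ⟨16,2⟩⟩, ⟨⟨42,6⟩, 1, ⟨22,3⟩⟩, ⟨⟨15,2⟩, 0, ⟨9,1⟩⟩, ⟨⟨43,6⟩, 0, ⟨23,3⟩⟩, ⟨⟨29,4⟩, 0, ⟨16,2⟩⟩, ⟨⟨2,0⟩, 1, ⟨2,0⟩⟩, ⟨⟨4,0⟩, 1, ⟨3,0⟩⟩]⟩,
    ⟨⟨5,1⟩, ⟨1,0⟩, 0, [⟨⟨33,5⟩, 0, ⟨19,3⟩⟩, ⟨⟨5,1⟩, 0, ⟨5,1⟩⟩, ⟨⟨17,3⟩, 0, ⟨11,2⟩⟩, ⟨⟨4,1⟩, 1, ⟨4,1⟩⟩, ⟨⟨32,5⟩, 1, ⟨18,3⟩⟩, ⟨⟨31,5⟩, 0, ⟨18,3⟩⟩, ⟨⟨6,1⟩, 1, ⟨5,1⟩⟩]⟩,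
    ⟨⟨6,1⟩, ⟨1,0⟩, 0, [⟨⟨5,1⟩, 1, ⟨5,1⟩⟩, ⟨⟨32,5⟩, 0, ⟨19,3⟩⟩, ⟨⟨34,5⟩, 0, ⟨20,3⟩⟩, ⟨⟨46,7⟩, 0, ⟨26,4⟩⟩, ⟨⟨33,5⟩, 1, ⟨19,3⟩⟩, ⟨⟨18,3⟩, 0, ⟨12,2⟩⟩, ⟨⟨7,1⟩, 1, ⟨6,1⟩⟩]⟩,
    ⟨⟨7,1⟩, ⟨1,0⟩, 0, [⟨⟨47,7⟩, 0, ⟨0,0⟩⟩, ⟨⟨46,7⟩, 1, ⟨26,4⟩⟩, ⟨⟨8,1⟩, 1, ⟨7,1⟩⟩, ⟨⟨6,1⟩, 1, ⟨6,1⟩⟩, ⟨⟨19,3⟩, 0, ⟨13,2⟩⟩, ⟨⟨35,5⟩, 0, ⟨21,3⟩⟩, ⟨⟨34,5⟩, 1, ⟨20,3⟩⟩]⟩,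
    ⟨⟨8,1⟩, ⟨1,0⟩, 0, [⟨⟨34,5⟩, 0, ⟨21,3⟩⟩, ⟨⟨9,1⟩, 1, ⟨8,1⟩⟩, ⟨⟨21,3⟩, 1, ⟨14,2⟩⟩, ⟨⟨35,5⟩, 1, ⟨21,3⟩⟩, ⟨⟨7,1⟩, 1, ⟨7,1⟩⟩, ⟨⟨20,3⟩, 0, ⟨14,2⟩⟩, ⟨⟨48,7⟩, 0, ⟨1,0⟩⟩]⟩,
    ⟨⟨9,1⟩, ⟨1,0⟩, 0, [⟨⟨35,5⟩, 0, ⟨22,3⟩⟩, ⟨⟨10,1⟩, 1, ⟨9,1⟩⟩, ⟨⟨48,7⟩, 1, ⟨1,0⟩⟩, ⟨⟨21,3⟩, 0, ⟨15,2⟩⟩, ⟨⟨49,7⟩, 0, ⟨2,0⟩⟩, ⟨⟨8,1⟩, 1, ⟨8,1⟩⟩, ⟨⟨36,5⟩, 1, ⟨22,3⟩⟩]⟩,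
    ⟨⟨10,1⟩, ⟨2,1⟩, 0, [⟨⟨22,3⟩, 0, ⟨16,2⟩⟩, ⟨⟨11,1⟩, 1, ⟨10,1⟩⟩, ⟨⟨50,7⟩, 0, ⟨3,0⟩⟩, ⟨⟨49,7⟩, 1, ⟨2,0⟩⟩, ⟨⟨36,5⟩, 0, ⟨23,3⟩⟩, ⟨⟨23,3⟩, 1, ⟨16,2⟩⟩, ⟨⟨37,5⟩, 1, ⟨23,3⟩⟩]⟩,
    ⟨⟨12,2⟩, ⟨1,0⟩, 0, [⟨⟨25,4⟩, 1, ⟨18,3⟩⟩, ⟨⟨13,2⟩, 1, ⟨12,2⟩⟩, ⟨⟨24,4⟩, 0, ⟨18,3⟩⟩, ⟨⟨39,6⟩, 1, ⟨25,4⟩⟩, ⟨⟨52,8⟩, 0, ⟨5,1⟩⟩, ⟨⟨38,6⟩, 0, ⟨25,4⟩⟩, ⟨⟨11,2⟩, 1, ⟨11,2⟩⟩]⟩,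
    ⟨⟨13,2⟩, ⟨1,0⟩, 3, [⟨⟨42,6⟩, 0, ⟨1,0⟩⟩, ⟨⟨39,6⟩, 0, ⟨26,4⟩⟩, ⟨⟨53,8⟩, 1, ⟨26,4⟩⟩, ⟨⟨40,6⟩, 0, ⟨0,0⟩⟩, ⟨⟨41,6⟩, 1, ⟨0,0⟩⟩, ⟨⟨26,4⟩, 1, ⟨19,3⟩⟩, ⟨⟨14,2⟩, 1, ⟨13,2⟩⟩]⟩,
    ⟨⟨14,2⟩, ⟨1,0⟩, 4, [⟨⟨0,0⟩, 0, ⟨7,1⟩⟩, ⟨⟨26,4⟩, 0, ⟨20,3⟩⟩, ⟨⟨27,4⟩, 1, ⟨13,2⟩⟩, ⟨⟨52,8⟩, 1, ⟨5,1⟩⟩, ⟨⟨15,2⟩, 1, ⟨14,2⟩⟩, ⟨⟨53,8⟩, 0, ⟨6,1⟩⟩, ⟨⟨41,6⟩, 0, ⟨0,0⟩⟩]⟩,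
    ⟨⟨15,2⟩, ⟨1,0⟩, 0, [⟨⟨14,2⟩, 1, ⟨14,2⟩⟩, ⟨⟨0,0⟩, 1, ⟨7,1⟩⟩, ⟨⟨1,0⟩, 0, ⟨8,1⟩⟩, ⟨⟨27,4⟩, 0, ⟨21,3⟩⟩, ⟨⟨16,2⟩, 1, ⟨15,2⟩⟩, ⟨⟨42,6⟩, 1, ⟨1,0⟩⟩, ⟨⟨15,2⟩, 0, ⟨15,2⟩⟩]⟩,
    ⟨⟨16,2⟩, ⟨1,0⟩, 0, [⟨⟨43,6⟩, 1, ⟨2,0⟩⟩, ⟨⟨28,4⟩, 0, ⟨22,3⟩⟩, ⟨⟨42,6⟩, 0, ⟨2,0⟩⟩, ⟨⟨29,4⟩, 1, ⟨22,3⟩⟩, ⟨⟨2,0⟩, 0, ⟨9,1⟩⟩, ⟨⟨44,6⟩, 0, ⟨3,0⟩⟩, ⟨⟨16,2⟩, 0, ⟨16,2⟩⟩]⟩,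
    ⟨⟨17,2⟩, ⟨1,1⟩, 0, [⟨⟨44,6⟩, 1, ⟨3,0⟩⟩, ⟨⟨29,4⟩, 0, ⟨23,3⟩⟩, ⟨⟨2,0⟩, 1, ⟨9,1⟩⟩, ⟨⟨30,4⟩, 1, ⟨23,3⟩⟩, ⟨⟨3,0⟩, 0, ⟨10,1⟩⟩, ⟨⟨45,6⟩, 0, ⟨4,0⟩⟩, ⟨⟨17,2⟩, 0, ⟨17,2⟩⟩]⟩,
    ⟨⟨18,3⟩, ⟨1,0⟩, 0, [⟨⟨46,7⟩, 0, ⟨5,1⟩⟩, ⟨⟨30,5⟩, 0, ⟨24,4⟩⟩, ⟨⟨3,1⟩, 1, ⟨10,2⟩⟩, ⟨⟨31,5⟩, 1, ⟨24,4⟩⟩, ⟨⟨45,7⟩, 1, ⟨4,1⟩⟩, ⟨⟨4,1⟩, 0, ⟨11,2⟩⟩, ⟨⟨18,3⟩, 0, ⟨18,3⟩⟩]⟩,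
    ⟨⟨19,3⟩, ⟨1,0⟩, 0, [⟨⟨32,5⟩, 1, ⟨25,4⟩⟩, ⟨⟨31,5⟩, 0, ⟨25,4⟩⟩, ⟨⟨18,3⟩, 1, ⟨18,3⟩⟩, ⟨⟨45,7⟩, 0, ⟨5,1⟩⟩, ⟨⟨5,1⟩, 0, ⟨12,2⟩⟩, ⟨⟨19,3⟩, 0, ⟨19,3⟩⟩, ⟨⟨47,7⟩, 0, ⟨6,1⟩⟩]⟩,
    ⟨⟨20,3⟩, ⟨1,0⟩, 0, [⟨⟨19,3⟩, 1, ⟨19,3⟩⟩, ⟨⟨6,1⟩, 0, ⟨13,2⟩⟩, ⟨⟨47,7⟩, 1, ⟨6,1⟩⟩, ⟨⟨5,1⟩, 1, ⟨12,2⟩⟩, ⟨⟨48,7⟩, 0, ⟨7,1⟩⟩, ⟨⟨32,5⟩, 0, ⟨26,4⟩⟩, ⟨⟨33,5⟩, 1, ⟨26,4⟩⟩]⟩,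
    ⟨⟨21,3⟩, ⟨1,0⟩, 0, [⟨⟨7,1⟩, 0, ⟨14,2⟩⟩, ⟨⟨34,5⟩, 1, ⟨0,0⟩⟩, ⟨⟨33,5⟩, 0, ⟨0,0⟩⟩, ⟨⟨20,3⟩, 1, ⟨20,3⟩⟩, ⟨⟨22,3⟩, 1, ⟨21,3⟩⟩, ⟨⟨6,1⟩, 1, ⟨13,2⟩⟩, ⟨⟨49,7⟩, 0, ⟨8,1⟩⟩]⟩,
    ⟨⟨22,3⟩, ⟨1,0⟩, 0, [⟨⟨50,7⟩, 0, ⟨9,1⟩⟩, ⟨⟨8,1⟩, 0, ⟨15,2⟩⟩, ⟨⟨49,7⟩, 1, ⟨8,1⟩⟩, ⟨⟨48,7⟩, 0, ⟨8,1⟩⟩, ⟨⟨23,3⟩, 1, ⟨22,3⟩⟩, ⟨⟨21,3⟩, 1, ⟨21,3⟩⟩, ⟨⟨22,3⟩, 0, ⟨22,3⟩⟩]⟩,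
    ⟨⟨23,3⟩, ⟨2,1⟩, 0, [⟨⟨51,7⟩, 0, ⟨10,1⟩⟩, ⟨⟨35,5⟩, 0, ⟨2,0⟩⟩, ⟨⟨22,3⟩, 1, ⟨22,3⟩⟩, ⟨⟨8,1⟩, 1, ⟨15,2⟩⟩, ⟨⟨24,3⟩, 1, ⟨23,3⟩⟩, ⟨⟨9,1⟩, 0, ⟨16,2⟩⟩, ⟨⟨50,7⟩, 1, ⟨9,1⟩⟩]⟩,
    ⟨⟨25,4⟩, ⟨1,0⟩, 0, [⟨⟨24,4⟩, 1, ⟨24,4⟩⟩, ⟨⟨37,6⟩, 0, ⟨4,1⟩⟩, ⟨⟨26,4⟩, 1, ⟨25,4⟩⟩, ⟨⟨10,2⟩, 1, ⟨17,3⟩⟩, ⟨⟨11,2⟩, 0, ⟨18,3⟩⟩, ⟨⟨52,8⟩, 1, ⟨11,2⟩⟩, ⟨⟨53,8⟩, 0, ⟨12,2⟩⟩]⟩,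
    ⟨⟨26,4⟩, ⟨1,0⟩, 5, [⟨⟨53,8⟩, 1, ⟨12,2⟩⟩, ⟨⟨52,8⟩, 0, ⟨12,2⟩⟩, ⟨⟨38,6⟩, 0, ⟨5,1⟩⟩, ⟨⟨11,2⟩, 1, ⟨18,3⟩⟩, ⟨⟨26,4⟩, 0, ⟨26,4⟩⟩, ⟨⟨12,2⟩, 1, ⟨5,1⟩⟩, ⟨⟨39,6⟩, 0, ⟨19,3⟩⟩]⟩,
    ⟨⟨27,4⟩, ⟨1,0⟩, 0, [⟨⟨28,4⟩, 1, ⟨0,0⟩⟩, ⟨⟨1,0⟩, 0, ⟨14,2⟩⟩, ⟨⟨39,6⟩, 0, ⟨6,1⟩⟩, ⟨⟨0,0⟩, 1, ⟨13,2⟩⟩, ⟨⟨27,4⟩, 0, ⟨0,0⟩⟩, ⟨⟨40,6⟩, 1, ⟨6,1⟩⟩, ⟨⟨13,2⟩, 0, ⟨20,3⟩⟩]⟩,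
    ⟨⟨28,4⟩, ⟨1,0⟩, 0, [⟨⟨41,6⟩, 1, ⟨7,1⟩⟩, ⟨⟨40,6⟩, 0, ⟨7,1⟩⟩, ⟨⟨13,2⟩, 1, ⟨20,3⟩⟩, ⟨⟨1,0⟩, 1, ⟨14,2⟩⟩, ⟨⟨14,2⟩, 0, ⟨21,3⟩⟩, ⟨⟨27,4⟩, 1, ⟨0,0⟩⟩, ⟨⟨0,0⟩, 0, ⟨14,2⟩⟩]⟩,
    ⟨⟨29,4⟩, ⟨1,0⟩, 0, [⟨⟨1,0⟩, 0, ⟨15,2⟩⟩, ⟨⟨2,0⟩, 1, ⟨15,2⟩⟩, ⟨⟨30,4⟩, 1, ⟨2,0⟩⟩, ⟨⟨28,4⟩, 1, ⟨1,0⟩⟩, ⟨⟨42,6⟩, 1, ⟨8,1⟩⟩, ⟨⟨41,6⟩, 0, ⟨8,1⟩⟩, ⟨⟨29,4⟩, 0, ⟨2,0⟩⟩]⟩,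
    ⟨⟨30,4⟩, ⟨2,1⟩, 0, [⟨⟨16,2⟩, 0, ⟨23,3⟩⟩, ⟨⟨3,0⟩, 1, ⟨16,2⟩⟩, ⟨⟨31,4⟩, 1, ⟨3,0⟩⟩, ⟨⟨2,0⟩, 0, ⟨16,2⟩⟩, ⟨⟨43,6⟩, 1, ⟨9,1⟩⟩, ⟨⟨15,2⟩, 1, ⟨22,3⟩⟩, ⟨⟨30,4⟩, 0, ⟨3,0⟩⟩]⟩,
    ⟨⟨32,5⟩, ⟨1,0⟩, 0, [⟨⟨4,1⟩, 0, ⟨18,3⟩⟩, ⟨⟨44,7⟩, 0, ⟨11,2⟩⟩, ⟨⟨45,7⟩, 1, ⟨11,2⟩⟩, ⟨⟨18,3⟩, 0, ⟨25,4⟩⟩, ⟨⟨6,1⟩, 0, ⟨19,3⟩⟩, ⟨⟨17,3⟩, 1, ⟨24,4⟩⟩, ⟨⟨32,5⟩, 0, ⟨5,1⟩⟩]⟩,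
    ⟨⟨33,5⟩, ⟨1,0⟩, 0, [⟨⟨45,7⟩, 0, ⟨12,2⟩⟩, ⟨⟨18,3⟩, 1, ⟨25,4⟩⟩, ⟨⟨6,1⟩, 1, ⟨19,3⟩⟩, ⟨⟨33,5⟩, 0, ⟨6,1⟩⟩, ⟨⟨46,7⟩, 1, ⟨12,2⟩⟩, ⟨⟨7,1⟩, 0, ⟨20,3⟩⟩, ⟨⟨19,3⟩, 0, ⟨26,4⟩⟩]⟩,
    ⟨⟨34,5⟩, ⟨1,0⟩, 0, [⟨⟨6,1⟩, 0, ⟨20,3⟩⟩, ⟨⟨20,3⟩, 0, ⟨0,0⟩⟩, ⟨⟨46,7⟩, 0, ⟨13,2⟩⟩, ⟨⟨19,3⟩, 1, ⟨26,4⟩⟩, ⟨⟨47,7⟩, 1, ⟨13,2⟩⟩, ⟨⟨34,5⟩, 0, ⟨7,1⟩⟩, ⟨⟨8,1⟩, 0, ⟨21,3⟩⟩]⟩,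
    ⟨⟨35,5⟩, ⟨1,0⟩, 0, [⟨⟨36,5⟩, 1, ⟨8,1⟩⟩, ⟨⟨7,1⟩, 0, ⟨21,3⟩⟩, ⟨⟨9,1⟩, 0, ⟨22,3⟩⟩, ⟨⟨34,5⟩, 1, ⟨7,1⟩⟩, ⟨⟨21,3⟩, 0, ⟨1,0⟩⟩, ⟨⟨48,7⟩, 1, ⟨14,2⟩⟩, ⟨⟨20,3⟩, 1, ⟨0,0⟩⟩]⟩,
    ⟨⟨36,5⟩, ⟨1,0⟩, 0, [⟨⟨37,5⟩, 1, ⟨9,1⟩⟩, ⟨⟨21,3⟩, 1, ⟨1,0⟩⟩, ⟨⟨10,1⟩, 0, ⟨23,3⟩⟩, ⟨⟨36,5⟩, 0, ⟨9,1⟩⟩, ⟨⟨8,1⟩, 0, ⟨22,3⟩⟩, ⟨⟨22,3⟩, 0, ⟨2,0⟩⟩, ⟨⟨35,5⟩, 1, ⟨8,1⟩⟩]⟩,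
    ⟨⟨37,5⟩, ⟨2,1⟩, 0, [⟨⟨38,5⟩, 1, ⟨10,1⟩⟩, ⟨⟨49,7⟩, 0, ⟨16,2⟩⟩, ⟨⟨11,1⟩, 0, ⟨24,3⟩⟩, ⟨⟨37,5⟩, 0, ⟨10,1⟩⟩, ⟨⟨50,7⟩, 1, ⟨16,2⟩⟩, ⟨⟨36,5⟩, 1, ⟨9,1⟩⟩, ⟨⟨9,1⟩, 0, ⟨23,3⟩⟩]⟩,
    ⟨⟨39,6⟩, ⟨1,0⟩, 0, [⟨⟨11,2⟩, 0, ⟨25,4⟩⟩, ⟨⟨24,4⟩, 1, ⟨4,1⟩⟩, ⟨⟨40,6⟩, 1, ⟨12,2⟩⟩, ⟨⟨51,8⟩, 0, ⟨18,3⟩⟩, ⟨⟨38,6⟩, 1, ⟨11,2⟩⟩, ⟨⟨25,4⟩, 0, ⟨5,1⟩⟩, ⟨⟨12,2⟩, 1, ⟨25,4⟩⟩]⟩,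
    ⟨⟨40,6⟩, ⟨1,0⟩, 0, [⟨⟨12,2⟩, 0, ⟨26,4⟩⟩, ⟨⟨25,4⟩, 1, ⟨5,1⟩⟩, ⟨⟨52,8⟩, 0, ⟨19,3⟩⟩, ⟨⟨53,8⟩, 1, ⟨19,3⟩⟩, ⟨⟨13,2⟩, 1, ⟨26,4⟩⟩, ⟨⟨39,6⟩, 1, ⟨12,2⟩⟩, ⟨⟨40,6⟩, 0, ⟨13,2⟩⟩]⟩,
    ⟨⟨41,6⟩, ⟨1,0⟩, 0, [⟨⟨26,4⟩, 1, ⟨6,1⟩⟩, ⟨⟨15,2⟩, 0, ⟨1,0⟩⟩, ⟨⟨14,2⟩, 1, ⟨0,0⟩⟩, ⟨⟨41,6⟩, 0, ⟨14,2⟩⟩, ⟨⟨0,0⟩, 1, ⟨20,3⟩⟩, ⟨⟨13,2⟩, 0, ⟨0,0⟩⟩, ⟨⟨27,4⟩, 0, ⟨7,1⟩⟩]⟩,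
    ⟨⟨42,6⟩, ⟨1,0⟩, 0, [⟨⟨15,2⟩, 1, ⟨1,0⟩⟩, ⟨⟨41,6⟩, 1, ⟨14,2⟩⟩, ⟨⟨0,0⟩, 0, ⟨21,3⟩⟩, ⟨⟨14,2⟩, 0, ⟨1,0⟩⟩, ⟨⟨28,4⟩, 0, ⟨8,1⟩⟩, ⟨⟨43,6⟩, 1, ⟨15,2⟩⟩, ⟨⟨1,0⟩, 1, ⟨21,3⟩⟩]⟩,
    ⟨⟨43,6⟩, ⟨2,1⟩, 0, [⟨⟨2,0⟩, 1, ⟨22,3⟩⟩, ⟨⟨16,2⟩, 1, ⟨2,0⟩⟩, ⟨⟨43,6⟩, 0, ⟨16,2⟩⟩, ⟨⟨15,2⟩, 0, ⟨2,0⟩⟩, ⟨⟨17,2⟩, 0, ⟨3,0⟩⟩, ⟨⟨29,4⟩, 0, ⟨9,1⟩⟩, ⟨⟨42,6⟩, 1, ⟨15,2⟩⟩]⟩,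
    ⟨⟨45,7⟩, ⟨1,0⟩, 0, [⟨⟨18,3⟩, 1, ⟨4,1⟩⟩, ⟨⟨45,7⟩, 0, ⟨18,3⟩⟩, ⟨⟨4,1⟩, 1, ⟨24,4⟩⟩, ⟨⟨17,3⟩, 0, ⟨4,1⟩⟩, ⟨⟨31,5⟩, 0, ⟨11,2⟩⟩, ⟨⟨46,7⟩, 1, ⟨18,3⟩⟩, ⟨⟨44,7⟩, 1, ⟨17,3⟩⟩]⟩,
    ⟨⟨46,7⟩, ⟨1,0⟩, 0, [⟨⟨20,3⟩, 0, ⟨6,1⟩⟩, ⟨⟨47,7⟩, 1, ⟨19,3⟩⟩, ⟨⟨19,3⟩, 1, ⟨5,1⟩⟩, ⟨⟨32,5⟩, 0, ⟨12,2⟩⟩, ⟨⟨4,1⟩, 0, ⟨25,4⟩⟩, ⟨⟨5,1⟩, 1, ⟨25,4⟩⟩, ⟨⟨45,7⟩, 1, ⟨18,3⟩⟩]⟩,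
    ⟨⟨47,7⟩, ⟨1,0⟩, 0, [⟨⟨48,7⟩, 1, ⟨20,3⟩⟩, ⟨⟨19,3⟩, 0, ⟨6,1⟩⟩, ⟨⟨5,1⟩, 0, ⟨26,4⟩⟩, ⟨⟨47,7⟩, 0, ⟨20,3⟩⟩, ⟨⟨20,3⟩, 1, ⟨6,1⟩⟩, ⟨⟨33,5⟩, 0, ⟨13,2⟩⟩, ⟨⟨46,7⟩, 1, ⟨19,3⟩⟩]⟩,
    ⟨⟨48,7⟩, ⟨1,0⟩, 0, [⟨⟨49,7⟩, 1, ⟨21,3⟩⟩, ⟨⟨33,5⟩, 1, ⟨13,2⟩⟩, ⟨⟨20,3⟩, 0, ⟨7,1⟩⟩, ⟨⟨7,1⟩, 1, ⟨0,0⟩⟩, ⟨⟨34,5⟩, 0, ⟨14,2⟩⟩, ⟨⟨47,7⟩, 1, ⟨20,3⟩⟩, ⟨⟨21,3⟩, 1, ⟨7,1⟩⟩]⟩,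
    ⟨⟨49,7⟩, ⟨1,0⟩, 0, [⟨⟨21,3⟩, 0, ⟨8,1⟩⟩, ⟨⟨48,7⟩, 1, ⟨21,3⟩⟩, ⟨⟨7,1⟩, 0, ⟨1,0⟩⟩, ⟨⟨22,3⟩, 1, ⟨8,1⟩⟩, ⟨⟨35,5⟩, 0, ⟨15,2⟩⟩, ⟨⟨49,7⟩, 0, ⟨22,3⟩⟩, ⟨⟨23,3⟩, 0, ⟨9,1⟩⟩]⟩,
    ⟨⟨50,7⟩, ⟨2,1⟩, 0, [⟨⟨8,1⟩, 0, ⟨2,0⟩⟩, ⟨⟨22,3⟩, 0, ⟨9,1⟩⟩, ⟨⟨35,5⟩, 1, ⟨15,2⟩⟩, ⟨⟨23,3⟩, 1, ⟨9,1⟩⟩, ⟨⟨9,1⟩, 1, ⟨2,0⟩⟩, ⟨⟨50,7⟩, 0, ⟨23,3⟩⟩, ⟨⟨24,3⟩, 0, ⟨10,1⟩⟩]⟩,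
    ⟨⟨52,8⟩, ⟨1,0⟩, 0, [⟨⟨10,2⟩, 0, ⟨4,1⟩⟩, ⟨⟨51,8⟩, 1, ⟨24,4⟩⟩, ⟨⟨37,6⟩, 1, ⟨17,3⟩⟩, ⟨⟨25,4⟩, 1, ⟨11,2⟩⟩, ⟨⟨53,8⟩, 1, ⟨25,4⟩⟩, ⟨⟨11,2⟩, 1, ⟨4,1⟩⟩, ⟨⟨52,8⟩, 0, ⟨25,4⟩⟩]⟩,
    ⟨⟨53,8⟩, ⟨1,0⟩, 6, [⟨⟨27,4⟩, 0, ⟨13,2⟩⟩, ⟨⟨38,6⟩, 1, ⟨18,3⟩⟩, ⟨⟨25,4⟩, 0, ⟨12,2⟩⟩, ⟨⟨12,2⟩, 0, ⟨19,3⟩⟩, ⟨⟨39,6⟩, 1, ⟨5,1⟩⟩, ⟨⟨0,0⟩, 1, ⟨26,4⟩⟩, ⟨⟨26,4⟩, 1, ⟨12,2⟩⟩]⟩]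

theorem d3e_ok : d3e.check = true := by decide +kernel

/-- certificate data -/
def d3_10 : Dat where
  N := ⟨38,0⟩
  H := ⟨19,0⟩
  R0 := ⟨0,0⟩
  R1 := ⟨1,0⟩
  R2 := ⟨9,0⟩
  R3 := ⟨10,0⟩
  zs := [⟨⟨0,0⟩, ⟨9,0⟩, 0, 1, 2, 3⟩, ⟨⟨9,0⟩, ⟨1,0⟩, 1, 3, 2, 0⟩, ⟨⟨10,0⟩, ⟨9,0⟩, 1, 0, 2, 3⟩, ⟨⟨19,0⟩, ⟨1,0⟩, 1, 3, 2, 0⟩, ⟨⟨20,0⟩, ⟨8,0⟩, 1, 0, 2, 3⟩, ⟨⟨28,0⟩, ⟨1,0⟩, 2, 0, 3, 1⟩, ⟨⟨29,0⟩, ⟨8,0⟩, 0, 1, 3, 2⟩, ⟨⟨37,0⟩, ⟨1,0⟩,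 3, 1, 0, 2⟩]
  h0 := [(0, ⟨28,0⟩), (0, ⟨37,0⟩), (2, ⟨37,0⟩)]
  rr := 3
  lo1 := ⟨2,0⟩
  m1 := ⟨3,0⟩
  lo2 := ⟨10,0⟩
  m2 := ⟨4,0⟩
  W := [⟨0,0⟩, ⟨1,0⟩, ⟨8,0⟩, ⟨9,0⟩, ⟨18,0⟩]
  U := [⟨18,0⟩]
  rows := [
    ⟨⟨0,0⟩, ⟨1,0⟩, 1, [⟨⟨37,0⟩, 1, ⟨4,0⟩⟩, ⟨⟨28,0⟩, 1, ⟨18,0⟩⟩, ⟨⟨21,0⟩, 0, ⟨11,0⟩⟩, ⟨⟨19,0⟩, 0, ⟨10,0⟩⟩, ⟨⟨8,0⟩, 0, ⟨4,0⟩⟩, ⟨⟨9,0⟩, 0, ⟨5,0⟩⟩, ⟨⟨0,0⟩, 0, ⟨0,0⟩⟩]⟩,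
    ⟨⟨1,0⟩, ⟨1,0⟩, 2, [⟨⟨19,0⟩, 1, ⟨14,0⟩⟩, ⟨⟨9,0⟩, 1, ⟨9,0⟩⟩, ⟨⟨28,0⟩, 0, ⟨14,0⟩⟩, ⟨⟨1,0⟩, 0, ⟨1,0⟩⟩, ⟨⟨27,0⟩, 1, ⟨13,0⟩⟩, ⟨⟨2,0⟩, 1, ⟨1,0⟩⟩, ⟨⟨29,0⟩, 0, ⟨15,0⟩⟩]⟩,
    ⟨⟨2,0⟩, ⟨1,0⟩, 0, [⟨⟨1,0⟩, 1, ⟨1,0⟩⟩, ⟨⟨2,0⟩, 0, ⟨2,0⟩⟩, ⟨⟨11,0⟩, 1, ⟨6,0⟩⟩, ⟨⟨10,0⟩, 0, ⟨6,0⟩⟩, ⟨⟨3,0⟩, 1, ⟨2,0⟩⟩, ⟨⟨20,0⟩, 0, ⟨11,0⟩⟩, ⟨⟨22,0⟩, 0, ⟨12,0⟩⟩]⟩,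
    ⟨⟨3,0⟩, ⟨1,0⟩, 0, [⟨⟨11,0⟩, 0, ⟨7,0⟩⟩, ⟨⟨3,0⟩, 0, ⟨3,0⟩⟩, ⟨⟨4,0⟩, 1, ⟨3,0⟩⟩, ⟨⟨31,0⟩, 0, ⟨17,0⟩⟩, ⟨⟨23,0⟩, 0, ⟨13,0⟩⟩, ⟨⟨30,0⟩, 1, ⟨16,0⟩⟩, ⟨⟨2,0⟩, 1, ⟨2,0⟩⟩]⟩,
    ⟨⟨4,0⟩, ⟨1,0⟩, 0, [⟨⟨22,0⟩, 0, ⟨13,0⟩⟩, ⟨⟨4,0⟩, 0, ⟨4,0⟩⟩, ⟨⟨13,0⟩, 1, ⟨8,0⟩⟩, ⟨⟨24,0⟩, 0, ⟨14,0⟩⟩, ⟨⟨5,0⟩, 1, ⟨4,0⟩⟩, ⟨⟨12,0⟩, 0, ⟨8,0⟩⟩, ⟨⟨31,0⟩, 1, ⟨17,0⟩⟩]⟩,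
    ⟨⟨5,0⟩, ⟨1,0⟩, 0, [⟨⟨25,0⟩, 0, ⟨15,0⟩⟩, ⟨⟨13,0⟩, 0, ⟨9,0⟩⟩, ⟨⟨6,0⟩, 1, ⟨5,0⟩⟩, ⟨⟨32,0⟩, 1, ⟨18,0⟩⟩, ⟨⟨33,0⟩, 0, ⟨0,0⟩⟩, ⟨⟨4,0⟩, 1, ⟨4,0⟩⟩, ⟨⟨24,0⟩, 1, ⟨14,0⟩⟩]⟩,
    ⟨⟨6,0⟩, ⟨1,0⟩, 0, [⟨⟨34,0⟩, 0, ⟨1,0⟩⟩, ⟨⟨6,0⟩, 0, ⟨6,0⟩⟩, ⟨⟨24,0⟩, 0, ⟨15,0⟩⟩, ⟨⟨33,0⟩, 1, ⟨0,0⟩⟩, ⟨⟨25,0⟩, 1, ⟨15,0⟩⟩, ⟨⟨14,0⟩, 0, ⟨10,0⟩⟩, ⟨⟨7,0⟩, 1, ⟨6,0⟩⟩]⟩,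
    ⟨⟨7,0⟩, ⟨1,0⟩, 0, [⟨⟨26,0⟩, 1, ⟨16,0⟩⟩, ⟨⟨34,0⟩, 1, ⟨1,0⟩⟩, ⟨⟨8,0⟩, 1, ⟨7,0⟩⟩, ⟨⟨7,0⟩, 0, ⟨7,0⟩⟩, ⟨⟨6,0⟩, 1, ⟨6,0⟩⟩, ⟨⟨16,0⟩, 1, ⟨11,0⟩⟩, ⟨⟨15,0⟩, 0, ⟨11,0⟩⟩]⟩,
    ⟨⟨8,0⟩, ⟨1,0⟩, 0, [⟨⟨17,0⟩, 1, ⟨12,0⟩⟩, ⟨⟨26,0⟩, 0, ⟨17,0⟩⟩, ⟨⟨35,0⟩, 1, ⟨2,0⟩⟩, ⟨⟨8,0⟩, 0, ⟨8,0⟩⟩, ⟨⟨28,0⟩, 0, ⟨18,0⟩⟩, ⟨⟨7,0⟩, 1, ⟨7,0⟩⟩, ⟨⟨36,0⟩, 0, ⟨3,0⟩⟩]⟩,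
    ⟨⟨9,0⟩, ⟨1,0⟩, 3, [⟨⟨18,0⟩, 1, ⟨13,0⟩⟩, ⟨⟨29,0⟩, 1, ⟨0,0⟩⟩, ⟨⟨37,0⟩, 1, ⟨18,0⟩⟩, ⟨⟨9,0⟩, 0, ⟨9,0⟩⟩, ⟨⟨30,0⟩, 0, ⟨1,0⟩⟩, ⟨⟨27,0⟩, 0, ⟨18,0⟩⟩, ⟨⟨17,0⟩, 0, ⟨13,0⟩⟩]⟩,
    ⟨⟨10,0⟩, ⟨1,0⟩, 4, [⟨⟨0,0⟩, 0, ⟨5,0⟩⟩, ⟨⟨18,0⟩, 0, ⟨14,0⟩⟩, ⟨⟨9,0⟩, 1, ⟨4,0⟩⟩, ⟨⟨29,0⟩, 0, ⟨0,0⟩⟩, ⟨⟨10,0⟩, 0, ⟨10,0⟩⟩, ⟨⟨36,0⟩, 1, ⟨3,0⟩⟩, ⟨⟨11,0⟩, 1, ⟨10,0⟩⟩]⟩,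
    ⟨⟨11,0⟩, ⟨1,0⟩, 0, [⟨⟨10,0⟩, 1, ⟨10,0⟩⟩, ⟨⟨0,0⟩, 1, ⟨5,0⟩⟩, ⟨⟨20,0⟩, 1, ⟨15,0⟩⟩, ⟨⟨12,0⟩, 1, ⟨11,0⟩⟩, ⟨⟨19,0⟩, 0, ⟨15,0⟩⟩, ⟨⟨29,0⟩, 0, ⟨1,0⟩⟩, ⟨⟨1,0⟩, 0, ⟨6,0⟩⟩]⟩,
    ⟨⟨12,0⟩, ⟨1,0⟩, 0, [⟨⟨12,0⟩, 0, ⟨12,0⟩⟩, ⟨⟨11,0⟩, 1, ⟨11,0⟩⟩, ⟨⟨30,0⟩, 0, ⟨2,0⟩⟩, ⟨⟨13,0⟩, 1, ⟨12,0⟩⟩, ⟨⟨20,0⟩, 0, ⟨16,0⟩⟩, ⟨⟨31,0⟩, 1, ⟨2,0⟩⟩, ⟨⟨21,0⟩, 1, ⟨16,0⟩⟩]⟩,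
    ⟨⟨13,0⟩, ⟨1,0⟩, 0, [⟨⟨21,0⟩, 0, ⟨17,0⟩⟩, ⟨⟨12,0⟩, 1, ⟨12,0⟩⟩, ⟨⟨14,0⟩, 1, ⟨13,0⟩⟩, ⟨⟨2,0⟩, 1, ⟨7,0⟩⟩, ⟨⟨31,0⟩, 0, ⟨3,0⟩⟩, ⟨⟨22,0⟩, 1, ⟨17,0⟩⟩, ⟨⟨3,0⟩, 0, ⟨8,0⟩⟩]⟩,
    ⟨⟨14,0⟩, ⟨1,0⟩, 0, [⟨⟨14,0⟩, 0, ⟨14,0⟩⟩, ⟨⟨22,0⟩, 0, ⟨18,0⟩⟩, ⟨⟨15,0⟩, 1, ⟨14,0⟩⟩, ⟨⟨3,0⟩, 1, ⟨8,0⟩⟩, ⟨⟨4,0⟩, 0, ⟨9,0⟩⟩, ⟨⟨13,0⟩, 1, ⟨13,0⟩⟩, ⟨⟨32,0⟩, 0, ⟨4,0⟩⟩]⟩,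
    ⟨⟨15,0⟩, ⟨1,0⟩, 0, [⟨⟨23,0⟩, 0, ⟨0,0⟩⟩, ⟨⟨15,0⟩, 0, ⟨15,0⟩⟩, ⟨⟨33,0⟩, 0, ⟨5,0⟩⟩, ⟨⟨16,0⟩, 1, ⟨15,0⟩⟩, ⟨⟨34,0⟩, 1, ⟨5,0⟩⟩, ⟨⟨24,0⟩, 1, ⟨0,0⟩⟩, ⟨⟨4,0⟩, 1, ⟨9,0⟩⟩]⟩,
    ⟨⟨16,0⟩, ⟨1,0⟩, 0, [⟨⟨15,0⟩, 1, ⟨15,0⟩⟩, ⟨⟨5,0⟩, 1, ⟨10,0⟩⟩, ⟨⟨25,0⟩, 1, ⟨1,0⟩⟩, ⟨⟨17,0⟩, 1, ⟨16,0⟩⟩, ⟨⟨36,0⟩, 0, ⟨7,0⟩⟩, ⟨⟨35,0⟩, 1, ⟨6,0⟩⟩, ⟨⟨16,0⟩, 0, ⟨16,0⟩⟩]⟩,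
    ⟨⟨17,0⟩, ⟨1,0⟩, 0, [⟨⟨6,0⟩, 1, ⟨11,0⟩⟩, ⟨⟨37,0⟩, 0, ⟨8,0⟩⟩, ⟨⟨17,0⟩, 0, ⟨17,0⟩⟩, ⟨⟨26,0⟩, 1, ⟨2,0⟩⟩, ⟨⟨7,0⟩, 0, ⟨12,0⟩⟩, ⟨⟨25,0⟩, 0, ⟨2,0⟩⟩, ⟨⟨35,0⟩, 0, ⟨7,0⟩⟩]⟩,
    ⟨⟨18,0⟩, ⟨1,0⟩, 5, [⟨⟨36,0⟩, 0, ⟨8,0⟩⟩, ⟨⟨8,0⟩, 0, ⟨13,0⟩⟩, ⟨⟨26,0⟩, 0, ⟨3,0⟩⟩, ⟨⟨27,0⟩, 1, ⟨3,0⟩⟩, ⟨⟨17,0⟩, 1, ⟨17,0⟩⟩, ⟨⟨18,0⟩, 1, ⟨8,0⟩⟩, ⟨⟨37,0⟩, 0, ⟨18,0⟩⟩]⟩,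
    ⟨⟨19,0⟩, ⟨1,0⟩, 0, [⟨⟨27,0⟩, 0, ⟨4,0⟩⟩, ⟨⟨1,0⟩, 0, ⟨10,0⟩⟩, ⟨⟨19,0⟩, 0, ⟨0,0⟩⟩, ⟨⟨0,0⟩, 1, ⟨9,0⟩⟩, ⟨⟨9,0⟩, 0, ⟨14,0⟩⟩, ⟨⟨37,0⟩, 0, ⟨9,0⟩⟩, ⟨⟨8,0⟩, 1, ⟨13,0⟩⟩]⟩,
    ⟨⟨20,0⟩, ⟨1,0⟩, 0, [⟨⟨2,0⟩, 0, ⟨11,0⟩⟩, ⟨⟨20,0⟩, 0, ⟨1,0⟩⟩, ⟨⟨0,0⟩, 0, ⟨10,0⟩⟩, ⟨⟨28,0⟩, 0, ⟨5,0⟩⟩, ⟨⟨21,0⟩, 1, ⟨1,0⟩⟩, ⟨⟨1,0⟩, 1, ⟨10,0⟩⟩, ⟨⟨19,0⟩, 1, ⟨0,0⟩⟩]⟩,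
    ⟨⟨21,0⟩, ⟨1,0⟩, 0, [⟨⟨30,0⟩, 1, ⟨6,0⟩⟩, ⟨⟨10,0⟩, 1, ⟨15,0⟩⟩, ⟨⟨29,0⟩, 0, ⟨6,0⟩⟩, ⟨⟨21,0⟩, 0, ⟨2,0⟩⟩, ⟨⟨1,0⟩, 0, ⟨11,0⟩⟩, ⟨⟨11,0⟩, 0, ⟨16,0⟩⟩, ⟨⟨20,0⟩, 1, ⟨1,0⟩⟩]⟩,
    ⟨⟨22,0⟩, ⟨1,0⟩, 0, [⟨⟨31,0⟩, 1, ⟨7,0⟩⟩, ⟨⟨23,0⟩, 1, ⟨3,0⟩⟩, ⟨⟨2,0⟩, 0, ⟨12,0⟩⟩, ⟨⟨22,0⟩, 0, ⟨3,0⟩⟩, ⟨⟨11,0⟩, 1, ⟨16,0⟩⟩, ⟨⟨3,0⟩, 1, ⟨12,0⟩⟩, ⟨⟨12,0⟩, 0, ⟨17,0⟩⟩]⟩,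
    ⟨⟨23,0⟩, ⟨1,0⟩, 0, [⟨⟨32,0⟩, 1, ⟨8,0⟩⟩, ⟨⟨24,0⟩, 1, ⟨4,0⟩⟩, ⟨⟨12,0⟩, 1, ⟨17,0⟩⟩, ⟨⟨4,0⟩, 1, ⟨13,0⟩⟩, ⟨⟨22,0⟩, 1, ⟨3,0⟩⟩, ⟨⟨23,0⟩, 0, ⟨4,0⟩⟩, ⟨⟨5,0⟩, 0, ⟨14,0⟩⟩]⟩,
    ⟨⟨24,0⟩, ⟨1,0⟩, 0, [⟨⟨33,0⟩, 1, ⟨9,0⟩⟩, ⟨⟨14,0⟩, 0, ⟨0,0⟩⟩, ⟨⟨32,0⟩, 0, ⟨9,0⟩⟩, ⟨⟨23,0⟩, 1, ⟨4,0⟩⟩, ⟨⟨13,0⟩, 1, ⟨18,0⟩⟩, ⟨⟨5,0⟩, 1, ⟨14,0⟩⟩, ⟨⟨25,0⟩, 1, ⟨5,0⟩⟩]⟩,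
    ⟨⟨25,0⟩, ⟨1,0⟩, 0, [⟨⟨24,0⟩, 1, ⟨5,0⟩⟩, ⟨⟨7,0⟩, 0, ⟨16,0⟩⟩, ⟨⟨34,0⟩, 1, ⟨10,0⟩⟩, ⟨⟨5,0⟩, 0, ⟨15,0⟩⟩, ⟨⟨14,0⟩, 1, ⟨0,0⟩⟩, ⟨⟨6,0⟩, 1, ⟨15,0⟩⟩, ⟨⟨33,0⟩, 0, ⟨10,0⟩⟩]⟩,
    ⟨⟨26,0⟩, ⟨1,0⟩, 0, [⟨⟨16,0⟩, 0, ⟨2,0⟩⟩, ⟨⟨25,0⟩, 1, ⟨6,0⟩⟩, ⟨⟨7,0⟩, 1, ⟨16,0⟩⟩, ⟨⟨6,0⟩, 0, ⟨16,0⟩⟩, ⟨⟨35,0⟩, 1, ⟨11,0⟩⟩, ⟨⟨8,0⟩, 0, ⟨17,0⟩⟩, ⟨⟨27,0⟩, 1, ⟨7,0⟩⟩]⟩,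
    ⟨⟨27,0⟩, ⟨1,0⟩, 0, [⟨⟨9,0⟩, 0, ⟨18,0⟩⟩, ⟨⟨16,0⟩, 1, ⟨2,0⟩⟩, ⟨⟨36,0⟩, 1, ⟨12,0⟩⟩, ⟨⟨35,0⟩, 0, ⟨12,0⟩⟩, ⟨⟨26,0⟩, 1, ⟨7,0⟩⟩, ⟨⟨17,0⟩, 0, ⟨3,0⟩⟩, ⟨⟨28,0⟩, 1, ⟨8,0⟩⟩]⟩,
    ⟨⟨28,0⟩, ⟨1,0⟩, 0, [⟨⟨28,0⟩, 0, ⟨9,0⟩⟩, ⟨⟨27,0⟩, 1, ⟨8,0⟩⟩, ⟨⟨18,0⟩, 0, ⟨4,0⟩⟩, ⟨⟨36,0⟩, 0, ⟨13,0⟩⟩, ⟨⟨29,0⟩, 1, ⟨9,0⟩⟩, ⟨⟨10,0⟩, 0, ⟨0,0⟩⟩, ⟨⟨9,0⟩, 1, ⟨18,0⟩⟩]⟩,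
    ⟨⟨29,0⟩, ⟨1,0⟩, 0, [⟨⟨29,0⟩, 0, ⟨10,0⟩⟩, ⟨⟨19,0⟩, 0, ⟨5,0⟩⟩, ⟨⟨10,0⟩, 1, ⟨0,0⟩⟩, ⟨⟨30,0⟩, 1, ⟨10,0⟩⟩, ⟨⟨0,0⟩, 1, ⟨14,0⟩⟩, ⟨⟨28,0⟩, 1, ⟨9,0⟩⟩, ⟨⟨18,0⟩, 1, ⟨4,0⟩⟩]⟩,
    ⟨⟨30,0⟩, ⟨1,0⟩, 0, [⟨⟨20,0⟩, 0, ⟨6,0⟩⟩, ⟨⟨30,0⟩, 0, ⟨11,0⟩⟩, ⟨⟨31,0⟩, 1, ⟨11,0⟩⟩, ⟨⟨11,0⟩, 1, ⟨1,0⟩⟩, ⟨⟨12,0⟩, 0, ⟨2,0⟩⟩, ⟨⟨19,0⟩, 1, ⟨5,0⟩⟩, ⟨⟨10,0⟩, 0, ⟨1,0⟩⟩]⟩,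
    ⟨⟨31,0⟩, ⟨1,0⟩, 0, [⟨⟨13,0⟩, 0, ⟨3,0⟩⟩, ⟨⟨31,0⟩, 0, ⟨12,0⟩⟩, ⟨⟨1,0⟩, 0, ⟨16,0⟩⟩, ⟨⟨20,0⟩, 1, ⟨6,0⟩⟩, ⟨⟨32,0⟩, 1, ⟨12,0⟩⟩, ⟨⟨21,0⟩, 0, ⟨7,0⟩⟩, ⟨⟨30,0⟩, 1, ⟨11,0⟩⟩]⟩,
    ⟨⟨32,0⟩, ⟨1,0⟩, 0, [⟨⟨3,0⟩, 1, ⟨17,0⟩⟩, ⟨⟨21,0⟩, 1, ⟨7,0⟩⟩, ⟨⟨22,0⟩, 0, ⟨8,0⟩⟩, ⟨⟨14,0⟩, 0, ⟨4,0⟩⟩, ⟨⟨2,0⟩, 0, ⟨17,0⟩⟩, ⟨⟨32,0⟩, 0, ⟨13,0⟩⟩, ⟨⟨13,0⟩, 1, ⟨3,0⟩⟩]⟩,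
    ⟨⟨33,0⟩, ⟨1,0⟩, 0, [⟨⟨4,0⟩, 1, ⟨18,0⟩⟩, ⟨⟨32,0⟩, 1, ⟨13,0⟩⟩, ⟨⟨3,0⟩, 0, ⟨18,0⟩⟩, ⟨⟨34,0⟩, 1, ⟨14,0⟩⟩, ⟨⟨15,0⟩, 0, ⟨5,0⟩⟩, ⟨⟨33,0⟩, 0, ⟨14,0⟩⟩, ⟨⟨23,0⟩, 0, ⟨9,0⟩⟩]⟩,
    ⟨⟨34,0⟩, ⟨1,0⟩, 0, [⟨⟨5,0⟩, 1, ⟨0,0⟩⟩, ⟨⟨33,0⟩, 1, ⟨14,0⟩⟩, ⟨⟨23,0⟩, 1, ⟨9,0⟩⟩, ⟨⟨15,0⟩, 1, ⟨5,0⟩⟩, ⟨⟨16,0⟩, 0, ⟨6,0⟩⟩, ⟨⟨34,0⟩, 0, ⟨15,0⟩⟩, ⟨⟨14,0⟩, 0, ⟨5,0⟩⟩]⟩,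
    ⟨⟨35,0⟩, ⟨1,0⟩, 0, [⟨⟨35,0⟩, 0, ⟨16,0⟩⟩, ⟨⟨17,0⟩, 0, ⟨7,0⟩⟩, ⟨⟨5,0⟩, 0, ⟨1,0⟩⟩, ⟨⟨25,0⟩, 0, ⟨11,0⟩⟩, ⟨⟨24,0⟩, 1, ⟨10,0⟩⟩, ⟨⟨15,0⟩, 0, ⟨6,0⟩⟩, ⟨⟨34,0⟩, 1, ⟨15,0⟩⟩]⟩,
    ⟨⟨36,0⟩, ⟨1,0⟩, 0, [⟨⟨7,0⟩, 1, ⟨2,0⟩⟩, ⟨⟨35,0⟩, 1, ⟨16,0⟩⟩, ⟨⟨16,0⟩, 0, ⟨7,0⟩⟩, ⟨⟨37,0⟩, 1, ⟨17,0⟩⟩, ⟨⟨18,0⟩, 0, ⟨8,0⟩⟩, ⟨⟨26,0⟩, 0, ⟨12,0⟩⟩, ⟨⟨6,0⟩, 0, ⟨2,0⟩⟩]⟩,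
    ⟨⟨37,0⟩, ⟨1,0⟩, 6, [⟨⟨8,0⟩, 1, ⟨3,0⟩⟩, ⟨⟨36,0⟩, 1, ⟨17,0⟩⟩, ⟨⟨27,0⟩, 0, ⟨13,0⟩⟩, ⟨⟨18,0⟩, 0, ⟨18,0⟩⟩, ⟨⟨37,0⟩, 1, ⟨8,0⟩⟩, ⟨⟨0,0⟩, 1, ⟨18,0⟩⟩, ⟨⟨26,0⟩, 1, ⟨12,0⟩⟩]⟩]

theorem d3_10_ok : d3_10.check = true := by decide +kernel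

/-- certificate data -/
def d3_12 : Dat where
  N := ⟨46,0⟩
  H := ⟨23,0⟩
  R0 := ⟨0,0⟩
  R1 := ⟨1,0⟩
  R2 := ⟨11,0⟩
  R3 := ⟨12,0⟩
  zs := [⟨⟨0,0⟩, ⟨11,0⟩, 0, 1, 2, 3⟩, ⟨⟨11,0⟩, ⟨1,0⟩, 1, 3, 2, 0⟩, ⟨⟨12,0⟩, ⟨11,0⟩, 1, 0, 2, 3⟩, ⟨⟨23,0⟩, ⟨1,0⟩, 1, 3, 2, 0⟩, ⟨⟨24,0⟩, ⟨10,0⟩, 1, 0, 2, 3⟩, ⟨⟨34,0⟩, ⟨1,0⟩, 2, 0, 3, 1⟩, ⟨⟨35,0⟩, ⟨10,0⟩, 0, 1, 3, 2⟩, ⟨⟨45,0⟩, ⟨1,0⟩, 3, 1, 0, 2⟩]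
  h0 := [(0, ⟨34,0⟩), (0, ⟨45,0⟩), (2, ⟨45,0⟩)]
  rr := 3
  lo1 := ⟨2,0⟩
  m1 := ⟨4,0⟩
  lo2 := ⟨12,0⟩
  m2 := ⟨5,0⟩
  W := [⟨0,0⟩, ⟨1,0⟩, ⟨10,0⟩, ⟨11,0⟩, ⟨22,0⟩]
  U := [⟨22,0⟩]
  rows := [
    ⟨⟨0,0⟩, ⟨1,0⟩, 1, [⟨⟨45,0⟩, 1, ⟨5,0⟩⟩, ⟨⟨24,0⟩, 1, ⟨12,0⟩⟩, ⟨⟨34,0⟩, 1, ⟨22,0⟩⟩, ⟨⟨25,0⟩, 0, ⟨13,0⟩⟩, ⟨⟨11,0⟩, 0, ⟨6,0⟩⟩, ⟨⟨0,0⟩, 0, ⟨0,0⟩⟩, ⟨⟨10,0⟩, 0, ⟨5,0⟩⟩]⟩,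
    ⟨⟨1,0⟩, ⟨1,0⟩, 2, [⟨⟨11,0⟩, 1, ⟨11,0⟩⟩, ⟨⟨34,0⟩, 0, ⟨17,0⟩⟩, ⟨⟨23,0⟩, 1, ⟨17,0⟩⟩, ⟨⟨35,0⟩, 0, ⟨18,0⟩⟩, ⟨⟨2,0⟩, 1, ⟨1,0⟩⟩, ⟨⟨33,0⟩, 1, ⟨16,0⟩⟩, ⟨⟨1,0⟩, 0, ⟨1,0⟩⟩]⟩,
    ⟨⟨2,0⟩, ⟨1,0⟩, 0, [⟨⟨25,0⟩, 1, ⟨13,0⟩⟩, ⟨⟨36,0⟩, 0, ⟨19,0⟩⟩, ⟨⟨3,0⟩, 1, ⟨2,0⟩⟩, ⟨⟨13,0⟩, 1, ⟨7,0⟩⟩, ⟨⟨26,0⟩, 0, ⟨14,0⟩⟩, ⟨⟨1,0⟩, 1, ⟨1,0⟩⟩, ⟨⟨12,0⟩, 0, ⟨7,0⟩⟩]⟩,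
    ⟨⟨3,0⟩, ⟨1,0⟩, 0, [⟨⟨3,0⟩, 0, ⟨3,0⟩⟩, ⟨⟨2,0⟩, 1, ⟨2,0⟩⟩, ⟨⟨25,0⟩, 0, ⟨14,0⟩⟩, ⟨⟨14,0⟩, 1, ⟨8,0⟩⟩, ⟨⟨27,0⟩, 0, ⟨15,0⟩⟩, ⟨⟨4,0⟩, 1, ⟨3,0⟩⟩, ⟨⟨36,0⟩, 1, ⟨19,0⟩⟩]⟩,
    ⟨⟨4,0⟩, ⟨1,0⟩, 0, [⟨⟨38,0⟩, 0, ⟨21,0⟩⟩, ⟨⟨26,0⟩, 0, ⟨15,0⟩⟩, ⟨⟨5,0⟩, 1, ⟨4,0⟩⟩, ⟨⟨4,0⟩, 0, ⟨4,0⟩⟩, ⟨⟨37,0⟩, 1, ⟨20,0⟩⟩, ⟨⟨28,0⟩, 0, ⟨16,0⟩⟩, ⟨⟨27,0⟩, 1, ⟨15,0⟩⟩]⟩,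
    ⟨⟨5,0⟩, ⟨1,0⟩, 0, [⟨⟨4,0⟩, 1, ⟨4,0⟩⟩, ⟨⟨5,0⟩, 0, ⟨5,0⟩⟩, ⟨⟨38,0⟩, 1, ⟨21,0⟩⟩, ⟨⟨6,0⟩, 1, ⟨5,0⟩⟩, ⟨⟨29,0⟩, 0, ⟨17,0⟩⟩, ⟨⟨39,0⟩, 0, ⟨22,0⟩⟩, ⟨⟨15,0⟩, 0, ⟨10,0⟩⟩]⟩,
    ⟨⟨6,0⟩, ⟨1,0⟩, 0, [⟨⟨39,0⟩, 1, ⟨22,0⟩⟩, ⟨⟨6,0⟩, 0, ⟨6,0⟩⟩, ⟨⟨17,0⟩, 1, ⟨11,0⟩⟩, ⟨⟨29,0⟩, 1, ⟨17,0⟩⟩, ⟨⟨7,0⟩, 1, ⟨6,0⟩⟩, ⟨⟨16,0⟩, 0, ⟨11,0⟩⟩, ⟨⟨40,0⟩, 0, ⟨0,0⟩⟩]⟩,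
    ⟨⟨7,0⟩, ⟨1,0⟩, 0, [⟨⟨29,0⟩, 0, ⟨18,0⟩⟩, ⟨⟨41,0⟩, 0, ⟨1,0⟩⟩, ⟨⟨6,0⟩, 1, ⟨6,0⟩⟩, ⟨⟨17,0⟩, 0, ⟨12,0⟩⟩, ⟨⟨40,0⟩, 1, ⟨0,0⟩⟩, ⟨⟨31,0⟩, 0, ⟨19,0⟩⟩, ⟨⟨8,0⟩, 1, ⟨7,0⟩⟩]⟩,
    ⟨⟨8,0⟩, ⟨1,0⟩, 0, [⟨⟨9,0⟩, 1, ⟨8,0⟩⟩, ⟨⟨31,0⟩, 1, ⟨19,0⟩⟩, ⟨⟨41,0⟩, 1, ⟨1,0⟩⟩, ⟨⟨19,0⟩, 1, ⟨13,0⟩⟩, ⟨⟨30,0⟩, 0, ⟨19,0⟩⟩, ⟨⟨8,0⟩, 0, ⟨8,0⟩⟩, ⟨⟨18,0⟩, 0, ⟨13,0⟩⟩]⟩,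
    ⟨⟨9,0⟩, ⟨1,0⟩, 0, [⟨⟨31,0⟩, 0, ⟨20,0⟩⟩, ⟨⟨43,0⟩, 0, ⟨3,0⟩⟩, ⟨⟨33,0⟩, 0, ⟨21,0⟩⟩, ⟨⟨9,0⟩, 0, ⟨9,0⟩⟩, ⟨⟨42,0⟩, 1, ⟨2,0⟩⟩, ⟨⟨10,0⟩, 1, ⟨9,0⟩⟩, ⟨⟨19,0⟩, 0, ⟨14,0⟩⟩]⟩,
    ⟨⟨10,0⟩, ⟨1,0⟩, 0, [⟨⟨20,0⟩, 0, ⟨15,0⟩⟩, ⟨⟨44,0⟩, 0, ⟨4,0⟩⟩, ⟨⟨11,0⟩, 1, ⟨10,0⟩⟩, ⟨⟨21,0⟩, 1, ⟨15,0⟩⟩, ⟨⟨9,0⟩, 1, ⟨9,0⟩⟩, ⟨⟨32,0⟩, 0, ⟨21,0⟩⟩, ⟨⟨33,0⟩, 1, ⟨21,0⟩⟩]⟩,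
    ⟨⟨11,0⟩, ⟨1,0⟩, 3, [⟨⟨22,0⟩, 1, ⟨16,0⟩⟩, ⟨⟨45,0⟩, 1, ⟨22,0⟩⟩, ⟨⟨35,0⟩, 1, ⟨0,0⟩⟩, ⟨⟨10,0⟩, 1, ⟨10,0⟩⟩, ⟨⟨12,0⟩, 1, ⟨11,0⟩⟩, ⟨⟨36,0⟩, 0, ⟨1,0⟩⟩, ⟨⟨11,0⟩, 0, ⟨11,0⟩⟩]⟩,
    ⟨⟨12,0⟩, ⟨1,0⟩, 4, [⟨⟨0,0⟩, 0, ⟨6,0⟩⟩, ⟨⟨23,0⟩, 1, ⟨11,0⟩⟩, ⟨⟨13,0⟩, 1, ⟨12,0⟩⟩, ⟨⟨44,0⟩, 1, ⟨4,0⟩⟩, ⟨⟨35,0⟩, 0, ⟨0,0⟩⟩, ⟨⟨12,0⟩, 0, ⟨12,0⟩⟩, ⟨⟨22,0⟩, 0, ⟨17,0⟩⟩]⟩,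
    ⟨⟨13,0⟩, ⟨1,0⟩, 0, [⟨⟨24,0⟩, 1, ⟨18,0⟩⟩, ⟨⟨0,0⟩, 1, ⟨6,0⟩⟩, ⟨⟨37,0⟩, 0, ⟨2,0⟩⟩, ⟨⟨12,0⟩, 1, ⟨12,0⟩⟩, ⟨⟨14,0⟩, 1, ⟨13,0⟩⟩, ⟨⟨13,0⟩, 0, ⟨13,0⟩⟩, ⟨⟨23,0⟩, 0, ⟨18,0⟩⟩]⟩,
    ⟨⟨14,0⟩, ⟨1,0⟩, 0, [⟨⟨2,0⟩, 0, ⟨8,0⟩⟩, ⟨⟨13,0⟩, 1, ⟨13,0⟩⟩, ⟨⟨1,0⟩, 1, ⟨7,0⟩⟩, ⟨⟨36,0⟩, 0, ⟨2,0⟩⟩, ⟨⟨25,0⟩, 1, ⟨19,0⟩⟩, ⟨⟨15,0⟩, 1, ⟨14,0⟩⟩, ⟨⟨37,0⟩, 1, ⟨2,0⟩⟩]⟩,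
    ⟨⟨15,0⟩, ⟨1,0⟩, 0, [⟨⟨16,0⟩, 1, ⟨15,0⟩⟩, ⟨⟨25,0⟩, 0, ⟨20,0⟩⟩, ⟨⟨14,0⟩, 1, ⟨14,0⟩⟩, ⟨⟨37,0⟩, 0, ⟨3,0⟩⟩, ⟨⟨39,0⟩, 0, ⟨4,0⟩⟩, ⟨⟨26,0⟩, 1, ⟨20,0⟩⟩, ⟨⟨2,0⟩, 1, ⟨8,0⟩⟩]⟩,
    ⟨⟨16,0⟩, ⟨1,0⟩, 0, [⟨⟨27,0⟩, 1, ⟨21,0⟩⟩, ⟨⟨3,0⟩, 1, ⟨9,0⟩⟩, ⟨⟨16,0⟩, 0, ⟨16,0⟩⟩, ⟨⟨26,0⟩, 0, ⟨21,0⟩⟩, ⟨⟨17,0⟩, 1, ⟨16,0⟩⟩, ⟨⟨40,0⟩, 0, ⟨5,0⟩⟩, ⟨⟨39,0⟩, 1, ⟨4,0⟩⟩]⟩,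
    ⟨⟨17,0⟩, ⟨1,0⟩, 0, [⟨⟨5,0⟩, 0, ⟨11,0⟩⟩, ⟨⟨16,0⟩, 1, ⟨16,0⟩⟩, ⟨⟨27,0⟩, 0, ⟨22,0⟩⟩, ⟨⟨28,0⟩, 1, ⟨22,0⟩⟩, ⟨⟨18,0⟩, 1, ⟨17,0⟩⟩, ⟨⟨17,0⟩, 0, ⟨17,0⟩⟩, ⟨⟨4,0⟩, 1, ⟨10,0⟩⟩]⟩,
    ⟨⟨18,0⟩, ⟨1,0⟩, 0, [⟨⟨42,0⟩, 0, ⟨7,0⟩⟩, ⟨⟨29,0⟩, 1, ⟨0,0⟩⟩, ⟨⟨28,0⟩, 0, ⟨0,0⟩⟩, ⟨⟨40,0⟩, 0, ⟨6,0⟩⟩, ⟨⟨19,0⟩, 1, ⟨18,0⟩⟩, ⟨⟨41,0⟩, 1, ⟨6,0⟩⟩, ⟨⟨6,0⟩, 0, ⟨12,0⟩⟩]⟩,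
    ⟨⟨19,0⟩, ⟨1,0⟩, 0, [⟨⟨19,0⟩, 0, ⟨19,0⟩⟩, ⟨⟨42,0⟩, 1, ⟨7,0⟩⟩, ⟨⟨7,0⟩, 0, ⟨13,0⟩⟩, ⟨⟨41,0⟩, 0, ⟨7,0⟩⟩, ⟨⟨43,0⟩, 0, ⟨8,0⟩⟩, ⟨⟨18,0⟩, 1, ⟨18,0⟩⟩, ⟨⟨30,0⟩, 1, ⟨1,0⟩⟩]⟩,
    ⟨⟨20,0⟩, ⟨1,0⟩, 0, [⟨⟨30,0⟩, 0, ⟨2,0⟩⟩, ⟨⟨8,0⟩, 0, ⟨14,0⟩⟩, ⟨⟨44,0⟩, 0, ⟨9,0⟩⟩, ⟨⟨31,0⟩, 1, ⟨2,0⟩⟩, ⟨⟨20,0⟩, 0, ⟨20,0⟩⟩, ⟨⟨43,0⟩, 1, ⟨8,0⟩⟩, ⟨⟨21,0⟩, 1, ⟨20,0⟩⟩]⟩,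
    ⟨⟨21,0⟩, ⟨1,0⟩, 0, [⟨⟨32,0⟩, 1, ⟨3,0⟩⟩, ⟨⟨20,0⟩, 1, ⟨20,0⟩⟩, ⟨⟨9,0⟩, 0, ⟨15,0⟩⟩, ⟨⟨8,0⟩, 1, ⟨14,0⟩⟩, ⟨⟨22,0⟩, 1, ⟨21,0⟩⟩, ⟨⟨45,0⟩, 0, ⟨10,0⟩⟩, ⟨⟨43,0⟩, 0, ⟨9,0⟩⟩]⟩,
    ⟨⟨22,0⟩, ⟨1,0⟩, 5, [⟨⟨44,0⟩, 0, ⟨10,0⟩⟩, ⟨⟨21,0⟩, 1, ⟨21,0⟩⟩, ⟨⟨32,0⟩, 0, ⟨4,0⟩⟩, ⟨⟨0,0⟩, 0, ⟨11,0⟩⟩, ⟨⟨23,0⟩, 1, ⟨22,0⟩⟩, ⟨⟨22,0⟩, 1, ⟨10,0⟩⟩, ⟨⟨45,0⟩, 0, ⟨22,0⟩⟩]⟩,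
    ⟨⟨23,0⟩, ⟨1,0⟩, 0, [⟨⟨23,0⟩, 0, ⟨0,0⟩⟩, ⟨⟨1,0⟩, 0, ⟨12,0⟩⟩, ⟨⟨10,0⟩, 1, ⟨16,0⟩⟩, ⟨⟨11,0⟩, 0, ⟨17,0⟩⟩, ⟨⟨33,0⟩, 0, ⟨5,0⟩⟩, ⟨⟨34,0⟩, 1, ⟨5,0⟩⟩, ⟨⟨24,0⟩, 1, ⟨0,0⟩⟩]⟩,
    ⟨⟨24,0⟩, ⟨1,0⟩, 0, [⟨⟨1,0⟩, 1, ⟨12,0⟩⟩, ⟨⟨12,0⟩, 0, ⟨18,0⟩⟩, ⟨⟨24,0⟩, 0, ⟨1,0⟩⟩, ⟨⟨23,0⟩, 1, ⟨0,0⟩⟩, ⟨⟨0,0⟩, 0, ⟨12,0⟩⟩, ⟨⟨11,0⟩, 1, ⟨17,0⟩⟩, ⟨⟨34,0⟩, 0, ⟨6,0⟩⟩]⟩,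
    ⟨⟨25,0⟩, ⟨1,0⟩, 0, [⟨⟨36,0⟩, 1, ⟨7,0⟩⟩, ⟨⟨35,0⟩, 0, ⟨7,0⟩⟩, ⟨⟨12,0⟩, 1, ⟨18,0⟩⟩, ⟨⟨24,0⟩, 1, ⟨1,0⟩⟩, ⟨⟨1,0⟩, 0, ⟨13,0⟩⟩, ⟨⟨25,0⟩, 0, ⟨2,0⟩⟩, ⟨⟨13,0⟩, 0, ⟨19,0⟩⟩]⟩,
    ⟨⟨26,0⟩, ⟨1,0⟩, 0, [⟨⟨13,0⟩, 1, ⟨19,0⟩⟩, ⟨⟨37,0⟩, 1, ⟨8,0⟩⟩, ⟨⟨36,0⟩, 0, ⟨8,0⟩⟩, ⟨⟨27,0⟩, 1, ⟨3,0⟩⟩, ⟨⟨3,0⟩, 1, ⟨14,0⟩⟩, ⟨⟨2,0⟩, 0, ⟨14,0⟩⟩, ⟨⟨14,0⟩, 0, ⟨20,0⟩⟩]⟩,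
    ⟨⟨27,0⟩, ⟨1,0⟩, 0, [⟨⟨14,0⟩, 1, ⟨20,0⟩⟩, ⟨⟨15,0⟩, 0, ⟨21,0⟩⟩, ⟨⟨4,0⟩, 1, ⟨15,0⟩⟩, ⟨⟨38,0⟩, 1, ⟨9,0⟩⟩, ⟨⟨5,0⟩, 0, ⟨16,0⟩⟩, ⟨⟨3,0⟩, 0, ⟨15,0⟩⟩, ⟨⟨26,0⟩, 1, ⟨3,0⟩⟩]⟩,
    ⟨⟨28,0⟩, ⟨1,0⟩, 0, [⟨⟨28,0⟩, 0, ⟨5,0⟩⟩, ⟨⟨4,0⟩, 0, ⟨16,0⟩⟩, ⟨⟨29,0⟩, 1, ⟨5,0⟩⟩, ⟨⟨15,0⟩, 1, ⟨21,0⟩⟩, ⟨⟨38,0⟩, 0, ⟨10,0⟩⟩, ⟨⟨27,0⟩, 1, ⟨4,0⟩⟩, ⟨⟨5,0⟩, 1, ⟨16,0⟩⟩]⟩,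
    ⟨⟨29,0⟩, ⟨1,0⟩, 0, [⟨⟨6,0⟩, 1, ⟨17,0⟩⟩, ⟨⟨17,0⟩, 0, ⟨0,0⟩⟩, ⟨⟨39,0⟩, 0, ⟨11,0⟩⟩, ⟨⟨30,0⟩, 1, ⟨6,0⟩⟩, ⟨⟨28,0⟩, 1, ⟨5,0⟩⟩, ⟨⟨7,0⟩, 0, ⟨18,0⟩⟩, ⟨⟨16,0⟩, 1, ⟨22,0⟩⟩]⟩,
    ⟨⟨30,0⟩, ⟨1,0⟩, 0, [⟨⟨17,0⟩, 1, ⟨0,0⟩⟩, ⟨⟨7,0⟩, 1, ⟨18,0⟩⟩, ⟨⟨40,0⟩, 0, ⟨12,0⟩⟩, ⟨⟨18,0⟩, 0, ⟨1,0⟩⟩, ⟨⟨31,0⟩, 1, ⟨7,0⟩⟩, ⟨⟨30,0⟩, 0, ⟨7,0⟩⟩, ⟨⟨29,0⟩, 1, ⟨6,0⟩⟩]⟩,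
    ⟨⟨31,0⟩, ⟨1,0⟩, 0, [⟨⟨41,0⟩, 0, ⟨13,0⟩⟩, ⟨⟨18,0⟩, 1, ⟨1,0⟩⟩, ⟨⟨8,0⟩, 1, ⟨19,0⟩⟩, ⟨⟨7,0⟩, 0, ⟨19,0⟩⟩, ⟨⟨32,0⟩, 1, ⟨8,0⟩⟩, ⟨⟨9,0⟩, 0, ⟨20,0⟩⟩, ⟨⟨42,0⟩, 1, ⟨13,0⟩⟩]⟩,
    ⟨⟨32,0⟩, ⟨1,0⟩, 0, [⟨⟨43,0⟩, 1, ⟨14,0⟩⟩, ⟨⟨32,0⟩, 0, ⟨9,0⟩⟩, ⟨⟨31,0⟩, 1, ⟨8,0⟩⟩, ⟨⟨42,0⟩, 0, ⟨14,0⟩⟩, ⟨⟨10,0⟩, 0, ⟨21,0⟩⟩, ⟨⟨19,0⟩, 1, ⟨2,0⟩⟩, ⟨⟨20,0⟩, 0, ⟨3,0⟩⟩]⟩,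
    ⟨⟨33,0⟩, ⟨1,0⟩, 0, [⟨⟨34,0⟩, 1, ⟨10,0⟩⟩, ⟨⟨11,0⟩, 0, ⟨22,0⟩⟩, ⟨⟨20,0⟩, 1, ⟨3,0⟩⟩, ⟨⟨33,0⟩, 0, ⟨10,0⟩⟩, ⟨⟨44,0⟩, 1, ⟨15,0⟩⟩, ⟨⟨21,0⟩, 0, ⟨4,0⟩⟩, ⟨⟨32,0⟩, 1, ⟨9,0⟩⟩]⟩,
    ⟨⟨34,0⟩, ⟨1,0⟩, 0, [⟨⟨10,0⟩, 0, ⟨22,0⟩⟩, ⟨⟨33,0⟩, 1, ⟨10,0⟩⟩, ⟨⟨22,0⟩, 0, ⟨5,0⟩⟩, ⟨⟨45,0⟩, 1, ⟨16,0⟩⟩, ⟨⟨34,0⟩, 0, ⟨11,0⟩⟩, ⟨⟨35,0⟩, 1, ⟨11,0⟩⟩, ⟨⟨44,0⟩, 0, ⟨16,0⟩⟩]⟩,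
    ⟨⟨35,0⟩, ⟨1,0⟩, 0, [⟨⟨35,0⟩, 0, ⟨12,0⟩⟩, ⟨⟨22,0⟩, 1, ⟨5,0⟩⟩, ⟨⟨45,0⟩, 0, ⟨17,0⟩⟩, ⟨⟨34,0⟩, 1, ⟨11,0⟩⟩, ⟨⟨36,0⟩, 1, ⟨12,0⟩⟩, ⟨⟨23,0⟩, 0, ⟨6,0⟩⟩, ⟨⟨0,0⟩, 1, ⟨17,0⟩⟩]⟩,
    ⟨⟨36,0⟩, ⟨1,0⟩, 0, [⟨⟨12,0⟩, 0, ⟨1,0⟩⟩, ⟨⟨14,0⟩, 0, ⟨2,0⟩⟩, ⟨⟨0,0⟩, 0, ⟨18,0⟩⟩, ⟨⟨1,0⟩, 1, ⟨18,0⟩⟩, ⟨⟨24,0⟩, 0, ⟨7,0⟩⟩, ⟨⟨37,0⟩, 1, ⟨13,0⟩⟩, ⟨⟨35,0⟩, 1, ⟨12,0⟩⟩]⟩,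
    ⟨⟨37,0⟩, ⟨1,0⟩, 0, [⟨⟨37,0⟩, 0, ⟨14,0⟩⟩, ⟨⟨38,0⟩, 1, ⟨14,0⟩⟩, ⟨⟨15,0⟩, 0, ⟨3,0⟩⟩, ⟨⟨2,0⟩, 1, ⟨19,0⟩⟩, ⟨⟨13,0⟩, 0, ⟨2,0⟩⟩, ⟨⟨24,0⟩, 1, ⟨7,0⟩⟩, ⟨⟨25,0⟩, 0, ⟨8,0⟩⟩]⟩,
    ⟨⟨38,0⟩, ⟨1,0⟩, 0, [⟨⟨26,0⟩, 0, ⟨9,0⟩⟩, ⟨⟨39,0⟩, 1, ⟨15,0⟩⟩, ⟨⟨2,0⟩, 0, ⟨20,0⟩⟩, ⟨⟨3,0⟩, 1, ⟨20,0⟩⟩, ⟨⟨15,0⟩, 1, ⟨3,0⟩⟩, ⟨⟨14,0⟩, 0, ⟨3,0⟩⟩, ⟨⟨38,0⟩, 0, ⟨15,0⟩⟩]⟩,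
    ⟨⟨39,0⟩, ⟨1,0⟩, 0, [⟨⟨15,0⟩, 0, ⟨4,0⟩⟩, ⟨⟨27,0⟩, 0, ⟨10,0⟩⟩, ⟨⟨26,0⟩, 1, ⟨9,0⟩⟩, ⟨⟨39,0⟩, 0, ⟨16,0⟩⟩, ⟨⟨16,0⟩, 1, ⟨4,0⟩⟩, ⟨⟨38,0⟩, 1, ⟨15,0⟩⟩, ⟨⟨3,0⟩, 0, ⟨21,0⟩⟩]⟩,
    ⟨⟨40,0⟩, ⟨1,0⟩, 0, [⟨⟨40,0⟩, 0, ⟨17,0⟩⟩, ⟨⟨28,0⟩, 0, ⟨11,0⟩⟩, ⟨⟨18,0⟩, 0, ⟨6,0⟩⟩, ⟨⟨16,0⟩, 0, ⟨5,0⟩⟩, ⟨⟨4,0⟩, 0, ⟨22,0⟩⟩, ⟨⟨5,0⟩, 1, ⟨22,0⟩⟩, ⟨⟨17,0⟩, 1, ⟨5,0⟩⟩]⟩,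
    ⟨⟨41,0⟩, ⟨1,0⟩, 0, [⟨⟨18,0⟩, 1, ⟨6,0⟩⟩, ⟨⟨40,0⟩, 1, ⟨17,0⟩⟩, ⟨⟨19,0⟩, 0, ⟨7,0⟩⟩, ⟨⟨5,0⟩, 0, ⟨0,0⟩⟩, ⟨⟨41,0⟩, 0, ⟨18,0⟩⟩, ⟨⟨6,0⟩, 1, ⟨0,0⟩⟩, ⟨⟨28,0⟩, 1, ⟨11,0⟩⟩]⟩,
    ⟨⟨42,0⟩, ⟨1,0⟩, 0, [⟨⟨7,0⟩, 1, ⟨1,0⟩⟩, ⟨⟨30,0⟩, 0, ⟨13,0⟩⟩, ⟨⟨42,0⟩, 0, ⟨19,0⟩⟩, ⟨⟨20,0⟩, 0, ⟨8,0⟩⟩, ⟨⟨6,0⟩, 0, ⟨1,0⟩⟩, ⟨⟨29,0⟩, 1, ⟨12,0⟩⟩, ⟨⟨41,0⟩, 1, ⟨18,0⟩⟩]⟩,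
    ⟨⟨43,0⟩, ⟨1,0⟩, 0, [⟨⟨8,0⟩, 1, ⟨2,0⟩⟩, ⟨⟨19,0⟩, 0, ⟨8,0⟩⟩, ⟨⟨30,0⟩, 1, ⟨13,0⟩⟩, ⟨⟨43,0⟩, 0, ⟨20,0⟩⟩, ⟨⟨21,0⟩, 0, ⟨9,0⟩⟩, ⟨⟨42,0⟩, 1, ⟨19,0⟩⟩, ⟨⟨7,0⟩, 0, ⟨2,0⟩⟩]⟩,
    ⟨⟨44,0⟩, ⟨1,0⟩, 0, [⟨⟨21,0⟩, 1, ⟨9,0⟩⟩, ⟨⟨9,0⟩, 1, ⟨3,0⟩⟩, ⟨⟨43,0⟩, 1, ⟨20,0⟩⟩, ⟨⟨32,0⟩, 0, ⟨15,0⟩⟩, ⟨⟨8,0⟩, 0, ⟨3,0⟩⟩, ⟨⟨20,0⟩, 0, ⟨9,0⟩⟩, ⟨⟨31,0⟩, 1, ⟨14,0⟩⟩]⟩,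
    ⟨⟨45,0⟩, ⟨1,0⟩, 6, [⟨⟨33,0⟩, 0, ⟨16,0⟩⟩, ⟨⟨10,0⟩, 1, ⟨4,0⟩⟩, ⟨⟨21,0⟩, 0, ⟨10,0⟩⟩, ⟨⟨22,0⟩, 0, ⟨22,0⟩⟩, ⟨⟨45,0⟩, 1, ⟨10,0⟩⟩, ⟨⟨44,0⟩, 1, ⟨21,0⟩⟩, ⟨⟨9,0⟩, 0, ⟨4,0⟩⟩]⟩]

theorem d3_12_ok : d3_12.check = true := by decide +kernel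

end Pool.Agent.Hhelper81.LT
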