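import Mathlib
import Pool.Agent.Hhelper81.LT.Dat1
import Pool.Agent.Hhelper81.LT.Dat2
import Pool.Agent.Hhelper81.LT.Dat3
import Pool.Agent.Hhelper81.LT.Dat3b

set_option autoImplicit false

/-!
Every `m ≤ n - 3` is attained for every `n = 2 mod 4`, `n ≥ 10`.
-/

namespace Pool.Agent.Hhelper81.LT

open Pool.Agent.Hhelper79.LT

/-- use of a certificate -/
theorem use (D : Dat) (hD : D.check = true) (q : ℕ) {n m j : ℕ} (hn : D.N.ev q = n)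
    (hm : 4 * j + D.rr = m) (hj : j ≤ D.m1.ev q + D.m2.ev q + D.U.length) : Attains n m := by
  subst hn hm
  exact D.sound hD q hj

theorem attains_r1 {b j : ℕ} (hb : 3 ≤ b) (hj : j + 2 ≤ b) : Attains (4 * b - 2) (4 * j + 1) := by
  by_cases h3 : b = 3
  · subst h3
    exact use d1_3 d1_3_ok 0 rfl rfl (show j ≤ 0 + 0 * 0 + (0 + 0 * 0) + 1 by omega)
  by_cases h4 : b = 4
  · subst h4
    exact use d1_4 d1_4_ok 0 rfl rfl (show j ≤ 0 + 0 * 0 + (0 + 0 * 0) + 2 by omega)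
  rcases Nat.even_or_odd' b with ⟨c, hc | hc⟩
  · obtain ⟨q, hq⟩ : ∃ q, c = q + 3 := ⟨c - 3, by omega⟩
    refine use d1e d1e_ok q (j := j) ?_ rfl ?_
    · show 22 + 8 * q = 4 * b - 2
      omega
    · show j ≤ (1 + 1 * q) + (1 + 1 * q) + 2
      omega
  · obtain ⟨q, hq⟩ : ∃ q, c = q + 2 := ⟨c - 2, by omega⟩
    refine use d1o d1o_ok q (j := j) ?_ rfl ?_
    · show 18 + 8 * q = 4 * b - 2
      omega
    · show j ≤ (1 + 1 * q) + (1 + 1 * q) + 1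
      omega


theorem attains_r2 {b j : ℕ} (hb : 3 ≤ b) (hj : j + 2 ≤ b) : Attains (4 * b - 2) (4 * j + 2) := by
  by_cases h3 : b = 3
  · subst h3
    exact use d2_3 d2_3_ok 0 rfl rfl (show j ≤ 0 + 0 * 0 + (0 + 0 * 0) + 1 by omega)
  by_cases h4 : b = 4
  · subst h4
    exact use d2_4 d2_4_ok 0 rfl rfl (show j ≤ 1 + 0 * 0 + (0 + 0 * 0) + 1 by omega)
  by_cases h5 : b = 5
  · subst h5
    exact use d2_5 d2_5_ok 0 rfl rfl (show j ≤ 1 + 0 * 0 + (1 + 0 * 0) + 1 by omega)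
  rcases Nat.even_or_odd' b with ⟨c, hc | hc⟩
  · obtain ⟨q, hq⟩ : ∃ q, c = q + 3 := ⟨c - 3, by omega⟩
    refine use d2e d2e_ok q (j := j) ?_ rfl ?_
    · show 22 + 8 * q = 4 * b - 2
      omega
    · show j ≤ (2 + 1 * q) + (1 + 1 * q) + 1
      omega
  · obtain ⟨q, hq⟩ : ∃ q, c = q + 3 := ⟨c - 3, by omega⟩
    refine use d2o d2o_ok q (j := j) ?_ rfl ?_
    · show 26 + 8 * q = 4 * b - 2
      omega
    · show j ≤ (2 + 1 * q) + (2 + 1 * q) + 1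
      omega

theorem attains_r3 {b j : ℕ} (hb : 3 ≤ b) (hj : j + 2 ≤ b) : Attains (4 * b - 2) (4 * j + 3) := by
  by_cases h3 : b = 3
  · subst h3
    exact use d3_3 d3_3_ok 0 rfl rfl (show j ≤ 0 + 0 * 0 + (0 + 0 * 0) + 1 by omega)
  by_cases h4 : b = 4
  · subst h4
    exact use d3_4 d3_4_ok 0 rfl rfl (show j ≤ 0 + 0 * 0 + (0 + 0 * 0) + 2 by omega)
  by_cases h5 : b = 5
  · subst h5
    exact use d3_5 d3_5_ok 0 rfl rfl (show j ≤ 1 + 0 * 0 + (1 + 0 * 0) + 1 by omega)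
  by_cases h6 : b = 6
  · subst h6
    exact use d3_6 d3_6_ok 0 rfl rfl (show j ≤ 1 + 0 * 0 + (2 + 0 * 0) + 1 by omega)
  by_cases h7 : b = 7
  · subst h7
    exact use d3_7 d3_7_ok 0 rfl rfl (show j ≤ 2 + 0 * 0 + (2 + 0 * 0) + 1 by omega)
  by_cases h8 : b = 8
  · subst h8
    exact use d3_8 d3_8_ok 0 rfl rfl (show j ≤ 2 + 0 * 0 + (3 + 0 * 0) + 1 by omega)
  by_cases h10 : b = 10
  · subst h10
    exact use d3_10 d3_10_ok 0 rfl rfl (show j ≤ 3 + 0 * 0 + (4 + 0 * 0) + 1 by omega)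
  by_cases h12 : b = 12
  · subst h12
    exact use d3_12 d3_12_ok 0 rfl rfl (show j ≤ 4 + 0 * 0 + (5 + 0 * 0) + 1 by omega)
  rcases Nat.even_or_odd' b with ⟨c, hc | hc⟩
  · obtain ⟨q, hq⟩ : ∃ q, c = q + 7 := ⟨c - 7, by omega⟩
    refine use d3e d3e_ok q (j := j) ?_ rfl ?_
    · show 54 + 8 * q = 4 * b - 2
      omega
    · show j ≤ (5 + 1 * q) + (6 + 1 * q) + 1
      omega
  · obtain ⟨q, hq⟩ : ∃ q, c = q + 4 := ⟨c - 4, by omega⟩
    refine use d3o d3o_ok q (j := j) ?_ rfl ?_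
    · show 34 + 8 * q = 4 * b - 2
      omega
    · show j ≤ (3 + 1 * q) + (3 + 1 * q) + 1
      omega

/-- MAIN THEOREM for `n = 2 mod 4`: every `m ≤ n - 2` -/
theorem attains_two_mod_four {n m : ℕ} (hn : 10 ≤ n) (h4 : n % 4 = 2) (hm : m + 2 ≤ n) :
    Attains n m := by
  obtain ⟨b, rfl⟩ : ∃ b, n = 4 * b - 2 := ⟨(n + 2) / 4, by omega⟩
  have hb : 3 ≤ b := by omega
  have hcase : m % 4 = 0 ∨ m % 4 = 1 ∨ m % 4 = 2 ∨ m % 4 = 3 := by omega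
  rcases hcase with h | h | h | h
  · obtain ⟨j, rfl⟩ : ∃ j, m = 4 * j := ⟨m / 4, by omega⟩
    exact attains_four (h := 2 * b - 1) (by omega) (by omega) (by omega)
  · obtain ⟨j, rfl⟩ : ∃ j, m = 4 * j + 1 := ⟨m / 4, by omega⟩
    exact attains_r1 hb (by omega)
  · obtain ⟨j, rfl⟩ : ∃ j, m = 4 * j + 2 := ⟨m / 4, by omega⟩
    exact attains_r2 hb (by omega)
  · obtain ⟨j, rfl⟩ : ∃ j, m = 4 * j + 3 := ⟨m / 4, by omega⟩
    exact attains_r3 hb (by omega)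

end Pool.Agent.Hhelper81.LT
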